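import Pool.Agent.Work.MP_499dc6_lc.MU.StmtsB

set_option autoImplicit false

/-!
# Multiples of the permanent in bounded depth, item BD: rules for `Bdd`
-/

namespace Pool.Agent.Work.MP_499dc6_lc.MU

open MvPolynomial Finset

open scoped PowerSeries

theorem BD_iff {κ V : Type} [Field κ] (n d : ℕ) (f : MvPowerSeries V (LaurentSeries κ)) :
    Bdd n d f ↔ ∀ m : V →₀ ℕ, m.degree ≤ d → eps κ ^ n * MvPowerSeries.coeff m f ∈ (ph κ).range := by
  constructor
  · intro h m hm
    obtain ⟨a, ha⟩ := h m hm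
    exact ⟨a, ha.symm⟩
  · intro h m hm
    obtain ⟨a, ha⟩ := h m hm
    exact ⟨a, ha.symm⟩

theorem BD_eps (κ : Type) [Field κ] (n : ℕ) : eps κ ^ n ∈ (ph κ).range := by
  have h : eps κ ∈ (ph κ).range := ⟨PowerSeries.X, rfl⟩
  exact pow_mem h n

theorem BD_mono {κ V : Type} [Field κ] (n n' d : ℕ) (f : MvPowerSeries V (LaurentSeries κ))
    (h : n ≤ n') (hf : Bdd n d f) : Bdd n' d f := by
  rw [BD_iff] at hf ⊢
  intro m hm
  obtain ⟨k, rfl⟩ := Nat.exists_eq_add_of_le h
  have e : eps κ ^ (n + k) * MvPowerSeries.coeff m f =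
      eps κ ^ k * (eps κ ^ n * MvPowerSeries.coeff m f) := by
    rw [pow_add]
    ring
  rw [e]
  exact mul_mem (BD_eps κ k) (hf m hm)

theorem BD_mul {κ V : Type} [Field κ] (n n' d : ℕ) (f g : MvPowerSeries V (LaurentSeries κ))
    (hf : Bdd n d f) (hg : Bdd n' d g) : Bdd (n + n') d (f * g) := by
  classical
  rw [BD_iff] at hf hg ⊢
  intro m hm
  rw [MvPowerSeries.coeff_mul, Finset.mul_sum]
  refine sum_mem fun p hp => ?_
  rw [HasAntidiagonal.mem_antidiagonal] at hp
  have hdeg : p.1.degree + p.2.degree = m.degree := by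
    rw [← hp, map_add]
  have e : eps κ ^ (n + n') * (MvPowerSeries.coeff p.1 f * MvPowerSeries.coeff p.2 g) =
      (eps κ ^ n * MvPowerSeries.coeff p.1 f) * (eps κ ^ n' * MvPowerSeries.coeff p.2 g) := by
    rw [pow_add]
    ring
  rw [e]
  exact mul_mem (hf p.1 (by omega)) (hg p.2 (by omega))

theorem BD_C {κ V : Type} [Field κ] (d : ℕ) (a : κ⟦X⟧) :
    Bdd 0 d (MvPowerSeries.C (ph κ a) : MvPowerSeries V (LaurentSeries κ)) := by
  classical
  rw [BD_iff]
  intro m _
  rw [pow_zero, one_mul, MvPowerSeries.coeff_C]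
  split_ifs
  · exact ⟨a, rfl⟩
  · exact zero_mem _

theorem pr_BD : S_BD := by
  intro κ V _ n n' d f g a
  refine ⟨BD_mono n n' d f, ?_, ?_, BD_mul n n' d f g, BD_C d a, ?_, ?_, ?_, ?_⟩
  · intro hf hg
    rw [BD_iff] at hf hg ⊢
    intro m hm
    rw [map_add, mul_add]
    exact add_mem (hf m hm) (hg m hm)
  · intro hf
    rw [BD_iff] at hf ⊢
    intro m hm
    rw [map_neg, mul_neg]
    exact neg_mem (hf m hm)
  · intro hf
    induction n' with
    | zero =>
      rw [Nat.zero_mul, pow_zero]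
      have h := BD_C (κ := κ) (V := V) d 1
      rwa [map_one, map_one] at h
    | succ k ih =>
      rw [pow_succ, Nat.succ_mul]
      exact BD_mul _ _ d _ _ ih hf
  · intro hf
    rw [BD_iff] at hf ⊢
    intro m hm
    have e : MvPowerSeries.coeff m (Eu f) = (m.degree : LaurentSeries κ) *
        MvPowerSeries.coeff m f := rfl
    rw [e, mul_left_comm]
    exact mul_mem (natCast_mem _ _) (hf m hm)
  · intro hf hn
    rw [BD_iff] at hf ⊢
    intro m hm
    obtain ⟨k, rfl⟩ := Nat.exists_eq_add_of_le hn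
    rw [pow_zero, one_mul, MvPowerSeries.coeff_C_mul, pow_add, mul_assoc, mul_left_comm]
    exact mul_mem (BD_eps κ k) (hf m hm)
  · intro hf m hm
    obtain ⟨b, hb⟩ := hf m hm
    rw [pow_zero, one_mul] at hb
    exact ⟨b, hb⟩

end Pool.Agent.Work.MP_499dc6_lc.MU
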