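import Pool.Agent.Work.MP_499dc6_lc.MU.StmtsB

namespace Pool.Agent.Work.MP_499dc6_lc.MU

open MvPolynomial Finset

open scoped PowerSeries

theorem BI_eps {κ : Type} [Field κ] (n : ℕ) : eps κ ^ n ∈ (ph κ).range :=
  ⟨PowerSeries.X ^ n, by rw [map_pow]; rfl⟩

theorem BI_eps_ne {κ : Type} [Field κ] : eps κ ≠ 0 := by
  unfold eps ph
  intro h
  have h1 : (PowerSeries.X : κ⟦X⟧) = 0 :=
    IsFractionRing.injective κ⟦X⟧ (LaurentSeries κ) (by rw [h, map_zero])
  exact PowerSeries.X_ne_zero h1

theorem BI_step {κ V : Type} [Field κ] (n d : ℕ) (f g : MvPowerSeries V (LaurentSeries κ))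
    (hf : Bdd 0 d f) (b : κ⟦X⟧) (hb : ph κ b * MvPowerSeries.constantCoeff f = eps κ ^ n)
    (hfg : f * g = 1) : ∀ k : ℕ, ∀ m : V →₀ ℕ, m.degree = k → k ≤ d →
      eps κ ^ (n * (k + 1)) * MvPowerSeries.coeff m g ∈ (ph κ).range := by
  classical
  intro k
  induction k using Nat.strong_induction_on with
  | _ k ih =>
    intro m hm hk
    have h1 : MvPowerSeries.coeff m (f * g) =
        ∑ p ∈ antidiagonal m, MvPowerSeries.coeff p.1 f * MvPowerSeries.coeff p.2 g :=
      MvPowerSeries.coeff_mul m f g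
    have hmem : ((0 : V →₀ ℕ), m) ∈ antidiagonal m := by
      rw [Finset.HasAntidiagonal.mem_antidiagonal]
      exact zero_add m
    rw [← Finset.add_sum_erase _ _ hmem] at h1
    have h0 : MvPowerSeries.coeff (0 : V →₀ ℕ) f = MvPowerSeries.constantCoeff f := by
      rw [MvPowerSeries.coeff_zero_eq_constantCoeff]
    have h2 : MvPowerSeries.constantCoeff f * MvPowerSeries.coeff m g =
        MvPowerSeries.coeff m (f * g) - ∑ p ∈ (antidiagonal m).erase (0, m),
          MvPowerSeries.coeff p.1 f * MvPowerSeries.coeff p.2 g := by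
      rw [h1, ← h0]
      ring
    have h3 : eps κ ^ (n * (k + 1)) * MvPowerSeries.coeff m g =
        ph κ b * (eps κ ^ (n * k) * MvPowerSeries.coeff m (f * g) -
          ∑ p ∈ (antidiagonal m).erase (0, m), eps κ ^ (n * k) *
          (MvPowerSeries.coeff p.1 f * MvPowerSeries.coeff p.2 g)) := by
      have e : eps κ ^ (n * (k + 1)) = ph κ b * MvPowerSeries.constantCoeff f * eps κ ^ (n * k) := by
        rw [hb, ← pow_add]
        congr 1
        ring
      rw [e, ← Finset.mul_sum]
      calc ph κ b * MvPowerSeries.constantCoeff f * eps κ ^ (n * k) * MvPowerSeries.coeff m g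
          = ph κ b * eps κ ^ (n * k) * (MvPowerSeries.constantCoeff f * MvPowerSeries.coeff m g) := by
            ring
        _ = _ := by rw [h2]; ring
    rw [h3]
    refine Subring.mul_mem _ ⟨b, rfl⟩ (Subring.sub_mem _ (Subring.mul_mem _ (BI_eps _) ?_)
      (Subring.sum_mem _ ?_))
    · rw [hfg, MvPowerSeries.coeff_one]
      split_ifs
      · exact Subring.one_mem _
      · exact Subring.zero_mem _
    · rintro ⟨p1, p2⟩ hp
      rw [Finset.mem_erase, Finset.HasAntidiagonal.mem_antidiagonal] at hp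
      obtain ⟨hne, hsum⟩ := hp
      have hsum' : p1 + p2 = m := hsum
      have hp1 : p1 ≠ 0 := by
        rintro rfl
        apply hne
        rw [zero_add] at hsum'
        rw [hsum']
      have hdeg : p1.degree + p2.degree = k := by
        rw [← hm, ← hsum', map_add]
      have hpos : 0 < p1.degree := by
        rw [Nat.pos_iff_ne_zero]
        intro h
        exact hp1 ((Finsupp.degree_eq_zero_iff p1).1 h)
      have hlt : p2.degree < k := by omega
      obtain ⟨a1, ha1⟩ := hf p1 (by omega)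
      rw [pow_zero, one_mul] at ha1
      have h5 := ih p2.degree hlt p2 rfl (by omega)
      have h6 : n * k = (n * k - n * (p2.degree + 1)) + n * (p2.degree + 1) := by
        have : n * (p2.degree + 1) ≤ n * k := Nat.mul_le_mul_left n hlt
        omega
      have h7 : eps κ ^ (n * k) * (MvPowerSeries.coeff p1 f * MvPowerSeries.coeff p2 g) =
          eps κ ^ (n * k - n * (p2.degree + 1)) * MvPowerSeries.coeff p1 f *
            (eps κ ^ (n * (p2.degree + 1)) * MvPowerSeries.coeff p2 g) := by
        conv_lhs => rw [h6, pow_add]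
        ring
      show eps κ ^ (n * k) * (MvPowerSeries.coeff p1 f * MvPowerSeries.coeff p2 g) ∈ _
      rw [h7]
      exact Subring.mul_mem _ (Subring.mul_mem _ (BI_eps _) ⟨a1, ha1.symm⟩) h5

theorem pr_BI : S_BI := by
  intro κ V _ n d f hf hu m hm
  obtain ⟨b, hb⟩ := hu
  have hu0 : MvPowerSeries.constantCoeff f ≠ 0 := by
    intro h
    rw [h, mul_zero] at hb
    exact pow_ne_zero n (BI_eps_ne (κ := κ)) hb.symm
  obtain ⟨a, ha⟩ := BI_step n d f f⁻¹ hf b hb (MvPowerSeries.mul_inv_cancel f hu0) m.degree m rfl hm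
  have h6 : n * (d + 1) = (n * (d + 1) - n * (m.degree + 1)) + n * (m.degree + 1) := by
    have : n * (m.degree + 1) ≤ n * (d + 1) := Nat.mul_le_mul_left n (by omega)
    omega
  refine ⟨PowerSeries.X ^ (n * (d + 1) - n * (m.degree + 1)) * a, ?_⟩
  rw [map_mul, ha, map_pow]
  show eps κ ^ (n * (d + 1)) * _ = eps κ ^ (n * (d + 1) - n * (m.degree + 1)) * _
  conv_lhs => rw [h6, pow_add]
  ring

end Pool.Agent.Work.MP_499dc6_lc.MU
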