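import Pool.Agent.Work.MP_499dc6_lc.MU.StmtsC

/-!
# Multiples of the permanent in bounded depth: item BP (the permanent at the base point)
-/

namespace Pool.Agent.Work.MP_499dc6_lc.MU

open MvPolynomial Finset
open Pool.Agent.Work.MP_499dc6_lc.CD (dY dZ IsBi BB mat)
open Pool.Agent.Work.MP_499dc6_lc.D3
open Pool.Agent.Work.MP_499dc6_lc.Fib

open scoped PowerSeries

/-- The constant coefficients in the indeterminate of the power series. -/
noncomputable def BP_pi (κ V : Type) [Field κ] : MvPolynomial V κ⟦X⟧ →+* MvPolynomial V κ :=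
  MvPolynomial.map (PowerSeries.constantCoeff (R := κ))

theorem BP_pi_map {κ V : Type} [Field κ] (g : MvPolynomial V κ) :
    BP_pi κ V (MvPolynomial.map PowerSeries.C g) = g := by
  unfold BP_pi
  rw [MvPolynomial.map_map]
  have h : (PowerSeries.constantCoeff (R := κ)).comp PowerSeries.C = RingHom.id κ := by
    ext a
    simp
  rw [h, MvPolynomial.map_id]

theorem BP_lift {κ V : Type} [Field κ] (f : MvPolynomial V κ⟦X⟧) :
    ∃ R : MvPolynomial V κ⟦X⟧,
      f = MvPolynomial.map PowerSeries.C (BP_pi κ V f) + C PowerSeries.X * R := by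
  have h : C PowerSeries.X ∣ f - MvPolynomial.map PowerSeries.C (BP_pi κ V f) := by
    rw [MvPolynomial.C_dvd_iff_dvd_coeff]
    intro m
    rw [PowerSeries.X_dvd_iff, MvPolynomial.coeff_sub, MvPolynomial.coeff_map, BP_pi,
      MvPolynomial.coeff_map, map_sub]
    simp
  obtain ⟨R, hR⟩ := h
  exact ⟨R, by rw [← hR]; ring⟩

theorem BP_pi_bp {κ σ V : Type} [Field κ] [DecidableEq V] (θ : σ → MvPolynomial V κ)
    (A : Finset V) (c : σ → κ) (v : σ) : BP_pi κ V (bp θ A c v) = rA κ A (θ v) := by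
  unfold bp
  rw [map_add, BP_pi_map]
  have h : BP_pi κ V (C (PowerSeries.X * PowerSeries.C (c v))) = 0 := by
    unfold BP_pi
    rw [MvPolynomial.map_C]
    simp
  rw [h, add_zero]

theorem BP_perm {κ V : Type} [Field κ] [DecidableEq V] (hTH : S_TH) (N : ℕ)
    (v0 : Fin N × Fin N) (θ : Fin N × Fin N → MvPolynomial V κ) (A : Finset V)
    (c : Fin N × Fin N → κ) (τ : MvPolynomial V κ⟦X⟧) :
    BP_pi κ V ((Th v0 (gperm κ N)).eval₂ (bh θ A c) τ) =
      (Matrix.of fun i j => if (i, j) = v0 then BP_pi κ V τ else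
        (rA κ A : MvPolynomial V κ →+* MvPolynomial V κ) (θ (i, j))).permanent := by
  rw [(hTH κ (Fin N × Fin N) v0 (gperm κ N)).2 _ (bh θ A c) τ]
  have h1 : eval₂ ((bh θ A c).comp C) (fun v => if v = v0 then τ else bh θ A c (X v))
      (gperm κ N) = (Matrix.of fun i j => if (i, j) = v0 then τ else
        bh θ A c (X (i, j))).permanent := by
    unfold gperm
    have h := CD.map_permanent' (eval₂Hom ((bh θ A c).comp C)
      (fun v => if v = v0 then τ else bh θ A c (X v)))
      (Matrix.of fun i j => (X (i, j) : MvPolynomial (Fin N × Fin N) κ))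
    simp only [Matrix.of_apply, eval₂Hom_X', coe_eval₂Hom] at h
    simpa using h
  rw [h1, CD.map_permanent' (BP_pi κ V)]
  congr 1
  ext i j
  rw [Matrix.of_apply, Matrix.of_apply, Matrix.of_apply, apply_ite (BP_pi κ V)]
  have h2 : bh θ A c (X (i, j)) = bp θ A c (i, j) := by
    unfold bh
    rw [eval₂Hom_X']
  rw [h2, BP_pi_bp]
  rfl

theorem pr_BP (hTH : S_TH) (hPL : S_PL) : S_BP := by
  intro κ _ _ N n kk v0 θ c₀ c₁ A c hyp
  set P0 := (Th v0 (gperm κ N)).coeff 0 with hP0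
  set P1 := (Th v0 (gperm κ N)).coeff 1 with hP1
  have hval : ∀ τ : MvPolynomial (VV n kk) κ⟦X⟧,
      (Th v0 (gperm κ N)).eval₂ (bh θ A c) τ = bh θ A c P1 * τ + bh θ A c P0 := by
    intro τ
    rw [hPL κ N v0, ← hP0, ← hP1, Polynomial.eval₂_add, Polynomial.eval₂_mul,
      Polynomial.eval₂_C, Polynomial.eval₂_C, Polynomial.eval₂_X]
  have hPA : (rA κ A : MvPolynomial (VV n kk) κ →+* MvPolynomial (VV n kk) κ) (PC κ n kk) =
      PA κ n kk A := (pr_PA n kk A).1 κ
  have key : ∀ τ : MvPolynomial (VV n kk) κ⟦X⟧,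
      BP_pi κ _ (bh θ A c P1) * BP_pi κ _ τ + BP_pi κ _ (bh θ A c P0) =
        C c₀ * PA κ n kk A + C c₁ * BP_pi κ _ τ := by
    intro τ
    have h1 := BP_perm hTH N v0 θ A c τ
    rw [hval τ, hyp _ (rA κ A : MvPolynomial (VV n kk) κ →+* MvPolynomial (VV n kk) κ), map_add,
      map_mul, map_mul, hPA] at h1
    rw [h1]
    have hC : ∀ a : κ, (rA κ A : MvPolynomial (VV n kk) κ →+* MvPolynomial (VV n kk) κ) (C a) =
        C a := by
      intro a
      show rA κ A (C a) = C a
      unfold rA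
      rw [aeval_C]
      rfl
    rw [hC, hC]
  have h0 : BP_pi κ _ (bh θ A c P0) = C c₀ * PA κ n kk A := by
    have h := key 0
    rw [map_zero, mul_zero, mul_zero, zero_add, add_zero] at h
    exact h
  have h1 : BP_pi κ _ (bh θ A c P1) = C c₁ := by
    have h := key 1
    rw [map_one, mul_one, mul_one, h0, add_comm] at h
    exact add_left_cancel h
  obtain ⟨R0, hR0⟩ := BP_lift (bh θ A c P0)
  obtain ⟨R1, hR1⟩ := BP_lift (bh θ A c P1)
  refine ⟨R0, R1, ?_, ?_⟩
  · rw [h0, map_mul, MvPolynomial.map_C, (pr_PA n kk A).2.2 κ κ⟦X⟧ PowerSeries.C] at hR0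
    exact hR0
  · rw [h1, MvPolynomial.map_C] at hR1
    exact hR1

end Pool.Agent.Work.MP_499dc6_lc.MU
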