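import Pool.Agent.Work.MP_499dc6_lc.MU.StmtsB

/-!
# Multiples of the permanent in bounded depth: choice of the point
-/

namespace Pool.Agent.Work.MP_499dc6_lc.MU

open MvPolynomial Finset

open scoped PowerSeries

/-- The value at a point is the constant coefficient of the translate. -/
theorem CH_eval {K σ : Type} [Field K] (x : σ → K) (F : MvPolynomial σ K) :
    constantCoeff (aeval (fun j => (X j + C (x j) : MvPolynomial σ K)) F) = eval x F := by
  have h : (constantCoeff : MvPolynomial σ K →+* K).comp
      (aeval (fun j => (X j + C (x j) : MvPolynomial σ K)) :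
        MvPolynomial σ K →ₐ[K] MvPolynomial σ K).toRingHom = eval x := by
    refine MvPolynomial.ringHom_ext (fun r => ?_) (fun v => ?_)
    · simp
    · simp
  exact congrArg (fun g : MvPolynomial σ K →+* K => g F) h

/-- An affine substitution is injective. -/
theorem CH_aff {K σ : Type} [Field K] (a : σ → K) (e : K) (he : e ≠ 0) (F : MvPolynomial σ K)
    (hF : F ≠ 0) : aeval (fun v => (C (a v) + C e * X v : MvPolynomial σ K)) F ≠ 0 := by
  intro h
  apply hF
  have h1 : (aeval (fun v => (C e⁻¹ * (X v - C (a v)) : MvPolynomial σ K)) :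
        MvPolynomial σ K →ₐ[K] MvPolynomial σ K).comp
      (aeval (fun v => (C (a v) + C e * X v : MvPolynomial σ K))) =
      AlgHom.id K (MvPolynomial σ K) := by
    refine MvPolynomial.algHom_ext fun v => ?_
    simp only [AlgHom.comp_apply, aeval_X, map_add, map_mul, AlgHom.id_apply]
    rw [MvPolynomial.algHom_C, MvPolynomial.algHom_C, MvPolynomial.algebraMap_eq, ← mul_assoc,
      ← C_mul, mul_inv_cancel₀ he, C_1, one_mul]
    ring
  have h2 := congrArg (fun g : MvPolynomial σ K →ₐ[K] MvPolynomial σ K => g F) h1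
  simp only [AlgHom.comp_apply, AlgHom.id_apply] at h2
  rw [← h2, h, map_zero]

/-- Split off the largest power of the indeterminate. -/
theorem CH_ord {κ σ : Type} [Field κ] (W : MvPolynomial σ κ⟦X⟧) (hW : W ≠ 0) :
    ∃ (n : ℕ) (V : MvPolynomial σ κ⟦X⟧), W = C (PowerSeries.X ^ n) * V ∧
      MvPolynomial.map PowerSeries.constantCoeff V ≠ 0 := by
  classical
  obtain ⟨m, hm⟩ : ∃ m, coeff m W ≠ 0 := by
    by_contra h
    push Not at h
    exact hW (MvPolynomial.ext _ _ fun m => by rw [h m, coeff_zero])
  obtain ⟨j, hj⟩ : ∃ j, PowerSeries.coeff j (coeff m W) ≠ 0 := by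
    by_contra h
    push Not at h
    exact hm (PowerSeries.ext fun j => by rw [h j, map_zero])
  have hb : ∀ n, (C (PowerSeries.X ^ n) : MvPolynomial σ κ⟦X⟧) ∣ W → n ≤ j := by
    intro n hn
    rw [C_dvd_iff_dvd_coeff] at hn
    by_contra hlt
    exact hj (PowerSeries.X_pow_dvd_iff.1 (hn m) j (by omega))
  obtain ⟨n, hn1, hn2⟩ : ∃ n, ((C (PowerSeries.X ^ n) : MvPolynomial σ κ⟦X⟧) ∣ W) ∧
      ¬ ((C (PowerSeries.X ^ (n + 1)) : MvPolynomial σ κ⟦X⟧) ∣ W) := by
    by_contra h
    push Not at h
    have h1 : ∀ n : ℕ, (C (PowerSeries.X ^ n) : MvPolynomial σ κ⟦X⟧) ∣ W := by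
      intro n
      induction n with
      | zero => rw [pow_zero, C_1]; exact one_dvd _
      | succ n ih => exact h n ih
    have := hb (j + 1) (h1 (j + 1))
    omega
  obtain ⟨V, hV⟩ := hn1
  refine ⟨n, V, hV, fun h0 => hn2 ?_⟩
  have h1 : (C PowerSeries.X : MvPolynomial σ κ⟦X⟧) ∣ V := by
    rw [C_dvd_iff_dvd_coeff]
    intro m
    rw [PowerSeries.X_dvd_iff]
    have := congrArg (coeff m) h0
    rwa [coeff_map, coeff_zero] at this
  obtain ⟨V', hV'⟩ := h1
  refine ⟨V', ?_⟩
  rw [hV, hV', pow_succ, C_mul, mul_assoc]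

/-- Values and a homomorphism of the coefficients. -/
theorem CH_hom {K K' σ : Type} [CommSemiring K] [CommSemiring K'] (f : K →+* K') (x : σ → K)
    (P : MvPolynomial σ K) : eval₂ f (fun v => f (x v)) P = f (eval x P) := by
  rw [← coe_eval₂Hom]
  have h : f.comp (eval x) = eval₂Hom f (fun v => f (x v)) := by
    refine MvPolynomial.ringHom_ext (fun r => ?_) (fun v => ?_)
    · simp
    · simp
  exact (congrArg (fun g : MvPolynomial σ K →+* K' => g P) h).symm

theorem pr_CH : S_CH := by
  intro σ κ _ _ _ a W hW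
  have hph : Function.Injective (ph κ) := IsFractionRing.injective κ⟦X⟧ (LaurentSeries κ)
  have hX0 : eps κ ≠ 0 := by
    intro h
    have h1 : ph κ PowerSeries.X = ph κ 0 := by rw [map_zero]; exact h
    exact PowerSeries.X_ne_zero (hph h1)
  let g : MvPolynomial σ κ →+* MvPolynomial σ κ⟦X⟧ := eval₂Hom (C.comp PowerSeries.C)
    (fun v => C (PowerSeries.C (a v)) + C PowerSeries.X * X v)
  have hg : MvPolynomial.map (ph κ) (g W) =
      aeval (fun v => (C (kc κ (a v)) + C (eps κ) * X v : MvPolynomial σ (LaurentSeries κ)))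
        (MvPolynomial.map (kc κ) W) := by
    have h : (MvPolynomial.map (ph κ)).comp g =
        ((aeval (fun v => (C (kc κ (a v)) + C (eps κ) * X v :
          MvPolynomial σ (LaurentSeries κ)))).toRingHom).comp (MvPolynomial.map (kc κ)) := by
      refine MvPolynomial.ringHom_ext (fun r => ?_) (fun v => ?_)
      · simp only [g, RingHom.comp_apply, coe_eval₂Hom, eval₂_C, map_C]
        simp [kc]
      · simp only [g, RingHom.comp_apply, coe_eval₂Hom, eval₂_X, map_add, map_mul, map_C, map_X]
        simp [kc, eps]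
    exact congrArg (fun f : MvPolynomial σ κ →+* MvPolynomial σ (LaurentSeries κ) => f W) h
  have hgW : g W ≠ 0 := by
    intro h
    rw [h, map_zero] at hg
    refine CH_aff (fun v => kc κ (a v)) (eps κ) hX0 (MvPolynomial.map (kc κ) W) ?_ hg.symm
    intro h1
    exact hW (MvPolynomial.map_injective (kc κ) (kc κ).injective (by rw [h1, map_zero]))
  obtain ⟨n, V, hV, hV0⟩ := CH_ord (g W) hgW
  refine ⟨n, fun M G => ?_⟩
  obtain ⟨x, hx⟩ := CD.pr_Transl σ κ (M + 1)
    (Fin.cons (MvPolynomial.map (kc κ) (MvPolynomial.map PowerSeries.constantCoeff V))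
      (fun j => aeval (fun v => (C (kc κ (a v)) + C (eps κ) * X v :
        MvPolynomial σ (LaurentSeries κ))) (G j)))
  have hx' : ∀ F : MvPolynomial σ (LaurentSeries κ),
      constantCoeff (aeval (fun j => (X j + C (algebraMap (PowerSeries κ) (LaurentSeries κ)
        (PowerSeries.C (x j))) : MvPolynomial σ (LaurentSeries κ))) F) =
        eval (fun v => kc κ (x v)) F := fun F => CH_eval (fun v => kc κ (x v)) F
  refine ⟨x, ?_, fun j hj => ?_⟩
  · have h1 := hx 0
    rw [Fin.cons_zero, hx'] at h1
    have h2 : MvPolynomial.map (kc κ) (MvPolynomial.map PowerSeries.constantCoeff V) ≠ 0 := by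
      intro h3
      exact hV0 (MvPolynomial.map_injective (kc κ) (kc κ).injective (by rw [h3, map_zero]))
    have h3 := h1 h2
    rw [MvPolynomial.eval_map] at h3
    obtain ⟨u, hu⟩ : ∃ u : κ⟦X⟧, u = eval (fun v => PowerSeries.C (x v)) V := ⟨_, rfl⟩
    have hu0 : PowerSeries.constantCoeff u ≠ 0 := by
      have h4 : PowerSeries.constantCoeff u =
          eval x (MvPolynomial.map PowerSeries.constantCoeff V) := by
        rw [hu, MvPolynomial.eval_map]
        have h9 := CH_hom (PowerSeries.constantCoeff : κ⟦X⟧ →+* κ)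
          (fun v => PowerSeries.C (x v)) V
        simp only [PowerSeries.constantCoeff_C] at h9
        exact h9.symm
      rw [h4]
      intro h5
      apply h3
      have h6 : eval₂ (kc κ) (fun v => kc κ (x v))
          (MvPolynomial.map PowerSeries.constantCoeff V) =
          kc κ (eval x (MvPolynomial.map PowerSeries.constantCoeff V)) :=
        CH_hom (kc κ) x _
      rw [h6, h5, map_zero]
    have hval : eval₂ (kc κ) (fun v => kc κ (a v) + eps κ * kc κ (x v)) W =
        ph κ (PowerSeries.X ^ n * u) := by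
      have h7 : PowerSeries.X ^ n * u = eval (fun v => PowerSeries.C (x v)) (g W) := by
        rw [hV, map_mul, eval_C, hu]
      rw [h7]
      have h : ((ph κ).comp (eval (fun v => PowerSeries.C (x v)))).comp g =
          eval₂Hom (kc κ) (fun v => kc κ (a v) + eps κ * kc κ (x v)) := by
        refine MvPolynomial.ringHom_ext (fun r => ?_) (fun v => ?_)
        · simp only [g, RingHom.comp_apply, coe_eval₂Hom, eval₂_C, eval_C]
          rfl
        · simp only [g, RingHom.comp_apply, coe_eval₂Hom, eval₂_X, map_add, map_mul, eval_C,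
            eval_X]
          rfl
      exact (congrArg (fun f : MvPolynomial σ κ →+* LaurentSeries κ => f W) h).symm
    refine ⟨u⁻¹, ?_⟩
    rw [hval, ← map_mul]
    have h8 : u⁻¹ * (PowerSeries.X ^ n * u) = PowerSeries.X ^ n := by
      have := PowerSeries.mul_inv_cancel u hu0
      linear_combination (PowerSeries.X ^ n) * this
    rw [h8, map_pow]
    rfl
  · have h1 := hx j.succ
    rw [Fin.cons_succ, hx'] at h1
    have h2 := h1 (CH_aff (fun v => kc κ (a v)) (eps κ) hX0 (G j) hj)
    have h3 : eval (fun v => kc κ (x v)) (aeval (fun v => (C (kc κ (a v)) + C (eps κ) * X v :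
        MvPolynomial σ (LaurentSeries κ))) (G j)) =
        eval (fun v => kc κ (a v) + eps κ * kc κ (x v)) (G j) := by
      have h : (eval (fun v => kc κ (x v))).comp
          ((aeval (fun v => (C (kc κ (a v)) + C (eps κ) * X v :
            MvPolynomial σ (LaurentSeries κ)))).toRingHom) =
          eval (fun v => kc κ (a v) + eps κ * kc κ (x v)) := by
        refine MvPolynomial.ringHom_ext (fun r => ?_) (fun v => ?_)
        · simp
        · simp
      exact congrArg (fun f : MvPolynomial σ (LaurentSeries κ) →+* LaurentSeries κ => f (G j)) h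
    rwa [h3] at h2

end Pool.Agent.Work.MP_499dc6_lc.MU
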