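import Pool.Agent.Work.MP_499dc6_lc.MU.StmtsB

/-!
# Block MU of MP_499dc6_lc, item CQ: change of the point
-/

namespace Pool.Agent.Work.MP_499dc6_lc.MU

open Finset

open scoped PowerSeries

section

variable {κ V : Type} [Field κ]

theorem CQ_zero (hBD : S_BD) (d : ℕ) : Bdd 0 d (0 : MvPowerSeries V (LaurentSeries κ)) := by
  have h := (hBD κ V 0 0 d 0 0 0).2.2.2.2.1
  rwa [map_zero, map_zero] at h

theorem CQ_C (hBD : S_BD) (d : ℕ) (a : κ⟦X⟧) :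
    Bdd 0 d (MvPowerSeries.C (ph κ a) : MvPowerSeries V (LaurentSeries κ)) :=
  (hBD κ V 0 0 d 0 0 a).2.2.2.2.1

theorem CQ_add (hBD : S_BD) {n d : ℕ} {f g : MvPowerSeries V (LaurentSeries κ)}
    (hf : Bdd n d f) (hg : Bdd n d g) : Bdd n d (f + g) :=
  (hBD κ V n 0 d f g 0).2.1 hf hg

theorem CQ_mul (hBD : S_BD) {n n' d : ℕ} {f g : MvPowerSeries V (LaurentSeries κ)}
    (hf : Bdd n d f) (hg : Bdd n' d g) : Bdd (n + n') d (f * g) :=
  (hBD κ V n n' d f g 0).2.2.2.1 hf hg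

theorem CQ_sum (hBD : S_BD) {ι : Type} {d : ℕ} (s : Finset ι)
    (f : ι → MvPowerSeries V (LaurentSeries κ)) (hf : ∀ i ∈ s, Bdd 0 d (f i)) :
    Bdd 0 d (∑ i ∈ s, f i) := by
  classical
  induction s using Finset.induction_on with
  | empty =>
    rw [Finset.sum_empty]
    exact CQ_zero hBD d
  | insert a s ha ih =>
    rw [Finset.sum_insert ha]
    exact CQ_add hBD (hf a (Finset.mem_insert_self _ _))
      (ih fun i hi => hf i (Finset.mem_insert_of_mem hi))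

/-- sums with integral coefficients at integral constants are integral -/
theorem CQ_lin (hBD : S_BD) {d : ℕ} (N : ℕ) (c : ℕ → MvPowerSeries V (LaurentSeries κ))
    (b : ℕ → κ⟦X⟧) (hc : ∀ j, Bdd 0 d (c j)) :
    Bdd 0 d (∑ j ∈ Finset.range N, c j * MvPowerSeries.C (ph κ (b j))) := by
  refine CQ_sum hBD (Finset.range N) (fun j => c j * MvPowerSeries.C (ph κ (b j))) ?_
  intro j _
  have h : Bdd (0 + 0) d (c j * MvPowerSeries.C (ph κ (b j))) := CQ_mul hBD (hc j) (CQ_C hBD d (b j))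
  rw [add_zero] at h
  exact h

theorem CQ_eval (q : Polynomial (MvPowerSeries V (LaurentSeries κ))) (a : κ⟦X⟧) :
    q.eval (MvPowerSeries.C (ph κ a)) =
      ∑ j ∈ Finset.range (q.natDegree + 1), q.coeff j * MvPowerSeries.C (ph κ (a ^ j)) := by
  rw [Polynomial.eval_eq_sum_range]
  refine Finset.sum_congr rfl fun j _ => ?_
  rw [map_pow, map_pow]

theorem CQ_tp (a0 : κ⟦X⟧) (z : κ) (θ : ℕ) :
    tp a0 z θ = ph κ (a0 + PowerSeries.X ^ θ * PowerSeries.C z) := by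
  unfold tp kc eps
  rw [map_add, map_mul, map_pow, RingHom.comp_apply]
  ring

theorem CQ_dvd (a0 : κ⟦X⟧) (z : κ) (θ j : ℕ) : ∃ b : κ⟦X⟧,
    (a0 + PowerSeries.X ^ θ * PowerSeries.C z) ^ j = a0 ^ j + PowerSeries.X ^ θ * b := by
  obtain ⟨b, hb⟩ := sub_dvd_pow_sub_pow (a0 + PowerSeries.X ^ θ * PowerSeries.C z) a0 j
  refine ⟨PowerSeries.C z * b, ?_⟩
  rw [add_sub_cancel_left] at hb
  rw [← mul_assoc, ← hb]
  ring

end

theorem pr_CQ (hLG : S_LG) (hBD : S_BD) (hBI : S_BI) (hOU : S_OU) (hCY : S_CY) : S_CQ := by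
  intro κ V _ n d θ q a0 z hq hO hθ
  obtain ⟨a1, ha1⟩ : ∃ a1 : κ⟦X⟧, a1 = a0 + PowerSeries.X ^ θ * PowerSeries.C z := ⟨_, rfl⟩
  have htp : tp a0 z θ = ph κ a1 := by rw [CQ_tp, ha1]
  rw [htp]
  obtain ⟨q0, hq0⟩ : ∃ q0, q0 = q.eval (MvPowerSeries.C (ph κ a0)) := ⟨_, rfl⟩
  obtain ⟨q1, hq1⟩ : ∃ q1, q1 = q.eval (MvPowerSeries.C (ph κ a1)) := ⟨_, rfl⟩
  rw [← hq0] at hO
  rw [← hq0, ← hq1]
  have hB0 : Bdd 0 d q0 := by
    rw [hq0, CQ_eval]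
    exact CQ_lin hBD _ _ _ hq
  have hB1 : Bdd 0 d q1 := by
    rw [hq1, CQ_eval]
    exact CQ_lin hBD _ _ _ hq
  choose b hb using CQ_dvd a0 z θ
  obtain ⟨g, hg⟩ : ∃ g, g = ∑ j ∈ Finset.range (q.natDegree + 1),
    q.coeff j * MvPowerSeries.C (ph κ (b j)) := ⟨_, rfl⟩
  have hBg : Bdd 0 d g := by
    rw [hg]
    exact CQ_lin hBD _ _ _ hq
  have h10 : q1 = q0 + MvPowerSeries.C (eps κ ^ θ) * g := by
    rw [hq1, hq0, hg, CQ_eval, CQ_eval, Finset.mul_sum, ← Finset.sum_add_distrib]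
    refine Finset.sum_congr rfl fun j _ => ?_
    have h3 : ph κ (PowerSeries.X ^ θ) = eps κ ^ θ := by
      rw [map_pow]
      rfl
    rw [ha1, hb j, map_add, map_add, map_mul, map_mul, h3]
    ring
  have hu0 : MvPowerSeries.constantCoeff q0 ≠ 0 := (hOU κ n 0 _ 0 0 0).1 hO
  have hinv : q0 * q0⁻¹ = 1 := MvPowerSeries.mul_inv_cancel q0 hu0
  have hBi : Bdd (n * (d + 1)) d q0⁻¹ := hBI κ V n d q0 hB0 hO
  obtain ⟨Y0, hY0⟩ : ∃ Y0, Y0 = g * q0⁻¹ := ⟨_, rfl⟩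
  have hBY : Bdd (n * (d + 1)) d Y0 := by
    have h := CQ_mul hBD hBg hBi
    rw [zero_add] at h
    rw [hY0]
    exact h
  obtain ⟨⟨a, ha⟩, hBL⟩ := hCY κ V (n * (d + 1)) d θ Y0 hBY hθ
  have hfac : q1 = q0 * (1 + MvPowerSeries.C (eps κ ^ θ) * Y0) := by
    have h2 : q0 * (1 + MvPowerSeries.C (eps κ ^ θ) * Y0) =
        q0 + MvPowerSeries.C (eps κ ^ θ) * g * (q0 * q0⁻¹) := by
      rw [hY0]
      ring
    rw [h2, hinv, mul_one, h10]
  have hO1 : Ou n (MvPowerSeries.constantCoeff q1) := by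
    rw [hfac, map_mul, ha]
    exact (hOU κ n 0 _ 0 a 0).2.2.1 hO
  have hu1 : MvPowerSeries.constantCoeff (1 + MvPowerSeries.C (eps κ ^ θ) * Y0) ≠ 0 := by
    have h2 := (hOU κ n 0 _ 0 0 0).1 hO1
    rw [hfac, map_mul] at h2
    exact right_ne_zero_of_mul h2
  refine ⟨hB1, hO1, Lm (1 + MvPowerSeries.C (eps κ ^ θ) * Y0), hBL, ?_⟩
  rw [hfac]
  exact (hLG (LaurentSeries κ) V q0 _ 0 0 hu0 hu1).1

end Pool.Agent.Work.MP_499dc6_lc.MU
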