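import Pool.Agent.Work.MP_499dc6_lc.MU.StmtsB

/-!
# Item CT of the block MU: the main term
-/

namespace Pool.Agent.Work.MP_499dc6_lc.MU

open MvPolynomial Finset

open scoped PowerSeries

section

variable {K V : Type} [Field K]

theorem CT_eu_coeff (f : MvPowerSeries V K) (m : V →₀ ℕ) :
    MvPowerSeries.coeff m (Eu f) = (m.degree : K) * MvPowerSeries.coeff m f := rfl

/-- The coefficients of degree less than `n` vanish. -/
def CT_Ord (n : ℕ) (f : MvPowerSeries V K) : Prop :=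
  ∀ m : V →₀ ℕ, m.degree < n → MvPowerSeries.coeff m f = 0

theorem CT_ord_mul {n n' : ℕ} {f g : MvPowerSeries V K} (hf : CT_Ord n f) (hg : CT_Ord n' g) :
    CT_Ord (n + n') (f * g) := by
  classical
  intro m hm
  rw [MvPowerSeries.coeff_mul]
  refine Finset.sum_eq_zero fun p hp => ?_
  rw [Finset.HasAntidiagonal.mem_antidiagonal] at hp
  have hd : p.1.degree + p.2.degree = m.degree := by rw [← hp, map_add]
  rcases Nat.lt_or_ge p.1.degree n with h | h
  · rw [hf _ h, zero_mul]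
  · rw [hg _ (by omega), mul_zero]

theorem CT_ord_zero (f : MvPowerSeries V K) : CT_Ord 0 f := fun _ hm => absurd hm (Nat.not_lt_zero _)

theorem CT_ord_one {f : MvPowerSeries V K} (hf : MvPowerSeries.constantCoeff f = 0) :
    CT_Ord 1 f := by
  intro m hm
  have h0 : m = 0 := by
    rw [← Finsupp.degree_eq_zero_iff]
    omega
  rw [h0, MvPowerSeries.coeff_zero_eq_constantCoeff_apply, hf]

theorem CT_ord_pow {f : MvPowerSeries V K} (hf : CT_Ord 1 f) (d : ℕ) : CT_Ord d (f ^ d) := by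
  induction d with
  | zero => exact CT_ord_zero _
  | succ d ih => rw [pow_succ]; exact CT_ord_mul ih hf

end

theorem pr_CT : S_CT := by
  classical
  intro K V _ d T ρ z ω hd hρ hz hω m hm
  obtain ⟨U, hU⟩ : ∃ U : MvPowerSeries V K, U = T - MvPowerSeries.C (MvPowerSeries.constantCoeff T) :=
    ⟨_, rfl⟩
  have hU0 : MvPowerSeries.constantCoeff U = 0 := by
    rw [hU, map_sub, MvPowerSeries.constantCoeff_C, sub_self]
  have hf : ∀ i, MvPowerSeries.C (MvPowerSeries.constantCoeff T + z i * ρ) - T =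
      MvPowerSeries.C (z i * ρ) - U := by
    intro i
    rw [hU, map_add]
    ring
  have hE : ∀ i, Eu (MvPowerSeries.C (z i * ρ) - U) = -Eu T := by
    intro i
    ext m'
    rw [CT_eu_coeff, map_neg, CT_eu_coeff, hU, map_sub, map_sub, MvPowerSeries.coeff_C,
      MvPowerSeries.coeff_C]
    split_ifs with h
    · rw [h]; simp
    · ring
  -- the order of the remainder
  have hrem : ∀ g : MvPowerSeries V K, MvPowerSeries.coeff m (Eu T * U ^ d * g) = 0 := by
    intro g
    have h1 : CT_Ord 1 (Eu T) := by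
      refine CT_ord_one ?_
      rw [← MvPowerSeries.coeff_zero_eq_constantCoeff_apply, CT_eu_coeff]
      simp
    have h2 := CT_ord_mul (CT_ord_mul h1 (CT_ord_pow (CT_ord_one hU0) d)) (CT_ord_zero g)
    exact h2 m (by omega)
  -- one logarithmic derivative
  have hL : ∀ i, MvPowerSeries.coeff m (Lm (MvPowerSeries.C (z i * ρ) - U)) =
      -∑ j ∈ range d, ((z i * ρ)⁻¹) ^ (j + 1) * MvPowerSeries.coeff m (Eu T * U ^ j) := by
    intro i
    have hu : z i * ρ ≠ 0 := mul_ne_zero (hz i) hρ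
    obtain ⟨f, hfd⟩ : ∃ f : MvPowerSeries V K, f = MvPowerSeries.C (z i * ρ) - U := ⟨_, rfl⟩
    have hfc : MvPowerSeries.constantCoeff f ≠ 0 := by
      rw [hfd, map_sub, MvPowerSeries.constantCoeff_C, hU0, sub_zero]
      exact hu
    have hinv := MvPowerSeries.mul_inv_cancel f hfc
    obtain ⟨w, hw⟩ : ∃ w : MvPowerSeries V K, w = MvPowerSeries.C (z i * ρ)⁻¹ := ⟨_, rfl⟩
    have hwu : w * MvPowerSeries.C (z i * ρ) = 1 := by
      rw [hw, ← map_mul, inv_mul_cancel₀ hu, map_one]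
    have hg : w * f = 1 - w * U := by rw [hfd, mul_sub, hwu]
    have hgeo := mul_neg_geom_sum (w * U) d
    rw [← hg] at hgeo
    have hfi : f⁻¹ = w * (∑ j ∈ range d, (w * U) ^ j) + (w * U) ^ d * f⁻¹ := by
      have h3 : f * (w * (∑ j ∈ range d, (w * U) ^ j)) = 1 - (w * U) ^ d := by
        rw [← hgeo]; ring
      have h4 : f⁻¹ * (f * (w * (∑ j ∈ range d, (w * U) ^ j))) = f⁻¹ * (1 - (w * U) ^ d) := by
        rw [h3]
      rw [← mul_assoc, mul_comm f⁻¹ f, hinv, one_mul] at h4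
      rw [h4]; ring
    have hLf : Lm f = -(∑ j ∈ range d, w ^ (j + 1) * (Eu T * U ^ j)) -
        Eu T * U ^ d * (w ^ d * f⁻¹) := by
      have h8 : w * ∑ j ∈ range d, (w * U) ^ j = ∑ j ∈ range d, w ^ (j + 1) * U ^ j := by
        rw [mul_sum]
        refine sum_congr rfl fun j _ => ?_
        rw [mul_pow, pow_succ]
        ring
      have h9 : ∑ j ∈ range d, w ^ (j + 1) * (Eu T * U ^ j) =
          Eu T * ∑ j ∈ range d, w ^ (j + 1) * U ^ j := by
        rw [mul_sum]
        refine sum_congr rfl fun j _ => ?_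
        ring
      unfold Lm
      rw [h9, ← h8]
      conv_lhs => rw [hfd, hE i, ← hfd, hfi, mul_pow w U d]
      ring
    rw [← hfd, hLf, map_sub, hrem, sub_zero, map_neg, map_sum]
    congr 1
    refine sum_congr rfl fun j _ => ?_
    rw [hw, ← map_pow, MvPowerSeries.coeff_C_mul]
  simp only [hf, hL]
  have h5 : ∀ i, ω i * ρ * -∑ j ∈ range d, ((z i * ρ)⁻¹) ^ (j + 1) *
      MvPowerSeries.coeff m (Eu T * U ^ j) =
      -∑ j ∈ range d, (ω i * (z i)⁻¹ ^ (j + 1)) * (ρ⁻¹ ^ j *
        MvPowerSeries.coeff m (Eu T * U ^ j)) := by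
    intro i
    rw [mul_neg, mul_sum]
    congr 1
    refine sum_congr rfl fun j _ => ?_
    rw [mul_inv, mul_pow, pow_succ ρ⁻¹ j]
    have h7 : ρ * ρ⁻¹ = 1 := mul_inv_cancel₀ hρ
    linear_combination (ω i * (z i)⁻¹ ^ (j + 1) * ρ⁻¹ ^ j *
      MvPowerSeries.coeff m (Eu T * U ^ j)) * h7
  simp only [h5]
  rw [sum_neg_distrib, sum_comm]
  congr 1
  have h6 : ∀ j ∈ range d, ∑ i, (ω i * (z i)⁻¹ ^ (j + 1)) * (ρ⁻¹ ^ j *
      MvPowerSeries.coeff m (Eu T * U ^ j)) =
      if j = 0 then (m.degree : K) * MvPowerSeries.coeff m T else 0 := by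
    intro j hj
    rw [mem_range] at hj
    rw [← sum_mul, hω (j + 1) (by omega)]
    by_cases h : j = 0
    · rw [if_pos h, if_pos (by omega), h]
      simp [CT_eu_coeff]
    · rw [if_neg h, if_neg (by omega), zero_mul]
  rw [sum_congr rfl h6, sum_ite_eq' (range d) 0]
  rw [if_pos (mem_range.2 (by omega))]

end Pool.Agent.Work.MP_499dc6_lc.MU
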