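import Pool.Agent.Work.MP_499dc6_lc.MU.StmtsB

/-!
# Multiples of the permanent in bounded depth: a series close to one
-/

namespace Pool.Agent.Work.MP_499dc6_lc.MU

open MvPolynomial Finset

open scoped PowerSeries

theorem pr_CY (hEU : S_EU) (hBD : S_BD) (hBI : S_BI) (hOU : S_OU) : S_CY := by
  intro κ V _ n d N' Y hY hN
  obtain ⟨N1, rfl⟩ : ∃ N1, N' = n + N1 + 1 := ⟨N' - n - 1, by omega⟩
  obtain ⟨f, hf⟩ : ∃ f, f = 1 + MvPowerSeries.C (eps κ ^ (n + N1 + 1)) * Y := ⟨_, rfl⟩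
  have hB := hBD κ V n (n + N1) d Y Y 0
  have hY1 : Bdd 0 d (MvPowerSeries.C (eps κ ^ (n + N1)) * Y) := hB.2.2.2.2.2.2.2.1 hY (by omega)
  have hsplit : MvPowerSeries.C (eps κ ^ (n + N1 + 1)) * Y =
      MvPowerSeries.C (ph κ PowerSeries.X) * (MvPowerSeries.C (eps κ ^ (n + N1)) * Y) := by
    rw [← mul_assoc, ← map_mul, pow_succ']
    rfl
  have hX : Bdd 0 d (MvPowerSeries.C (ph κ PowerSeries.X) : MvPowerSeries V (LaurentSeries κ)) :=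
    (hBD κ V 0 0 d Y Y PowerSeries.X).2.2.2.2.1
  have hY2 : Bdd 0 d (MvPowerSeries.C (eps κ ^ (n + N1 + 1)) * Y) := by
    rw [hsplit]
    exact (hBD κ V 0 0 d _ _ 0).2.2.2.1 hX hY1
  have hone : Bdd 0 d (1 : MvPowerSeries V (LaurentSeries κ)) := by
    have := (hBD κ V 0 0 d Y Y 1).2.2.2.2.1
    rwa [map_one, map_one] at this
  have hfB : Bdd 0 d f := by
    rw [hf]
    exact (hBD κ V 0 0 d _ _ 0).2.1 hone hY2
  obtain ⟨a, ha⟩ : ∃ a : κ⟦X⟧, MvPowerSeries.constantCoeff f = ph κ (1 + PowerSeries.X * a) := by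
    obtain ⟨b, hb⟩ := (hBD κ V 0 0 d _ Y 0).2.2.2.2.2.2.2.2 hY1 0 (by simp)
    refine ⟨b, ?_⟩
    rw [hf, hsplit, map_add, map_one, map_mul, MvPowerSeries.constantCoeff_C,
      ← MvPowerSeries.coeff_zero_eq_constantCoeff_apply (MvPowerSeries.C _ * Y), hb, map_add,
      map_one, map_mul]
  have hO1 : Ou 0 (1 : LaurentSeries κ) := ⟨1, by rw [map_one, pow_zero, mul_one]⟩
  have hO : Ou 0 (MvPowerSeries.constantCoeff f) := by
    have := (hOU κ 0 0 1 0 a 0).2.2.1 hO1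
    rwa [one_mul, ← ha] at this
  have hinv : Bdd 0 d f⁻¹ := by
    have := hBI κ V 0 d f hfB hO
    rwa [zero_mul] at this
  rw [← hf]
  refine ⟨⟨a, ha⟩, ?_⟩
  unfold Lm
  exact (hBD κ V 0 0 d _ _ 0).2.2.2.1 ((hBD κ V 0 0 d f f 0).2.2.2.2.2.2.1 hfB) hinv

end Pool.Agent.Work.MP_499dc6_lc.MU
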