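import Pool.Agent.Work.MP_499dc6_lc.MU.StmtsC

/-!
Block MU, item ET: facts on the points.
-/

namespace Pool.Agent.Work.MP_499dc6_lc.MU

open MvPolynomial Finset
open Pool.Agent.Work.MP_499dc6_lc.CD (dY dZ IsBi BB mat)
open Pool.Agent.Work.MP_499dc6_lc.D3
open Pool.Agent.Work.MP_499dc6_lc.Fib

open scoped PowerSeries

theorem ET_kind_addC {R Y Z : Type} [CommRing R] (b : Bool) (p : MvPolynomial (Y ⊕ Z) R) (a : R)
    (h : Rc_kind b p) : Rc_kind b (p + C a) := by
  unfold Rc_kind at h ⊢
  split_ifs at h ⊢ with hb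
  · obtain ⟨q, rfl⟩ := h
    exact ⟨q + C a, by rw [map_add, rename_C]⟩
  · obtain ⟨q, rfl⟩ := h
    exact ⟨q + C a, by rw [map_add, rename_C]⟩

theorem ET_kind_rA {K Y Z : Type} [Field K] [DecidableEq (Y ⊕ Z)] (A : Finset (Y ⊕ Z))
    (b : Bool) (p : MvPolynomial (Y ⊕ Z) K) (h : Rc_kind b p) : Rc_kind b (rA K A p) := by
  have h1 := Rc_kind_tr A (fun _ => (0 : K)) b p h
  have h2 : rA K A = aeval (fun w => if w ∈ A then X w + C ((fun _ => (0 : K)) w) else
      (0 : MvPolynomial (Y ⊕ Z) K)) := by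
    unfold rA
    congr 1
    funext w
    rw [C_0, add_zero]
  rw [h2]
  exact h1

theorem ET_tdm {R S V : Type} [CommRing R] [CommRing S] (φ : R →+* S) (p : MvPolynomial V R) :
    (MvPolynomial.map φ p).totalDegree ≤ p.totalDegree := by
  unfold MvPolynomial.totalDegree
  exact Finset.sup_mono (support_map_subset φ p)

theorem ET_deg {κ V : Type} [Field κ] [DecidableEq V] (A : Finset V) (p : MvPolynomial V κ)
    (hp : (∃ a, p = C a) ∨ ∃ w, p = X w) : (rA κ A p).totalDegree ≤ 1 := by
  rcases hp with ⟨a, rfl⟩ | ⟨w, rfl⟩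
  · unfold rA
    rw [← algebraMap_eq, AlgHom.commutes, algebraMap_eq, totalDegree_C]
    exact Nat.zero_le 1
  · unfold rA
    rw [aeval_X]
    split_ifs
    · exact (totalDegree_X w).le
    · rw [totalDegree_zero]
      exact Nat.zero_le 1

theorem ET_cc {κ σ V : Type} [Field κ] [DecidableEq V] (θ : σ → MvPolynomial V κ)
    (A : Finset V) (c : σ → κ) (v : σ) :
    ph κ (constantCoeff (bp θ A c v)) =
      kc κ (constantCoeff (rA κ A (θ v))) + eps κ * kc κ (c v) := by
  unfold bp
  rw [map_add, constantCoeff_map, constantCoeff_C, map_add, map_mul]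
  rfl

theorem pr_ET (hTH : S_TH) : S_ET := by
  intro κ _ N n kk v0 θ κr κc A c t hθ hkr hkc
  refine ⟨?_, ?_, ?_, ?_, ?_⟩
  · intro v
    unfold et
    split_ifs
    · rw [totalDegree_C]
      exact Nat.zero_le 1
    · refine (ET_tdm _ _).trans ?_
      unfold bp
      refine (totalDegree_add _ _).trans (max_le ?_ ?_)
      · exact (ET_tdm _ _).trans (ET_deg A (θ v) (hθ v))
      · rw [totalDegree_C]
        exact Nat.zero_le 1
  · intro v
    unfold et
    split_ifs
    · exact Rc_kind_C _ _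
    · exact Rc_kind_map _ _ _ (ET_kind_addC _ _ _ (Rc_kind_map _ _ _
        (ET_kind_rA A _ _ (hkr v))))
  · intro v
    unfold et
    split_ifs
    · exact Rc_kind_C _ _
    · exact Rc_kind_map _ _ _ (ET_kind_addC _ _ _ (Rc_kind_map _ _ _
        (ET_kind_rA A _ _ (hkc v))))
  · intro G
    set b : Fin N × Fin N → LaurentSeries κ := fun v =>
      kc κ (constantCoeff (rA κ A (θ v))) + eps κ * kc κ (c v) with hb
    rw [Polynomial.eval_map, (hTH (LaurentSeries κ) (Fin N × Fin N) v0 G).2 (LaurentSeries κ)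
      (eval b) t, map_aeval, coe_eval₂Hom]
    have h1 : (constantCoeff : MvPolynomial (VV n kk) (LaurentSeries κ) →+* _).comp
        (algebraMap (LaurentSeries κ) (MvPolynomial (VV n kk) (LaurentSeries κ))) =
        (eval b).comp C := by
      ext a
      simp
    rw [h1]
    congr 1
    funext v
    unfold et
    split_ifs
    · rw [constantCoeff_C]
    · rw [constantCoeff_map, ET_cc, eval_X]
  · intro f
    have h1 : MvPowerSeries.constantCoeff (cs κ (VV n kk) (bh θ A c f)) =
        ph κ (constantCoeff (bh θ A c f)) := by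
      unfold cs
      rw [RingHom.comp_apply]
      show MvPowerSeries.constantCoeff ((MvPolynomial.map (ph κ) (bh θ A c f) :
        MvPolynomial (VV n kk) (LaurentSeries κ)) : MvPowerSeries (VV n kk) (LaurentSeries κ)) = _
      rw [← MvPowerSeries.coeff_zero_eq_constantCoeff_apply, MvPolynomial.coeff_coe, coeff_map]
      rfl
    rw [h1]
    have h2 : ph κ (constantCoeff (bh θ A c f)) = ((ph κ).comp constantCoeff) (bh θ A c f) := rfl
    rw [h2]
    unfold bh
    rw [map_eval₂Hom, coe_eval₂Hom]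
    have h3 : ((ph κ).comp constantCoeff).comp
        ((C : κ⟦X⟧ →+* MvPolynomial (VV n kk) κ⟦X⟧).comp PowerSeries.C) = kc κ := by
      ext a
      simp [kc]
    rw [h3]
    congr 1
    funext v
    exact ET_cc θ A c v

end Pool.Agent.Work.MP_499dc6_lc.MU
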