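import Pool.Agent.Work.MP_499dc6_lc.MU.StmtsB

set_option autoImplicit false

namespace Pool.Agent.Work.MP_499dc6_lc.MU

theorem EU_coeff {K V : Type} [CommRing K] (f : MvPowerSeries V K) (m : V →₀ ℕ) :
    MvPowerSeries.coeff m (Eu f) = (m.degree : K) * MvPowerSeries.coeff m f := rfl

theorem pr_EU : S_EU := by
  intro K V _ f g a
  have hmul : ∀ f g : MvPowerSeries V K, Eu (f * g) = f * Eu g + g * Eu f := by
    intro f g
    classical
    ext m
    rw [EU_coeff, map_add, MvPowerSeries.coeff_mul, MvPowerSeries.coeff_mul, mul_comm g (Eu f),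
      MvPowerSeries.coeff_mul, Finset.mul_sum, ← Finset.sum_add_distrib]
    refine Finset.sum_congr rfl fun x hx => ?_
    rw [EU_coeff, EU_coeff, ← Finset.HasAntidiagonal.mem_antidiagonal.1 hx, map_add]
    push_cast
    ring
  have hC : Eu (MvPowerSeries.C a : MvPowerSeries V K) = 0 := by
    classical
    ext m
    rw [EU_coeff, MvPowerSeries.coeff_C, map_zero]
    split_ifs with h
    · rw [h]
      simp
    · simp
  refine ⟨hmul f g, ?_, ?_, hC⟩
  · ext m
    rw [EU_coeff, map_add, map_add, EU_coeff, EU_coeff, mul_add]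
  · rw [hmul, hC, mul_zero, add_zero]

end Pool.Agent.Work.MP_499dc6_lc.MU
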