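import Pool.Agent.Work.MP_499dc6_lc.MU.StmtsC

/-!
# Multiples of the permanent in bounded depth: item EX (one more gate)
-/

namespace Pool.Agent.Work.MP_499dc6_lc.MU

open MvPolynomial Finset
open Pool.Agent.Work.MP_499dc6_lc.CD (dY dZ IsBi BB mat)
open Pool.Agent.Work.MP_499dc6_lc.D3
open Pool.Agent.Work.MP_499dc6_lc.Fib

open scoped PowerSeries

theorem EX_sum_zero {K : Type} [Field K] {N : ℕ} :
    IsRCsum (0 : MvPolynomial (Fin N × Fin N) K) :=
  ⟨0, 0, by simp⟩

theorem EX_prod_one {K : Type} [Field K] {N : ℕ} :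
    IsRCprod (1 : MvPolynomial (Fin N × Fin N) K) :=
  ⟨1, 1, by simp⟩

theorem EX_low {s : ℕ} {d : Fin s → ℕ} {i j : Fin s} : j ∈ Low d i ↔ j < i ∧ d j < d i := by
  unfold Low
  simp

/-- basic inputs of the old circuit are basic inputs of the new one -/
theorem EX_basic {K : Type} [Field K] {N s : ℕ} (e : ℕ) (F : Fin s → MvPolynomial (Fin N × Fin N) K)
    (G : MvPolynomial (Fin N × Fin N) K) (J : Finset (Fin s)) (J' : Finset (Fin (s + 1)))
    (hJ : ∀ j ∈ J, Fin.castSucc j ∈ J') (B : MvPolynomial (Fin N × Fin N) K)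
    (hB : BasicR e F J B) :
    BasicR e (Fin.snoc F G : Fin (s + 1) → MvPolynomial (Fin N × Fin N) K) J' B := by
  rcases hB with ⟨l, U, c, hl, hU, hc, hB⟩ | ⟨U, k, hU, hk, hB⟩
  · refine Or.inl ⟨l, U, (Fin.snoc c 0 : Fin (s + 1) → K), hl, hU, ?_, ?_⟩
    · intro j
      refine Fin.lastCases ?_ (fun j' => ?_) j
      · intro h
        rw [Fin.snoc_last] at h
        exact absurd rfl h
      · intro h
        rw [Fin.snoc_castSucc] at h
        exact hJ j' (hc j' h)
    · rw [Fin.sum_univ_castSucc, Fin.snoc_last, map_zero, zero_mul, add_zero, hB]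
      congr 1
      refine Finset.sum_congr rfl (fun j _ => ?_)
      rw [Fin.snoc_castSucc, Fin.snoc_castSucc]
  · refine Or.inr ⟨U, (Fin.snoc k 0 : Fin (s + 1) → ℕ), hU, ?_, ?_⟩
    · intro j
      refine Fin.lastCases ?_ (fun j' => ?_) j
      · intro h
        rw [Fin.snoc_last] at h
        exact absurd rfl h
      · intro h
        rw [Fin.snoc_castSucc] at h
        exact hJ j' (hk j' h)
    · have e0 : (Fin.snoc k 0 : Fin (s + 1) → ℕ) (Fin.last s) = 0 := Fin.snoc_last _ _
      rw [Fin.prod_univ_castSucc, e0, pow_zero, mul_one, hB]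
      congr 1
      refine Finset.prod_congr rfl (fun j _ => ?_)
      rw [Fin.snoc_castSucc, Fin.snoc_castSucc]

theorem pr_EX : S_EX := by
  intro K _ N s h r e F d l0 U0 c hC hd hl hU i
  obtain ⟨G, hG⟩ : ∃ G : MvPolynomial (Fin N × Fin N) K, G = l0 + U0 + ∑ i, C (c i) * F i :=
    ⟨_, rfl⟩
  rw [← hG]
  refine Fin.lastCases ?_ (fun i' => ?_) i
  · -- the new gate
    refine ⟨1, fun _ => G, X 0, EX_prod_one, ?_, Or.inr ⟨?_, fun _ => Or.inl ⟨l0, U0,
      (Fin.snoc c 0 : Fin (s + 1) → K), hl, hU, ?_, ?_⟩⟩⟩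
    · rw [Fin.snoc_last, aeval_X, one_mul]
    · rw [Fin.snoc_last]
      omega
    · intro j
      refine Fin.lastCases ?_ (fun j' => ?_) j
      · intro h
        rw [Fin.snoc_last] at h
        exact absurd rfl h
      · intro _
        rw [EX_low, Fin.snoc_castSucc, Fin.snoc_last]
        have := hd j'
        exact ⟨Fin.castSucc_lt_last j', by omega⟩
    · have e0 : (Fin.snoc c 0 : Fin (s + 1) → K) (Fin.last s) = 0 := Fin.snoc_last _ _
      show G = l0 + U0 + ∑ j : Fin (s + 1), C ((Fin.snoc c 0 : Fin (s + 1) → K) j) *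
        (Fin.snoc F G : Fin (s + 1) → MvPolynomial (Fin N × Fin N) K) j
      rw [Fin.sum_univ_castSucc, e0, map_zero, zero_mul, add_zero, hG]
      congr 1
      refine Finset.sum_congr rfl (fun j _ => ?_)
      rw [Fin.snoc_castSucc, Fin.snoc_castSucc]
  · -- an old gate
    obtain ⟨U, B, Q, hU', hF, hB⟩ := hC i'
    refine ⟨U, (Fin.snoc B 0 : Fin (r + 1) → MvPolynomial (Fin N × Fin N) K),
      rename Fin.castSucc Q, hU', ?_, ?_⟩
    · rw [Fin.snoc_castSucc, aeval_rename, hF]
      congr 3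
      funext a
      show B a = (Fin.snoc B 0 : Fin (r + 1) → MvPolynomial (Fin N × Fin N) K) (Fin.castSucc a)
      rw [Fin.snoc_castSucc]
    · rcases hB with hB | ⟨h1, hB⟩
      · left
        intro a
        refine Fin.lastCases ?_ (fun a' => ?_) a
        · rw [Fin.snoc_last]
          exact Or.inl EX_sum_zero
        · rw [Fin.snoc_castSucc]
          exact hB a'
      · right
        refine ⟨?_, fun a => ?_⟩
        · rw [Fin.snoc_castSucc]
          exact h1
        · refine Fin.lastCases ?_ (fun a' => ?_) a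
          · rw [Fin.snoc_last]
            exact Or.inl ⟨0, 0, 0, by simp, EX_sum_zero, fun j hj => absurd rfl hj, by simp⟩
          · rw [Fin.snoc_castSucc]
            refine EX_basic e F G (Low d i') _ (fun j hj => ?_) (B a') (hB a')
            rw [EX_low, Fin.snoc_castSucc, Fin.snoc_castSucc]
            obtain ⟨h2, h3⟩ := EX_low.1 hj
            exact ⟨Fin.castSucc_lt_castSucc_iff.2 h2, h3⟩

end Pool.Agent.Work.MP_499dc6_lc.MU
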