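import Pool.Agent.Work.MP_499dc6_lc.MU.StmtsD

/-!
# Multiples of the permanent in bounded depth: item FK
-/

namespace Pool.Agent.Work.MP_499dc6_lc.MU

open MvPolynomial Finset
open Pool.Agent.Work.MP_499dc6_lc.CD
open Pool.Agent.Work.MP_499dc6_lc.D3
open Pool.Agent.Work.MP_499dc6_lc.Fib

open scoped PowerSeries

/-- Item FK. -/
theorem pr_FK (hIQ : S_IQ) (hNU : S_NU) : S_FK := by
  intro k _ _ N N1 s h r e F d i0 H R hF hd hH hF0 hh hN1 h3N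
  have hs1 : 1 ≤ s := lt_of_le_of_lt (Nat.zero_le _) i0.isLt
  obtain ⟨lam, hlam⟩ : ∃ lam : ℝ, lam = 32 * (Real.log s + (r + 1) * Real.log N1 + e) :=
    ⟨_, rfl⟩
  obtain ⟨lamT, hlamT⟩ : ∃ lamT : ℝ, lamT = 32 * (Real.log N1 + (r + 1) * Real.log N1 +
    (0 : ℕ)) := ⟨_, rfl⟩
  have hlN : Real.log 2 ≤ Real.log N1 := Real.log_le_log (by norm_num) (by exact_mod_cast hN1)
  have hl2 := Real.log_two_gt_d9
  have hrN : 0 ≤ (r : ℝ) * Real.log N1 := mul_nonneg (Nat.cast_nonneg r) (by linarith)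
  have he0 : (0 : ℝ) ≤ e := Nat.cast_nonneg e
  have hls : 0 ≤ Real.log s := Real.log_nonneg (by exact_mod_cast hs1)
  have hx : 0 ≤ Real.log s + (r + 1) * Real.log N1 + e := by
    have : (0 : ℝ) ≤ (r + 1) * Real.log N1 := by linarith
    linarith
  have h1lam : 1 ≤ lam := by
    rw [hlam]
    linarith
  have hlamT' : lamT = 32 * ((r + 2) * Real.log N1) := by
    rw [hlamT]
    push_cast
    ring
  have hrT : 0 ≤ ((r : ℝ) + 2) * Real.log N1 := by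
    apply mul_nonneg (by positivity)
    linarith
  have h1lamT : 1 ≤ lamT := by
    rw [hlamT']
    linarith
  obtain ⟨Λ, hΛ⟩ : ∃ Λ : ℕ, Λ = ⌈330 * lam⌉₊ := ⟨_, rfl⟩
  have hΛ4 : 4 ≤ Λ := by
    have h1 : (4 : ℝ) ≤ Λ := by
      rw [hΛ]
      exact le_trans (by linarith) (Nat.le_ceil (330 * lam))
    exact_mod_cast h1
  obtain ⟨q1, -, -, q4, q5, -, -⟩ := pr_Qs Λ hΛ4
  have key : ∀ g : ℕ, 1 ≤ g → 10 * g * qs Λ (h + 1) ≤ N1 →
      Real.log (3 / 2) / (16 * qs Λ h * qs Λ (h + 1)) * (4 * g * qs Λ (h + 1)) ≤ lamT := by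
    intro g hg hgN
    have hq : 1 ≤ qs Λ (h + 1) := q1 (h + 1) (by omega)
    have hqp : qs Λ (h + 1) < ps Λ (h + 1) := q4 (h + 1) (by omega)
    obtain ⟨-, h3q⟩ := q5 (h + 1) (by omega)
    obtain ⟨b, hb⟩ := Nat.exists_eq_add_of_lt hqp
    obtain ⟨Q, hQ⟩ : ∃ Q : ℕ, Q = qs Λ (h + 1) := ⟨_, rfl⟩
    rw [← hQ] at hq hqp h3q hb hgN ⊢
    have hb' : ps Λ (h + 1) - Q = b + 1 := by omega
    rw [hb'] at h3q
    obtain ⟨n, hn⟩ : ∃ n : ℕ, n = g * Q := ⟨_, rfl⟩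
    obtain ⟨kk, hkk⟩ : ∃ kk : ℕ, kk = g * (b + 1) := ⟨_, rfl⟩
    have hn1 : 1 ≤ n := by rw [hn]; exact Nat.mul_pos hg hq
    have hkk1 : 1 ≤ kk := by rw [hkk]; exact Nat.mul_pos hg (Nat.succ_pos b)
    have h3k : 3 * kk ≤ n := by
      rw [hkk, hn]
      calc 3 * (g * (b + 1)) = g * (3 * (b + 1)) := by ring
        _ ≤ g * Q := Nat.mul_le_mul_left g h3q
    have hnk : n + kk = g * ps Λ (h + 1) := by
      rw [hb, hn, hkk]
      ring
    have h10 : 10 * n ≤ N1 := by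
      rw [hn]
      calc 10 * (g * Q) = 10 * g * Q := by ring
        _ ≤ N1 := hgN
    have hN12 : 12 * (2 * n + kk) ≤ N := by omega
    have hle4 : 4 * g * Q ≤ 2 * (n + kk) + 2 * n := by
      calc 4 * g * Q = 4 * n := by rw [hn]; ring
        _ ≤ _ := by omega
    obtain ⟨dd, hdd⟩ : ∃ dd, dd = 2 * (n + kk) + 2 * n := ⟨_, rfl⟩
    have hddN : dd + 1 ≤ N1 := by omega
    have hm : 2 * (n + kk) + 1 ≤ N1 := by omega
    obtain ⟨P, hP⟩ : ∃ P : ℝ, P = 3 * ((dd : ℝ) + 1) ^ 2 * ((dd : ℝ) + 1) ^ (6 * r + 10) :=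
      ⟨_, rfl⟩
    have hP2 : 3 * ((dd : ℝ) + 1) ^ 2 * ((dd : ℝ) + 1) ^ (6 * r + 10) ≤ P := hP.ge
    have hP0 : 0 ≤ P := le_trans (by positivity) hP2
    obtain ⟨-, l3, l4, l5, -⟩ :=
      Rc_lam s r e N1 dd (2 * (n + kk)) lam P hs1 hN1 hddN hm hlam hP
    obtain ⟨-, -, -, -, l6⟩ :=
      Rc_lam N1 r 0 N1 dd (2 * (n + kk)) lamT P (by omega) hN1 hddN hm hlamT hP
    obtain ⟨ρ, t, hpars, hρ⟩ := mainPar lam P (s + 1) e dd h g n kk Λ h1lam hP0 hh hg hΛ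
      (by rw [hn, hQ]) hnk l3 l4 l5
    rw [hdd] at hpars hP2
    have hI := hIQ k N s h r e F d i0 H R n kk P ρ t hF hd hH hF0 hkk1 h3k hN12 hpars hP2
    have hρ0 : 0 ≤ ρ h := (hpars.pos h le_rfl).le
    rw [← hQ] at hρ
    rw [← hρ]
    have hle' : (4 * g * Q : ℝ) ≤ ((2 * (n + kk) + 2 * n : ℕ) : ℝ) := by exact_mod_cast hle4
    have hlog : Real.log ((2 * (n + kk) + 2 * n + 1 : ℕ) : ℝ) ≤ Real.log N1 := by
      apply Real.log_le_log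
      · positivity
      · exact_mod_cast (by omega : 2 * (n + kk) + 2 * n + 1 ≤ N1)
    have hfive : Real.log (1000 * ((2 * (n + kk) + 1 : ℕ) : ℝ) ^ 8) +
        Real.log ((2 * (n + kk) + 2 * n + 1 : ℕ) : ℝ) + Real.log P ≤ lamT := by
      linarith
    exact (mul_le_mul_of_nonneg_left hle' hρ0).trans (hI.trans hfive)
  have hfin := hNU lam lamT h N1 Λ h1lam h1lamT hh hΛ key
  refine hfin.trans (mul_le_mul (pow_le_pow_left₀ (by linarith) ?_ _) ?_ (by linarith) ?_)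
  · rw [hlam]
    nlinarith
  · rw [hlamT']
    nlinarith
  · positivity

end Pool.Agent.Work.MP_499dc6_lc.MU
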