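import Pool.Agent.Work.MP_499dc6_lc.MU.StmtsD

/-!
# Multiples of the permanent in bounded depth, item FL
-/

namespace Pool.Agent.Work.MP_499dc6_lc.MU

open MvPolynomial Finset
open Pool.Agent.Work.MP_499dc6_lc.CD (dY dZ IsBi BB mat)
open Pool.Agent.Work.MP_499dc6_lc.D3
open Pool.Agent.Work.MP_499dc6_lc.Fib

open scoped PowerSeries

theorem FL_small (N s r e : ℕ) (E : ℕ) (hN : 2 ≤ N) (hs : 1 ≤ s) (h5 : N ≤ 5) :
    (N : ℝ) ≤ (33000 * (Real.log s + (r + 1) * Real.log N + e)) ^ E *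
      (132000 * ((r + 1) * Real.log N)) := by
  have hN' : (2 : ℝ) ≤ N := by exact_mod_cast hN
  have hs' : (1 : ℝ) ≤ s := by exact_mod_cast hs
  have h1 : 0 ≤ Real.log s := Real.log_nonneg hs'
  have h2 : Real.log 2 ≤ Real.log N := Real.log_le_log (by norm_num) hN'
  have h3 : (0.6931471803 : ℝ) < Real.log 2 := Real.log_two_gt_d9
  have hr : (0 : ℝ) ≤ r := Nat.cast_nonneg r
  have he : (0 : ℝ) ≤ e := Nat.cast_nonneg e
  have h4 : Real.log N ≤ (r + 1) * Real.log N := by nlinarith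
  have h6 : (1 : ℝ) ≤ 33000 * (Real.log s + (r + 1) * Real.log N + e) := by nlinarith
  have h7 : (N : ℝ) ≤ 5 := by exact_mod_cast h5
  have h8 : (1 : ℝ) ≤ (33000 * (Real.log s + (r + 1) * Real.log N + e)) ^ E := one_le_pow₀ h6
  have h9 : (5 : ℝ) ≤ 132000 * ((r + 1) * Real.log N) := by nlinarith
  calc (N : ℝ) ≤ 5 := h7
    _ ≤ 132000 * ((r + 1) * Real.log N) := h9
    _ = 1 * (132000 * ((r + 1) * Real.log N)) := (one_mul _).symm
    _ ≤ (33000 * (Real.log s + (r + 1) * Real.log N + e)) ^ E *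
      (132000 * ((r + 1) * Real.log N)) := mul_le_mul_of_nonneg_right h8 (by linarith)

theorem FL_large (N N1 s r e : ℕ) (E : ℕ) (hN : 2 ≤ N) (hs : 1 ≤ s) (h1 : 2 ≤ N1)
    (h3 : 3 * N1 ≤ N) (h4 : N ≤ 4 * N1)
    (hb : (N1 : ℝ) ≤ (11000 * (Real.log ((s + 1 : ℕ) : ℝ) +
      (((r + 1 : ℕ) : ℝ) + 1) * Real.log N1 + e)) ^ E *
        (11000 * ((((r + 1 : ℕ) : ℝ) + 2) * Real.log N1))) :
    (N : ℝ) ≤ (33000 * (Real.log s + (r + 1) * Real.log N + e)) ^ E *
      (132000 * ((r + 1) * Real.log N)) := by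
  have hN' : (2 : ℝ) ≤ N := by exact_mod_cast hN
  have hs' : (1 : ℝ) ≤ s := by exact_mod_cast hs
  have hN1 : (2 : ℝ) ≤ N1 := by exact_mod_cast h1
  have hN1N : (N1 : ℝ) ≤ N := by exact_mod_cast (by omega : N1 ≤ N)
  have hr : (0 : ℝ) ≤ r := Nat.cast_nonneg r
  have he : (0 : ℝ) ≤ e := Nat.cast_nonneg e
  have l1 : 0 ≤ Real.log s := Real.log_nonneg hs'
  have l2 : Real.log 2 ≤ Real.log N := Real.log_le_log (by norm_num) hN'
  have l3 : (0.6931471803 : ℝ) < Real.log 2 := Real.log_two_gt_d9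
  have l4 : Real.log N1 ≤ Real.log N := Real.log_le_log (by linarith) hN1N
  have l5 : 0 ≤ Real.log N1 := Real.log_nonneg (by linarith)
  have l6 : Real.log ((s + 1 : ℕ) : ℝ) ≤ Real.log 2 + Real.log s := by
    rw [← Real.log_mul (by norm_num) (by linarith)]
    apply Real.log_le_log
    · push_cast
      linarith
    · push_cast
      linarith
  have l7 : 0 ≤ Real.log ((s + 1 : ℕ) : ℝ) := by
    apply Real.log_nonneg
    push_cast
    linarith
  have l8 : (((r + 1 : ℕ) : ℝ) + 1) * Real.log N1 ≤ (r + 2) * Real.log N := by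
    push_cast
    nlinarith
  have l9 : 0 ≤ (((r + 1 : ℕ) : ℝ) + 1) * Real.log N1 := by positivity
  have m8 : (((r + 1 : ℕ) : ℝ) + 2) * Real.log N1 ≤ 3 * ((r + 1) * Real.log N) := by
    push_cast
    nlinarith
  have m9 : 0 ≤ (((r + 1 : ℕ) : ℝ) + 2) * Real.log N1 := by positivity
  have hB : Real.log ((s + 1 : ℕ) : ℝ) + (((r + 1 : ℕ) : ℝ) + 1) * Real.log N1 + e ≤
      3 * (Real.log s + (r + 1) * Real.log N + e) := by nlinarith
  have hN4 : (N : ℝ) ≤ 4 * N1 := by exact_mod_cast h4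
  have hB0 : 0 ≤ Real.log ((s + 1 : ℕ) : ℝ) + (((r + 1 : ℕ) : ℝ) + 1) * Real.log N1 + e := by
    linarith
  have hp : (11000 * (Real.log ((s + 1 : ℕ) : ℝ) +
      (((r + 1 : ℕ) : ℝ) + 1) * Real.log N1 + e)) ^ E ≤
      (33000 * (Real.log s + (r + 1) * Real.log N + e)) ^ E := by
    apply pow_le_pow_left₀ (by linarith)
    linarith
  have hp0 : 0 ≤ (33000 * (Real.log s + (r + 1) * Real.log N + e)) ^ E := by
    apply pow_nonneg
    linarith
  calc (N : ℝ) ≤ 4 * N1 := hN4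
    _ ≤ 4 * ((11000 * (Real.log ((s + 1 : ℕ) : ℝ) +
      (((r + 1 : ℕ) : ℝ) + 1) * Real.log N1 + e)) ^ E *
        (11000 * ((((r + 1 : ℕ) : ℝ) + 2) * Real.log N1))) := by linarith
    _ ≤ 4 * ((33000 * (Real.log s + (r + 1) * Real.log N + e)) ^ E *
        (11000 * (3 * ((r + 1) * Real.log N)))) := by
        apply mul_le_mul_of_nonneg_left _ (by norm_num)
        apply mul_le_mul hp (by linarith) (by linarith) hp0
    _ = (33000 * (Real.log s + (r + 1) * Real.log N + e)) ^ E *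
      (132000 * ((r + 1) * Real.log N)) := by ring

theorem pr_FL (hEX : S_EX) (hFK : S_FK) : S_FL := by
  intro k _ _ N s h r e F d l0 U0 c H R hN hs hC hd hl0 hU0 hH heq
  rcases Nat.lt_or_ge (N / 3) 2 with hlt | hge
  · exact FL_small N s r e _ hN hs (by omega)
  · have hC' := hEX (LaurentSeries k) N s h r e F d l0 U0 c hC hd hl0 hU0
    have hd' : ∀ i, (Fin.snoc d (h + 1) : Fin (s + 1) → ℕ) i ≤ h + 1 := by
      intro i
      refine Fin.lastCases ?_ (fun i => ?_) i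
      · rw [Fin.snoc_last]
      · rw [Fin.snoc_castSucc]
        exact (hd i).trans (Nat.le_succ h)
    have hb := hFK k N (N / 3) (s + 1) (h + 1) (r + 1) e _ _ (Fin.last s) H R hC' hd' hH
      (by rw [Fin.snoc_last]; exact heq) (by omega) hge (by omega)
    exact FL_large N (N / 3) s r e _ hN hs hge (by omega) (by omega) hb

end Pool.Agent.Work.MP_499dc6_lc.MU
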