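import Pool.Agent.Work.MP_499dc6_lc.MU.StmtsA

/-! Item GA of block MU: the all or nothing matrix has the permanent of a sum of two terms. -/

namespace Pool.Agent.Work.MP_499dc6_lc.MU

open MvPolynomial Finset

/-- A sum over all subsets of a function of the number of elements times a weight whose sums over the
subsets with `j` elements vanish for `0 < j < card`. -/
theorem GA_sum {R α : Type} [CommRing R] [Fintype α] [DecidableEq α] (ζ : α → R)
    (F : Finset α → R) (h1 : 1 ≤ Fintype.card α)
    (hF : ∀ S S' : Finset α, S.card = S'.card → F S = F S')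
    (hz : ∀ j : ℕ, 0 < j → j < Fintype.card α → ∑ S ∈ powersetCard j univ, ∏ i ∈ S, ζ i = 0) :
    ∑ S ∈ (univ : Finset α).powerset, (∏ i ∈ S, ζ i) * F S = F ∅ + (∏ i, ζ i) * F univ := by
  classical
  rw [Finset.sum_powerset]
  have hcard : (univ : Finset α).card = Fintype.card α := Finset.card_univ
  obtain ⟨g, hg⟩ : ∃ g, Fintype.card α = g + 1 := ⟨Fintype.card α - 1, by omega⟩
  rw [hcard, hg, Finset.sum_range_succ, Finset.sum_range_succ']
  have hmid : ∑ j ∈ range g, ∑ S ∈ powersetCard (j + 1) (univ : Finset α), (∏ i ∈ S, ζ i) * F S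
      = 0 := by
    apply Finset.sum_eq_zero
    intro j hj
    rw [Finset.mem_range] at hj
    rcases (powersetCard (j + 1) (univ : Finset α)).eq_empty_or_nonempty with he | ⟨S₀, hS₀⟩
    · rw [he, Finset.sum_empty]
    · have hS₀' := (Finset.mem_powersetCard.1 hS₀).2
      have h2 : ∑ S ∈ powersetCard (j + 1) (univ : Finset α), (∏ i ∈ S, ζ i) * F S =
          ∑ S ∈ powersetCard (j + 1) (univ : Finset α), (∏ i ∈ S, ζ i) * F S₀ := by
        apply Finset.sum_congr rfl
        intro S hS
        rw [hF S S₀ (by rw [(Finset.mem_powersetCard.1 hS).2, hS₀'])]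
      rw [h2, ← Finset.sum_mul, hz (j + 1) (by omega) (by omega), zero_mul]
  rw [hmid, zero_add, Finset.powersetCard_zero, Finset.sum_singleton, Finset.prod_empty, one_mul]
  have hun : powersetCard (g + 1) (univ : Finset α) = {univ} := by
    rw [← hg, ← hcard, Finset.powersetCard_self]
  rw [hun, Finset.sum_singleton]

theorem pr_GA (hGX : S_GX) (hGS : S_GS) (hGC : S_GC) (hGD : S_GD) : S_GA := by
  intro R α β _ _ _ _ _ G s τ ζ h1 hz
  have h := GA_sum ζ (fun S => gp (BS G s τ S)) h1 (fun S S' h => hGS R α β G s τ S S' h) hz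
  rw [Finset.powerset_univ] at h
  rw [hGX R α β G s τ ζ, h, hGC R α β G s τ, hGD R α β G s τ]
  ring

end Pool.Agent.Work.MP_499dc6_lc.MU
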