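import Pool.Agent.Work.MP_499dc6_lc.MU.StmtsA

/-!
# Multiples of the permanent in bounded depth, item GC: the gadget with no marked row
-/

namespace Pool.Agent.Work.MP_499dc6_lc.MU

open MvPolynomial Finset
open Pool.Agent.Work.MP_499dc6_lc.D3
open Pool.Agent.Work.MP_499dc6_lc.Fib

open scoped PowerSeries

/-- rows `inl r` to `(r, true)`, rows `inr g` to `(σ g, false)` -/
def GC_pair {α : Type} (σ : Equiv.Perm α) : α ⊕ α ≃ α × Bool where
  toFun := Sum.elim (fun r => (r, true)) (fun g => (σ g, false))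
  invFun := fun p => if p.2 = true then Sum.inl p.1 else Sum.inr (σ.symm p.1)
  left_inv := by
    rintro (r | g)
    · simp
    · simp
  right_inv := by
    rintro ⟨a, b⟩
    cases b
    · simp
    · simp

/-- the bijection given by a pair -/
def GC_eq {α β : Type} (p : (α ≃ β) × Equiv.Perm α) : α ⊕ (α ⊕ α) ≃ β ⊕ (α × Bool) :=
  Equiv.sumCongr p.1 (GC_pair p.2)

theorem GC_eq_inl {α β : Type} (p : (α ≃ β) × Equiv.Perm α) (r : α) :
    GC_eq p (Sum.inl r) = Sum.inl (p.1 r) := rfl

theorem GC_eq_inr_inl {α β : Type} (p : (α ≃ β) × Equiv.Perm α) (r : α) :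
    GC_eq p (Sum.inr (Sum.inl r)) = Sum.inr (r, true) := rfl

theorem GC_eq_inr_inr {α β : Type} (p : (α ≃ β) × Equiv.Perm α) (g : α) :
    GC_eq p (Sum.inr (Sum.inr g)) = Sum.inr (p.2 g, false) := rfl

theorem GC_eq_injective {α β : Type} :
    Function.Injective (GC_eq : (α ≃ β) × Equiv.Perm α → (α ⊕ (α ⊕ α) ≃ β ⊕ (α × Bool))) := by
  intro p q h
  refine Prod.ext (Equiv.ext fun r => ?_) (Equiv.ext fun g => ?_)
  · have h1 := congrArg (fun e => e (Sum.inl r)) h
    simp only [GC_eq_inl] at h1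
    exact Sum.inl.inj h1
  · have h1 := congrArg (fun e => e (Sum.inr (Sum.inr g))) h
    simp only [GC_eq_inr_inr] at h1
    exact (Prod.mk.inj (Sum.inr.inj h1)).1

theorem GC_range {R α β : Type} [CommRing R] [Fintype α] [DecidableEq α] [Fintype β]
    [DecidableEq β] (G : α → β → R) (s : α ≃ β) (τ : α → R)
    (e : α ⊕ (α ⊕ α) ≃ β ⊕ (α × Bool))
    (he : ∏ r, BS G s τ ∅ r (e r) ≠ 0) : e ∈ Set.range (GC_eq (α := α) (β := β)) := by
  have hne : ∀ r, BS G s τ ∅ r (e r) ≠ 0 := by
    intro r h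
    exact he (Finset.prod_eq_zero (Finset.mem_univ r) h)
  -- gadget rows
  have h1 : ∀ g : α, ∃ a : α, e (Sum.inr (Sum.inr g)) = Sum.inr (a, false) := by
    intro g
    have h := hne (Sum.inr (Sum.inr g))
    rcases hc : e (Sum.inr (Sum.inr g)) with c | ⟨a, b⟩
    · rw [hc] at h
      exact absurd rfl h
    · rw [hc] at h
      cases b
      · exact ⟨a, rfl⟩
      · exfalso
        apply h
        simp [BS]
  choose σ hσ using h1
  have hσi : Function.Injective σ := by
    intro g g' h
    have h2 : e (Sum.inr (Sum.inr g)) = e (Sum.inr (Sum.inr g')) := by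
      rw [hσ g, hσ g', h]
    exact Sum.inr.inj (Sum.inr.inj (e.injective h2))
  have hσb : Function.Bijective σ := Finite.injective_iff_bijective.1 hσi
  -- rows of `G`
  have h2 : ∀ r : α, ∃ c : β, e (Sum.inl r) = Sum.inl c := by
    intro r
    have h := hne (Sum.inl r)
    rcases hc : e (Sum.inl r) with c | p
    · exact ⟨c, rfl⟩
    · exfalso
      rw [hc] at h
      by_cases hp : p = (r, false)
      · obtain ⟨g, hg⟩ := hσb.2 r
        have h3 : e (Sum.inl r) = e (Sum.inr (Sum.inr g)) := by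
          rw [hc, hp, hσ g, hg]
        exact absurd (e.injective h3) (by simp)
      · apply h
        simp [BS, hp]
  choose f hf using h2
  have hfi : Function.Injective f := by
    intro r r' h
    have h3 : e (Sum.inl r) = e (Sum.inl r') := by rw [hf r, hf r', h]
    exact Sum.inl.inj (e.injective h3)
  have hfb : Function.Bijective f :=
    (Fintype.bijective_iff_injective_and_card f).2 ⟨hfi, Fintype.card_congr s⟩
  -- the rows between
  have h3 : ∀ r : α, e (Sum.inr (Sum.inl r)) = Sum.inr (r, true) := by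
    intro r
    have h := hne (Sum.inr (Sum.inl r))
    rcases hc : e (Sum.inr (Sum.inl r)) with c | p
    · exfalso
      obtain ⟨r', hr'⟩ := hfb.2 c
      have h4 : e (Sum.inr (Sum.inl r)) = e (Sum.inl r') := by rw [hc, hf r', hr']
      exact absurd (e.injective h4) (by simp)
    · rw [hc] at h
      by_cases hp : p = (r, true)
      · rw [hp]
      · exact absurd (by simp [BS, hp]) h
  refine ⟨(Equiv.ofBijective f hfb, Equiv.ofBijective σ hσb), ?_⟩
  refine Equiv.ext ?_
  rintro (r | (r | g))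
  · rw [GC_eq_inl, hf r]
    rfl
  · rw [GC_eq_inr_inl, h3 r]
  · rw [GC_eq_inr_inr, hσ g]
    rfl

theorem pr_GC : S_GC := by
  intro R α β _ _ _ _ _ G s τ
  unfold gp
  have key : ∑ p : (α ≃ β) × Equiv.Perm α, ∏ r, G r (p.1 r) =
      ∑ e : α ⊕ (α ⊕ α) ≃ β ⊕ (α × Bool), ∏ r, BS G s τ ∅ r (e r) := by
    refine Fintype.sum_of_injective GC_eq GC_eq_injective _ _ ?_ ?_
    · intro e he
      by_contra hne
      exact he (GC_range G s τ e hne)
    · intro p
      rw [Fintype.prod_sum_type, Fintype.prod_sum_type]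
      have h1 : ∏ r : α, BS G s τ ∅ (Sum.inr (Sum.inl r)) (GC_eq p (Sum.inr (Sum.inl r))) = 1 := by
        refine Finset.prod_eq_one fun r _ => ?_
        rw [GC_eq_inr_inl]
        simp [BS]
      have h2 : ∏ g : α, BS G s τ ∅ (Sum.inr (Sum.inr g)) (GC_eq p (Sum.inr (Sum.inr g))) = 1 := by
        refine Finset.prod_eq_one fun g _ => ?_
        rw [GC_eq_inr_inr]
        simp [BS]
      rw [h1, h2, mul_one, mul_one]
      rfl
  rw [← key, Fintype.sum_prod_type, Finset.mul_sum]
  refine Finset.sum_congr rfl fun e _ => ?_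
  change ∑ _y : Equiv.Perm α, ∏ r, G r (e r) = _
  rw [Finset.sum_const, Finset.card_univ, Fintype.card_perm, nsmul_eq_mul]

end Pool.Agent.Work.MP_499dc6_lc.MU
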