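import Pool.Agent.Work.MP_499dc6_lc.MU.StmtsA

/-!
# Multiples of the permanent in bounded depth: the gadget with all rows marked
-/

namespace Pool.Agent.Work.MP_499dc6_lc.MU

open MvPolynomial Finset
open Pool.Agent.Work.MP_499dc6_lc.D3
open Pool.Agent.Work.MP_499dc6_lc.Fib

open scoped PowerSeries

/-- the bijection given by a permutation -/
def GD_eq {α β : Type} (s : α ≃ β) (σ : Equiv.Perm α) : α ⊕ (α ⊕ α) ≃ β ⊕ (α × Bool) where
  toFun
    | .inl r => .inr (r, false)
    | .inr (.inl r) => .inl (s r)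
    | .inr (.inr g) => .inr (σ g, true)
  invFun
    | .inl c => .inr (.inl (s.symm c))
    | .inr (a, false) => .inl a
    | .inr (a, true) => .inr (.inr (σ.symm a))
  left_inv := by
    rintro (r | (r | g)) <;> simp
  right_inv := by
    rintro (c | ⟨a, (_ | _)⟩) <;> simp

theorem GD_eq_inl {α β : Type} (s : α ≃ β) (p : Equiv.Perm α) (r : α) :
    GD_eq s p (Sum.inl r) = Sum.inr (r, false) := rfl

theorem GD_eq_inr_inl {α β : Type} (s : α ≃ β) (p : Equiv.Perm α) (r : α) :
    GD_eq s p (Sum.inr (Sum.inl r)) = Sum.inl (s r) := rfl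

theorem GD_eq_inr_inr {α β : Type} (s : α ≃ β) (p : Equiv.Perm α) (g : α) :
    GD_eq s p (Sum.inr (Sum.inr g)) = Sum.inr (p g, true) := rfl

theorem GD_eq_injective {α β : Type} (s : α ≃ β) : Function.Injective (GD_eq s) := by
  intro p q h
  refine Equiv.ext fun g => ?_
  have h1 := congrArg (fun e => e (Sum.inr (Sum.inr g))) h
  simp only [GD_eq_inr_inr] at h1
  exact (Prod.mk.inj (Sum.inr.inj h1)).1

theorem GD_range {R α β : Type} [CommRing R] [Fintype α] [DecidableEq α] [Fintype β]
    [DecidableEq β] (G : α → β → R) (s : α ≃ β) (τ : α → R)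
    (e : α ⊕ (α ⊕ α) ≃ β ⊕ (α × Bool))
    (he : ∏ r, BS G s τ univ r (e r) ≠ 0) : e ∈ Set.range (GD_eq s) := by
  have hne : ∀ r, BS G s τ univ r (e r) ≠ 0 := by
    intro r h
    exact he (Finset.prod_eq_zero (Finset.mem_univ r) h)
  -- gadget rows
  have h1 : ∀ g : α, ∃ a : α, e (Sum.inr (Sum.inr g)) = Sum.inr (a, true) := by
    intro g
    have h := hne (Sum.inr (Sum.inr g))
    rcases hc : e (Sum.inr (Sum.inr g)) with c | ⟨a, b⟩
    · rw [hc] at h
      exact absurd rfl h
    · rw [hc] at h
      cases b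
      · exfalso
        apply h
        simp [BS]
      · exact ⟨a, rfl⟩
  choose σ hσ using h1
  have hσi : Function.Injective σ := by
    intro g g' h
    have h2 : e (Sum.inr (Sum.inr g)) = e (Sum.inr (Sum.inr g')) := by
      rw [hσ g, hσ g', h]
    exact Sum.inr.inj (Sum.inr.inj (e.injective h2))
  have hσb : Function.Bijective σ := Finite.injective_iff_bijective.1 hσi
  -- the rows between
  have h2 : ∀ r : α, e (Sum.inr (Sum.inl r)) = Sum.inl (s r) := by
    intro r
    have h := hne (Sum.inr (Sum.inl r))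
    rcases hc : e (Sum.inr (Sum.inl r)) with c | p
    · rw [hc] at h
      by_cases hp : c = s r
      · rw [hp]
      · exact absurd (by simp [BS, hp]) h
    · exfalso
      rw [hc] at h
      by_cases hp : p = (r, true)
      · obtain ⟨g, hg⟩ := hσb.2 r
        have h3 : e (Sum.inr (Sum.inl r)) = e (Sum.inr (Sum.inr g)) := by
          rw [hc, hp, hσ g, hg]
        exact absurd (e.injective h3) (by simp)
      · apply h
        simp [BS, hp]
  -- the rows of `G`
  have h3 : ∀ r : α, e (Sum.inl r) = Sum.inr (r, false) := by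
    intro r
    have h := hne (Sum.inl r)
    rcases hc : e (Sum.inl r) with c | p
    · exfalso
      have h4 : e (Sum.inl r) = e (Sum.inr (Sum.inl (s.symm c))) := by
        rw [hc, h2, Equiv.apply_symm_apply]
      exact absurd (e.injective h4) (by simp)
    · rw [hc] at h
      by_cases hp : p = (r, false)
      · rw [hp]
      · exact absurd (by simp [BS, hp]) h
  refine ⟨Equiv.ofBijective σ hσb, ?_⟩
  refine Equiv.ext ?_
  rintro (r | (r | g))
  · rw [GD_eq_inl, h3 r]
  · rw [GD_eq_inr_inl, h2 r]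
  · rw [GD_eq_inr_inr, hσ g]
    rfl

theorem pr_GD : S_GD := by
  intro R α β _ _ _ _ _ G s τ
  unfold gp
  have key : ∑ _p : Equiv.Perm α, ∏ r, τ r =
      ∑ e : α ⊕ (α ⊕ α) ≃ β ⊕ (α × Bool), ∏ r, BS G s τ univ r (e r) := by
    refine Fintype.sum_of_injective (GD_eq s) (GD_eq_injective s) _ _ ?_ ?_
    · intro e he
      by_contra hne
      exact he (GD_range G s τ e hne)
    · intro p
      rw [Fintype.prod_sum_type, Fintype.prod_sum_type]
      have h1 : ∏ r : α, BS G s τ univ (Sum.inr (Sum.inl r))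
          (GD_eq s p (Sum.inr (Sum.inl r))) = 1 := by
        refine Finset.prod_eq_one fun r _ => ?_
        rw [GD_eq_inr_inl]
        simp [BS]
      have h2 : ∏ g : α, BS G s τ univ (Sum.inr (Sum.inr g))
          (GD_eq s p (Sum.inr (Sum.inr g))) = 1 := by
        refine Finset.prod_eq_one fun g _ => ?_
        rw [GD_eq_inr_inr]
        simp [BS]
      rw [h1, h2, mul_one, mul_one]
      refine Finset.prod_congr rfl fun r _ => ?_
      rw [GD_eq_inl]
      simp [BS]
  rw [← key, Finset.sum_const, Finset.card_univ, Fintype.card_perm, nsmul_eq_mul]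

end Pool.Agent.Work.MP_499dc6_lc.MU
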