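import Pool.Agent.Work.MP_499dc6_lc.MU.StmtsA

/-!
# MP_499dc6_lc, block MU, item GS: the permanent of `BS` depends only on the size of `S`
-/

namespace Pool.Agent.Work.MP_499dc6_lc.MU

open MvPolynomial Finset

/-- A permutation which maps `S` onto `S'`. -/
theorem GS_perm {α : Type} [Fintype α] [DecidableEq α] (S S' : Finset α)
    (h : S.card = S'.card) : ∃ π : Equiv.Perm α, ∀ g, (g ∈ S ↔ π g ∈ S') := by
  have e : {x // x ∈ S} ≃ {x // x ∈ S'} := Finset.equivOfCardEq h
  refine ⟨e.extendSubtype, fun g => ?_⟩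
  constructor
  · intro hg
    exact e.extendSubtype_mem g hg
  · intro hg
    by_contra hn
    exact e.extendSubtype_not_mem g hn hg

theorem GS_entry {R α β : Type} [CommRing R] [DecidableEq α] [DecidableEq β] (G : α → β → R)
    (s : α ≃ β) (τ : α → R) (S S' : Finset α) (π : Equiv.Perm α)
    (hπ : ∀ g, (g ∈ S ↔ π g ∈ S')) (r : α ⊕ (α ⊕ α)) (c : β ⊕ (α × Bool)) :
    BS G s τ S' ((Equiv.sumCongr (Equiv.refl α) (Equiv.sumCongr (Equiv.refl α) π)) r) c =
      BS G s τ S r c := by
  rcases r with r | r | g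
  · rcases c with c | p <;> rfl
  · rcases c with c | p <;> rfl
  · rcases c with c | p
    · rfl
    · have h1 : decide (π g ∈ S') = decide (g ∈ S) := by
        rw [decide_eq_decide]
        exact (hπ g).symm
      change (if p.2 = decide (π g ∈ S') then (1 : R) else 0) =
        if p.2 = decide (g ∈ S) then 1 else 0
      rw [h1]

theorem pr_GS : S_GS := by
  intro R α β _ _ _ _ _ G s τ S S' hc
  obtain ⟨π, hπ⟩ := GS_perm S S' hc
  unfold gp
  let P : Equiv.Perm (α ⊕ (α ⊕ α)) :=
    Equiv.sumCongr (Equiv.refl α) (Equiv.sumCongr (Equiv.refl α) π)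
  refine Fintype.sum_equiv (Equiv.equivCongr P (Equiv.refl (β ⊕ (α × Bool)))) _ _ fun e => ?_
  refine Fintype.prod_equiv P _ _ fun r => ?_
  have h1 : (Equiv.equivCongr P (Equiv.refl (β ⊕ (α × Bool))) e) (P r) = e r := by
    simp [Equiv.equivCongr]
  rw [h1]
  exact (GS_entry G s τ S S' π hπ r (e r)).symm

end Pool.Agent.Work.MP_499dc6_lc.MU
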