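import Pool.Agent.Work.MP_499dc6_lc.MU.StmtsB

/-!
# Multiples of the permanent in bounded depth: item LG (rules for `Lm`)
-/

namespace Pool.Agent.Work.MP_499dc6_lc.MU

open MvPolynomial Finset

open scoped PowerSeries

theorem LG_mul (hEU : S_EU) (K V : Type) [Field K] (f g : MvPowerSeries V K)
    (hf : MvPowerSeries.constantCoeff f ≠ 0) (hg : MvPowerSeries.constantCoeff g ≠ 0) :
    Lm (f * g) = Lm f + Lm g := by
  have h1 : f * f⁻¹ = 1 := MvPowerSeries.mul_inv_cancel f hf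
  have h2 : g * g⁻¹ = 1 := MvPowerSeries.mul_inv_cancel g hg
  have h3 := (hEU K V f g 0).1
  unfold Lm
  rw [h3, MvPowerSeries.mul_inv_rev]
  calc (f * Eu g + g * Eu f) * (g⁻¹ * f⁻¹)
      = (f * f⁻¹) * (Eu g * g⁻¹) + (g * g⁻¹) * (Eu f * f⁻¹) := by ring
    _ = Eu f * f⁻¹ + Eu g * g⁻¹ := by rw [h1, h2]; ring

theorem LG_one (hEU : S_EU) (K V : Type) [Field K] : Lm (1 : MvPowerSeries V K) = 0 := by
  have h := (hEU K V 0 0 1).2.2.2
  rw [map_one] at h
  unfold Lm
  rw [h, zero_mul]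

theorem pr_LG (hEU : S_EU) : S_LG := by
  intro K V _ f g L n hf hg
  refine ⟨LG_mul hEU K V f g hf hg, ?_, ?_⟩
  · induction n with
    | zero =>
      rw [pow_zero, LG_one hEU, Nat.cast_zero, zero_mul]
    | succ k ih =>
      have hk : MvPowerSeries.constantCoeff (f ^ k) ≠ 0 := by
        rw [map_pow]
        exact pow_ne_zero k hf
      rw [pow_succ, LG_mul hEU K V (f ^ k) f hk hf, ih]
      push_cast
      ring
  · intro h
    have h1 : f * f⁻¹ = 1 := MvPowerSeries.mul_inv_cancel f hf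
    unfold Lm
    rw [← h, mul_assoc, h1, mul_one]

end Pool.Agent.Work.MP_499dc6_lc.MU
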