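import Pool.Agent.Work.MP_499dc6_lc.MU.StmtsC

/-!
# Multiples of the permanent in bounded depth: item LU

Uniqueness of the logarithmic derivative.
-/

set_option autoImplicit false

namespace Pool.Agent.Work.MP_499dc6_lc.MU

open MvPolynomial Finset
open Pool.Agent.Work.MP_499dc6_lc.CD (dY dZ IsBi)
open Pool.Agent.Work.MP_499dc6_lc.D3
open Pool.Agent.Work.MP_499dc6_lc.Fib

theorem LU_dY_add {Y Z : Type} [Fintype Y] [Fintype Z] (a b : Y ⊕ Z →₀ ℕ) :
    dY (a + b) = dY a + dY b := by
  simp [dY, Finset.sum_add_distrib]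

theorem LU_dZ_add {Y Z : Type} [Fintype Y] [Fintype Z] (a b : Y ⊕ Z →₀ ℕ) :
    dZ (a + b) = dZ a + dZ b := by
  simp [dZ, Finset.sum_add_distrib]

theorem LU_deg {Y Z : Type} [Fintype Y] [Fintype Z] (m : Y ⊕ Z →₀ ℕ) :
    m.degree = dY m + dZ m := by
  rw [Finsupp.degree_eq_sum, Fintype.sum_sum_type]
  rfl

theorem LU_coeff_bc {Y Z K : Type} [Fintype Y] [Fintype Z] [Field K] (u v : ℕ)
    (f : MvPolynomial (Y ⊕ Z) K) (m : Y ⊕ Z →₀ ℕ) :
    coeff m (bc u v f) = if dY m = u ∧ dZ m = v then coeff m f else 0 := by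
  classical
  unfold bc
  rw [coeff_sum]
  simp only [coeff_monomial]
  rw [Finset.sum_ite_eq' (Finset.filter (fun m => dY m = u ∧ dZ m = v) f.support) m
    (fun b => coeff b f)]
  by_cases h : dY m = u ∧ dZ m = v
  · by_cases h2 : coeff m f = 0
    · simp [h2]
    · have : m ∈ Finset.filter (fun m => dY m = u ∧ dZ m = v) f.support := by
        simp [h, h2]
      rw [if_pos this, if_pos h]
  · have : ¬ m ∈ Finset.filter (fun m => dY m = u ∧ dZ m = v) f.support := by
      simp only [Finset.mem_filter, not_and]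
      intro _ h3
      exact fun h4 => h ⟨h3, h4⟩
    rw [if_neg this, if_neg h]

/-- The coefficients of the relation. -/
theorem LU_rel {Y Z K : Type} [Fintype Y] [Fintype Z] [Field K] (dd : ℕ)
    (V : MvPolynomial (Y ⊕ Z) K) (w : ℕ → ℕ → MvPolynomial (Y ⊕ Z) K) (h : LD dd V w)
    [DecidableEq (Y ⊕ Z)]
    (m : Y ⊕ Z →₀ ℕ) (hm : dY m + dZ m ≤ dd) :
    (m.degree : K) * coeff m V =
      ∑ x ∈ HasAntidiagonal.antidiagonal m, coeff x.1 (w (dY x.1) (dZ x.1)) * coeff x.2 V := by
  have h1 := congrArg (coeff m) (h.2.2 (dY m) (dZ m) hm)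
  have h2 : coeff m (((dY m + dZ m : ℕ) : MvPolynomial (Y ⊕ Z) K) * bc (dY m) (dZ m) V) =
      (m.degree : K) * coeff m V := by
    rw [← map_natCast (C : K →+* MvPolynomial (Y ⊕ Z) K), coeff_C_mul, LU_coeff_bc,
      if_pos ⟨rfl, rfl⟩, LU_deg]
  rw [h2] at h1
  rw [h1, coeff_sum]
  simp only [coeff_sum, coeff_mul]
  have h3 : ∀ p ∈ HasAntidiagonal.antidiagonal (dY m),
      ∑ q ∈ HasAntidiagonal.antidiagonal (dZ m), ∑ x ∈ HasAntidiagonal.antidiagonal m,
        coeff x.1 (w p.1 q.1) * coeff x.2 (bc p.2 q.2 V) =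
      ∑ x ∈ HasAntidiagonal.antidiagonal m, ∑ q ∈ HasAntidiagonal.antidiagonal (dZ m),
        coeff x.1 (w p.1 q.1) * coeff x.2 (bc p.2 q.2 V) := by
    intro p _
    rw [Finset.sum_comm]
  rw [Finset.sum_congr rfl h3, Finset.sum_comm]
  refine Finset.sum_congr rfl ?_
  intro x hx
  have hx' : x.1 + x.2 = m := HasAntidiagonal.mem_antidiagonal.1 hx
  have hz : ∀ p q : ℕ × ℕ, ¬ (dY x.1 = p.1 ∧ dZ x.1 = q.1) →
      coeff x.1 (w p.1 q.1) * coeff x.2 (bc p.2 q.2 V) = 0 := by
    intro p q hpq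
    have : coeff x.1 (w p.1 q.1) = 0 := by
      by_contra h0
      exact hpq (h.2.1 p.1 q.1 x.1 h0)
    rw [this, zero_mul]
  rw [Finset.sum_eq_single (dY x.1, dY x.2)]
  · rw [Finset.sum_eq_single (dZ x.1, dZ x.2)]
    · rw [LU_coeff_bc, if_pos ⟨rfl, rfl⟩]
    · intro q hq hne
      refine hz _ _ ?_
      rintro ⟨-, h5⟩
      apply hne
      have h6 := HasAntidiagonal.mem_antidiagonal.1 hq
      rw [← hx', LU_dZ_add] at h6
      ext
      · exact h5.symm
      · simp only at h5 ⊢
        omega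
    · intro hn
      exfalso
      apply hn
      rw [HasAntidiagonal.mem_antidiagonal, ← hx', LU_dZ_add]
  · intro p hp hne
    refine Finset.sum_eq_zero ?_
    intro q _
    refine hz _ _ ?_
    rintro ⟨h5, -⟩
    apply hne
    have h6 := HasAntidiagonal.mem_antidiagonal.1 hp
    rw [← hx', LU_dY_add] at h6
    ext
    · exact h5.symm
    · simp only at h5 ⊢
      omega
  · intro hn
    exfalso
    apply hn
    rw [HasAntidiagonal.mem_antidiagonal, ← hx', LU_dY_add]

/-- The relation for the power series. -/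
theorem LU_Lm {σ K : Type} [Field K] (V : MvPolynomial σ K) [DecidableEq σ]
    (hV : constantCoeff V ≠ 0) (m : σ →₀ ℕ) :
    (m.degree : K) * coeff m V =
      ∑ x ∈ HasAntidiagonal.antidiagonal m,
        MvPowerSeries.coeff x.1 (Lm (V : MvPowerSeries σ K)) * coeff x.2 V := by
  have h0 : MvPowerSeries.constantCoeff (V : MvPowerSeries σ K) ≠ 0 := by
    rw [← MvPowerSeries.coeff_zero_eq_constantCoeff_apply, MvPolynomial.coeff_coe]
    exact hV
  have h1 : Lm (V : MvPowerSeries σ K) * (V : MvPowerSeries σ K) =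
      Eu (V : MvPowerSeries σ K) := by
    unfold Lm
    rw [mul_assoc, MvPowerSeries.inv_mul_cancel _ h0, mul_one]
  have h2 := congrArg (MvPowerSeries.coeff m) h1
  rw [MvPowerSeries.coeff_mul] at h2
  simp only [MvPolynomial.coeff_coe] at h2
  rw [h2]
  show _ = (m.degree : K) * MvPowerSeries.coeff m (V : MvPowerSeries σ K)
  rw [MvPolynomial.coeff_coe]

/-- [LU] Uniqueness of the logarithmic derivative. -/
theorem pr_LU : S_LU := by
  classical
  intro Y Z K _ _ _ _ dd V w hLD hV m
  have main : ∀ n : ℕ, ∀ m : Y ⊕ Z →₀ ℕ, m.degree = n → dY m + dZ m ≤ dd →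
      coeff m (w (dY m) (dZ m)) =
        MvPowerSeries.coeff m (Lm (V : MvPowerSeries (Y ⊕ Z) K)) := by
    intro n
    induction n using Nat.strong_induction_on with
    | _ n ih =>
      intro m hmn hm
      have e1 := LU_rel dd V w hLD m hm
      rw [LU_Lm V hV m] at e1
      have hmem : (m, (0 : Y ⊕ Z →₀ ℕ)) ∈ HasAntidiagonal.antidiagonal m := by
        rw [HasAntidiagonal.mem_antidiagonal, add_zero]
      rw [← Finset.add_sum_erase _ _ hmem, ← Finset.add_sum_erase _ _ hmem] at e1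
      have e2 : ∑ x ∈ (HasAntidiagonal.antidiagonal m).erase (m, 0),
          MvPowerSeries.coeff x.1 (Lm (V : MvPowerSeries (Y ⊕ Z) K)) * coeff x.2 V =
          ∑ x ∈ (HasAntidiagonal.antidiagonal m).erase (m, 0),
            coeff x.1 (w (dY x.1) (dZ x.1)) * coeff x.2 V := by
        refine Finset.sum_congr rfl ?_
        intro x hx
        rw [Finset.mem_erase, HasAntidiagonal.mem_antidiagonal] at hx
        have hd : x.1.degree + x.2.degree = n := by
          rw [← map_add, hx.2, hmn]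
        have h2 : x.2.degree ≠ 0 := by
          intro h0
          have h3 : x.2 = 0 := (Finsupp.degree_eq_zero_iff _).1 h0
          apply hx.1
          have h4 : x.1 = m := by
            have := hx.2
            rwa [h3, add_zero] at this
          exact Prod.ext h4 h3
        have hlt : x.1.degree < n := by omega
        have hle : dY x.1 + dZ x.1 ≤ dd := by
          rw [← LU_deg]
          rw [← LU_deg] at hm
          omega
        rw [ih _ hlt x.1 rfl hle]
      rw [e2] at e1
      have e3 := add_right_cancel e1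
      have hV' : coeff (0 : Y ⊕ Z →₀ ℕ) V ≠ 0 := hV
      exact (mul_right_cancel₀ hV' e3).symm
  exact main _ m rfl

end Pool.Agent.Work.MP_499dc6_lc.MU
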