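import Pool.Agent.Work.MP_499dc6_lc.MU.StmtsB

/-!
# Multiples of the permanent in bounded depth: item MC (helper6)
-/

namespace Pool.Agent.Work.MP_499dc6_lc.MU

open MvPolynomial Finset

open scoped PowerSeries

theorem MC_coeff_nat {K V : Type} [Field K] (μ : ℕ) (g : MvPowerSeries V K) (m : V →₀ ℕ) :
    MvPowerSeries.coeff m ((μ : MvPowerSeries V K) * g) = (μ : K) * MvPowerSeries.coeff m g := by
  have h : (μ : MvPowerSeries V K) = MvPowerSeries.C (μ : K) := by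
    rw [map_natCast]
  rw [h, MvPowerSeries.coeff_C_mul]

theorem MC_tp {κ : Type} [Field κ] (a0 : κ⟦X⟧) (z : κ) (θ : ℕ) :
    tp a0 z θ = ph κ (a0 + PowerSeries.C z * PowerSeries.X ^ θ) := by
  rw [map_add, map_mul, map_pow]
  rfl

theorem MC_eps_ne {κ : Type} [Field κ] (hOU : S_OU) : eps κ ≠ 0 := by
  have h := hOU κ 1 0 (eps κ) 0 0 1
  exact h.1 ⟨1, by rw [map_one, one_mul, pow_one]⟩

theorem pr_MC (hLG : S_LG) (hBD : S_BD) (hBI : S_BI) (hOU : S_OU) (hCT : S_CT) (hCY : S_CY)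
    (hCQ : S_CQ) : S_MC := by
  intro κ V _ _ d μ n θ N' T P D q a0 z ω Rr Φ hd hθ hN' hT hT0 hP hP0 hD hD0 hq hq0 hz hω hRr hΦ
  have heps : eps κ ≠ 0 := MC_eps_ne hOU
  -- notation
  set t : Fin (d + 1) → LaurentSeries κ := fun i => tp a0 (z i) θ with ht
  set f : Fin (d + 1) → MvPowerSeries V (LaurentSeries κ) :=
    fun i => MvPowerSeries.C (t i) - T with hf
  set Q : Fin (d + 1) → MvPowerSeries V (LaurentSeries κ) :=
    fun i => q.eval (MvPowerSeries.C (t i)) with hQ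
  -- constant coefficients
  have hPc : MvPowerSeries.constantCoeff P ≠ 0 := (hOU κ 0 0 _ 0 0 1).1 hP0
  have hkz : ∀ i, kc κ (z i) ≠ 0 := fun i => by
    have := (kc κ).injective.ne (hz i)
    rwa [map_zero] at this
  have hfc : ∀ i, MvPowerSeries.constantCoeff (f i) = kc κ (z i) * eps κ ^ θ := by
    intro i
    simp only [hf, ht]
    rw [map_sub, hT0, MvPowerSeries.constantCoeff_C, tp]
    ring
  have hfne : ∀ i, MvPowerSeries.constantCoeff (f i) ≠ 0 := fun i => by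
    rw [hfc]
    exact mul_ne_zero (hkz i) (pow_ne_zero _ heps)
  have hfOu : ∀ i, Ou θ (MvPowerSeries.constantCoeff (f i)) := fun i => by
    rw [hfc]
    exact (hOU κ θ 0 0 0 0 (z i)).2.2.2.1 (hz i)
  have hfB : ∀ i, Bdd 0 d (f i) := by
    intro i
    have h1 : Bdd 0 d (MvPowerSeries.C (t i) : MvPowerSeries V (LaurentSeries κ)) := by
      simp only [ht]
      rw [MC_tp]
      exact (hBD κ V 0 0 d 0 0 _).2.2.2.2.1
    have h2 : Bdd 0 d (-T) := (hBD κ V 0 0 d T 0 0).2.2.1 hT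
    have h3 := (hBD κ V 0 0 d (MvPowerSeries.C (t i)) (-T) 0).2.1 h1 h2
    simp only [hf]
    rwa [sub_eq_add_neg]
  have hQall := fun i => hCQ κ V n d θ q a0 (z i) hq hq0 hθ
  have hQB : ∀ i, Bdd 0 d (Q i) := fun i => (hQall i).1
  have hQOu : ∀ i, Ou n (MvPowerSeries.constantCoeff (Q i)) := fun i => (hQall i).2.1
  have hQne : ∀ i, MvPowerSeries.constantCoeff (Q i) ≠ 0 := fun i =>
    (hOU κ n 0 _ 0 0 1).1 (hQOu i)
  choose Y' hY'B hY'L using fun i => (hQall i).2.2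
  -- inverses
  have hPi : Bdd 0 d P⁻¹ := by
    have := hBI κ V 0 d P hP hP0
    rwa [zero_mul] at this
  have hfi : ∀ i, Bdd (θ * (d + 1)) d (f i)⁻¹ := fun i => hBI κ V θ d (f i) (hfB i) (hfOu i)
  have hQi : ∀ i, Bdd (n * (d + 1)) d (Q i)⁻¹ := fun i => hBI κ V n d (Q i) (hQB i) (hQOu i)
  set Y : Fin (d + 1) → MvPowerSeries V (LaurentSeries κ) :=
    fun i => D * Rr i * (P⁻¹ * (f i)⁻¹) ^ μ * (Q i)⁻¹ with hY
  have hYB : ∀ i, Bdd (μ * (θ * (d + 1)) + n * (d + 1)) d (Y i) := by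
    intro i
    have h1 : Bdd (0 + 0) d (D * Rr i) := (hBD κ V 0 0 d D (Rr i) 0).2.2.2.1 hD (hRr i)
    have h2 : Bdd (0 + θ * (d + 1)) d (P⁻¹ * (f i)⁻¹) :=
      (hBD κ V 0 (θ * (d + 1)) d P⁻¹ (f i)⁻¹ 0).2.2.2.1 hPi (hfi i)
    have h3 : Bdd (μ * (0 + θ * (d + 1))) d ((P⁻¹ * (f i)⁻¹) ^ μ) :=
      (hBD κ V (0 + θ * (d + 1)) μ d _ 0 0).2.2.2.2.2.1 h2
    have h4 := (hBD κ V _ _ d _ _ 0).2.2.2.1 h1 h3
    have h5 := (hBD κ V _ _ d _ _ 0).2.2.2.1 h4 (hQi i)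
    have h6 : 0 + 0 + μ * (0 + θ * (d + 1)) + n * (d + 1) = μ * (θ * (d + 1)) + n * (d + 1) := by
      ring
    rw [h6] at h5
    exact h5
  have hCYall := fun i => hCY κ V _ d N' (Y i) (hYB i) hN'
  -- factorisation
  have hfact : ∀ i, D * Φ i =
      ((P * f i) ^ μ * Q i) * (1 + MvPowerSeries.C (eps κ ^ N') * Y i) := by
    intro i
    have h1 := MvPowerSeries.mul_inv_cancel P hPc
    have h2 := MvPowerSeries.mul_inv_cancel (f i) (hfne i)
    have h3 := MvPowerSeries.mul_inv_cancel (Q i) (hQne i)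
    have h4 : ((P * f i) ^ μ * Q i) * Y i = D * Rr i := by
      have h5 : ((P * f i) ^ μ * Q i) * Y i =
          D * Rr i * ((P * P⁻¹) * (f i * (f i)⁻¹)) ^ μ * (Q i * (Q i)⁻¹) := by
        simp only [hY, mul_pow]
        ring
      rw [h5, h1, h2, h3]
      simp
    have h6 : ((P * f i) ^ μ * Q i) * (1 + MvPowerSeries.C (eps κ ^ N') * Y i) =
        (P * f i) ^ μ * Q i + MvPowerSeries.C (eps κ ^ N') * (((P * f i) ^ μ * Q i) * Y i) := by
      ring
    rw [h6, h4]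
    exact hΦ i
  have hone : ∀ i, MvPowerSeries.constantCoeff (1 + MvPowerSeries.C (eps κ ^ N') * Y i) ≠ 0 := by
    intro i
    obtain ⟨a, ha⟩ := (hCYall i).1
    rw [ha]
    have h1 : Ou 0 (1 : LaurentSeries κ) := ⟨1, by rw [map_one, one_mul, pow_zero]⟩
    have h2 := (hOU κ 0 0 1 0 a 1).2.2.1 h1
    rw [one_mul] at h2
    exact (hOU κ 0 0 _ 0 0 1).1 h2
  have hPf : ∀ i, MvPowerSeries.constantCoeff (P * f i) ≠ 0 := fun i => by
    rw [map_mul]
    exact mul_ne_zero hPc (hfne i)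
  have hPfμ : ∀ i, MvPowerSeries.constantCoeff ((P * f i) ^ μ) ≠ 0 := fun i => by
    rw [map_pow]
    exact pow_ne_zero _ (hPf i)
  have hPQ : ∀ i, MvPowerSeries.constantCoeff ((P * f i) ^ μ * Q i) ≠ 0 := fun i => by
    rw [map_mul]
    exact mul_ne_zero (hPfμ i) (hQne i)
  have hΦ0 : ∀ i, MvPowerSeries.constantCoeff (Φ i) ≠ 0 := by
    intro i h0
    have h1 := congrArg MvPowerSeries.constantCoeff (hfact i)
    rw [map_mul, h0, mul_zero, map_mul] at h1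
    exact mul_ne_zero (hPQ i) (hone i) h1.symm
  refine ⟨hΦ0, ?_⟩
  intro m hm
  -- logarithmic derivatives
  have hL : ∀ i, Lm (Φ i) = ((μ : MvPowerSeries V (LaurentSeries κ)) * Lm P +
      Lm (q.eval (MvPowerSeries.C (ph κ a0))) - Lm D) +
      (μ : MvPowerSeries V (LaurentSeries κ)) * Lm (f i) +
      (Y' i + Lm (1 + MvPowerSeries.C (eps κ ^ N') * Y i)) := by
    intro i
    have e1 := (hLG (LaurentSeries κ) V D (Φ i) 0 0 hD0 (hΦ0 i)).1
    have e2 := (hLG (LaurentSeries κ) V _ _ 0 0 (hPQ i) (hone i)).1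
    have e3 := (hLG (LaurentSeries κ) V _ _ 0 0 (hPfμ i) (hQne i)).1
    have e4 := (hLG (LaurentSeries κ) V _ _ 0 μ (hPf i) (hQne i)).2.1
    have e5 := (hLG (LaurentSeries κ) V _ _ 0 0 hPc (hfne i)).1
    have e6 : Lm (Q i) = Lm (q.eval (MvPowerSeries.C (ph κ a0))) + Y' i := hY'L i
    rw [hfact i, e2, e3, e4, e5, e6] at e1
    have e7 : Lm (Φ i) = ((μ : MvPowerSeries V (LaurentSeries κ)) * (Lm P + Lm (f i)) +
      (Lm (q.eval (MvPowerSeries.C (ph κ a0))) + Y' i) +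
      Lm (1 + MvPowerSeries.C (eps κ ^ N') * Y i)) - Lm D := by
      rw [e1]
      ring
    rw [e7]
    ring
  have hZ : ∀ i, ∃ b : κ⟦X⟧, MvPowerSeries.coeff m
      (Y' i + Lm (1 + MvPowerSeries.C (eps κ ^ N') * Y i)) = ph κ b := by
    intro i
    have h1 := (hBD κ V 0 0 d (Y' i) (Lm (1 + MvPowerSeries.C (eps κ ^ N') * Y i)) 0).2.1
      (hY'B i) (hCYall i).2
    exact (hBD κ V 0 0 d _ 0 0).2.2.2.2.2.2.2.2 h1 m hm.le
  choose b hb using hZ
  have hω0 : ∑ i, kc κ (ω i) = 0 := by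
    have h1 := hω 0 (Nat.zero_le _)
    simp only [pow_zero, mul_one] at h1
    rw [← map_sum, h1]
    simp
  have hωk : ∀ j : ℕ, j ≤ d → ∑ i, kc κ (ω i) * (kc κ (z i))⁻¹ ^ j = if j = 1 then 1 else 0 := by
    intro j hj
    have h1 := congrArg (kc κ) (hω j hj)
    rw [map_sum] at h1
    simp only [map_mul, map_pow, map_inv₀] at h1
    rw [h1]
    split_ifs <;> simp
  have hct := hCT (LaurentSeries κ) V d T (eps κ ^ θ) (fun i => kc κ (z i)) (fun i => kc κ (ω i))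
    hd (pow_ne_zero _ heps) hkz hωk m hm.le
  have hct' : ∑ i, kc κ (ω i) * eps κ ^ θ * MvPowerSeries.coeff m (Lm (f i)) =
      -((d : LaurentSeries κ) * MvPowerSeries.coeff m T) := by
    rw [hm, hT0] at hct
    exact hct
  have hθ1 : 1 ≤ θ := by omega
  refine ⟨∑ i, PowerSeries.C (ω i) * PowerSeries.X ^ (θ - 1) * b i, ?_⟩
  have hsum : ∑ i, kc κ (ω i) * eps κ ^ θ * MvPowerSeries.coeff m (Lm (Φ i)) =
      (∑ i, kc κ (ω i)) * (eps κ ^ θ * MvPowerSeries.coeff m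
        ((μ : MvPowerSeries V (LaurentSeries κ)) * Lm P +
          Lm (q.eval (MvPowerSeries.C (ph κ a0))) - Lm D)) +
      μ * (∑ i, kc κ (ω i) * eps κ ^ θ * MvPowerSeries.coeff m (Lm (f i))) +
      ∑ i, kc κ (ω i) * eps κ ^ θ * ph κ (b i) := by
    rw [Finset.sum_mul, Finset.mul_sum, ← Finset.sum_add_distrib, ← Finset.sum_add_distrib]
    refine Finset.sum_congr rfl fun i _ => ?_
    rw [hL i, map_add, map_add, hb i, MC_coeff_nat μ (Lm (f i)) m]
    ring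
  rw [hsum, hω0, hct', map_sum, Finset.mul_sum]
  have hlast : ∀ i, kc κ (ω i) * eps κ ^ θ * ph κ (b i) =
      eps κ * ph κ (PowerSeries.C (ω i) * PowerSeries.X ^ (θ - 1) * b i) := by
    intro i
    have h1 : eps κ ^ θ = eps κ * eps κ ^ (θ - 1) := by
      rw [← pow_succ']
      congr 1
      omega
    rw [map_mul, map_mul, map_pow, h1]
    have h2 : kc κ (ω i) = ph κ (PowerSeries.C (ω i)) := rfl
    have h3 : eps κ = ph κ PowerSeries.X := rfl
    rw [h2, ← h3]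
    ring
  rw [Finset.sum_congr rfl fun i _ => hlast i]
  ring

end Pool.Agent.Work.MP_499dc6_lc.MU
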