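import Pool.Agent.Work.MP_499dc6_lc.MU.StmtsC

/-!
# Item MP: images of circuits under a homomorphism of the coefficients
-/

namespace Pool.Agent.Work.MP_499dc6_lc.MU

open MvPolynomial Finset
open Pool.Agent.Work.MP_499dc6_lc.CD (dY dZ IsBi BB mat)
open Pool.Agent.Work.MP_499dc6_lc.D3
open Pool.Agent.Work.MP_499dc6_lc.Fib

open scoped PowerSeries

theorem MP_prod {K K' : Type} [Field K] [Field K'] (χ : K →+* K') {N : ℕ}
    {U : MvPolynomial (Fin N × Fin N) K} (h : IsRCprod U) : IsRCprod (MvPolynomial.map χ U) := by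
  obtain ⟨f, g, rfl⟩ := h
  refine ⟨fun a => MvPolynomial.map χ (f a), fun b => MvPolynomial.map χ (g b), ?_⟩
  rw [map_mul, map_prod, map_prod]
  simp only [MvPolynomial.map_rename]

theorem MP_sum {K K' : Type} [Field K] [Field K'] (χ : K →+* K') {N : ℕ}
    {U : MvPolynomial (Fin N × Fin N) K} (h : IsRCsum U) : IsRCsum (MvPolynomial.map χ U) := by
  obtain ⟨f, g, rfl⟩ := h
  refine ⟨fun a => MvPolynomial.map χ (f a), fun b => MvPolynomial.map χ (g b), ?_⟩
  rw [map_add, map_sum, map_sum]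
  simp only [MvPolynomial.map_rename]

theorem MP_deg {K K' σ : Type} [Field K] [Field K'] (χ : K →+* K') (l : MvPolynomial σ K) :
    (MvPolynomial.map χ l).totalDegree ≤ l.totalDegree := by
  classical
  apply Finset.sup_mono
  exact MvPolynomial.support_map_subset _ _

theorem MP_aeval {K K' σ : Type} [Field K] [Field K'] (χ : K →+* K') {r : ℕ}
    (B : Fin r → MvPolynomial σ K) (Q : MvPolynomial (Fin r) K) :
    MvPolynomial.map χ (aeval B Q) =
      aeval (fun a => MvPolynomial.map χ (B a)) (MvPolynomial.map χ Q) := by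
  induction Q using MvPolynomial.induction_on with
  | C a => simp [MvPolynomial.algebraMap_eq]
  | add p q hp hq => rw [map_add, map_add, map_add, map_add, hp, hq]
  | mul_X p i hp => rw [map_mul, map_mul, map_mul, map_mul, hp, aeval_X, MvPolynomial.map_X, aeval_X]

theorem MP_basic {K K' : Type} [Field K] [Field K'] (χ : K →+* K') {N s : ℕ} (e : ℕ)
    (F : Fin s → MvPolynomial (Fin N × Fin N) K) (J : Finset (Fin s))
    (B : MvPolynomial (Fin N × Fin N) K) (h : BasicR e F J B) :
    BasicR e (fun i => MvPolynomial.map χ (F i)) J (MvPolynomial.map χ B) := by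
  rcases h with ⟨l, U, c, hl, hU, hc, rfl⟩ | ⟨U, k, hU, hk, rfl⟩
  · refine Or.inl ⟨MvPolynomial.map χ l, MvPolynomial.map χ U, fun j => χ (c j),
      (MP_deg χ l).trans hl, MP_sum χ hU, fun j hj => hc j fun h0 => hj ?_, ?_⟩
    · simp only [h0, map_zero]
    · rw [map_add, map_add, map_sum]
      simp only [map_mul, MvPolynomial.map_C]
  · refine Or.inr ⟨MvPolynomial.map χ U, k, MP_prod χ hU, hk, ?_⟩
    rw [map_mul, map_prod]
    simp only [map_pow]

theorem pr_MP : S_MP := by
  intro K K' _ _ χ N s r e F d hF i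
  obtain ⟨U, B, Q, hU, hFi, h⟩ := hF i
  refine ⟨MvPolynomial.map χ U, fun a => MvPolynomial.map χ (B a), MvPolynomial.map χ Q,
    MP_prod χ hU, ?_, ?_⟩
  · show MvPolynomial.map χ (F i) = _
    rw [hFi, map_mul, MP_aeval]
  · rcases h with h | ⟨hd, h⟩
    · exact Or.inl fun a => (h a).imp (MP_sum χ) (MP_prod χ)
    · exact Or.inr ⟨hd, fun a => MP_basic χ e F (Low d i) (B a) (h a)⟩

end Pool.Agent.Work.MP_499dc6_lc.MU
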