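import Pool.Agent.Work.MP_499dc6_lc.MU.StmtsD

set_option autoImplicit false

/-! # Multiples of the permanent, item NU: the refined count -/

namespace Pool.Agent.Work.MP_499dc6_lc.MU

open Finset
open Pool.Agent.Work.MP_499dc6_lc.Fib

theorem pr_NU : S_NU := by
  intro lam lamT h N Λ hlam hlamT hh hΛ hg
  have hΛ1 : 330 * lam ≤ (Λ : ℝ) := by
    rw [hΛ]
    exact Nat.le_ceil _
  have hΛ2 : (Λ : ℝ) + 1 ≤ 332 * lam := by
    have h1 : (Λ : ℝ) < 330 * lam + 1 := by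
      rw [hΛ]
      exact Nat.ceil_lt_add_one (by positivity)
    linarith
  have hΛ4 : 4 ≤ Λ := by
    have h1 : (4 : ℝ) ≤ (Λ : ℝ) := by linarith
    exact_mod_cast h1
  obtain ⟨hpos, -, -, -, -, -, hgr⟩ := pr_Qs Λ hΛ4
  obtain ⟨X, hX⟩ : ∃ X : ℝ, X = 332 * lam := ⟨_, rfl⟩
  have hX1 : 332 ≤ X := by rw [hX]; linarith
  rw [← hX] at hΛ2 ⊢
  obtain ⟨q, hq⟩ : ∃ q : ℕ, q = qs Λ (h + 1) := ⟨_, rfl⟩
  obtain ⟨q', hq'⟩ : ∃ q' : ℕ, q' = qs Λ h := ⟨_, rfl⟩
  rw [← hq, ← hq'] at hg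
  have hq1 : 1 ≤ q := by rw [hq]; exact hpos _ (by omega)
  have hq1' : 1 ≤ q' := by rw [hq']; exact hpos _ hh
  have hqr : (1 : ℝ) ≤ q := by exact_mod_cast hq1
  have hqr' : (1 : ℝ) ≤ q' := by exact_mod_cast hq1'
  have hΛ0 : (0 : ℝ) ≤ (Λ : ℝ) + 1 := by positivity
  have hqg : (q : ℝ) ≤ X ^ (Nat.fib (h + 2) - 1) := by
    have h1 : (q : ℝ) ≤ ((Λ : ℝ) + 1) ^ (Nat.fib (h + 1 + 1) - 1) := by
      rw [hq]
      exact_mod_cast hgr (h + 1) (by omega)
    exact h1.trans (pow_le_pow_left₀ hΛ0 hΛ2 _)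
  have hqg' : (q' : ℝ) ≤ X ^ (Nat.fib (h + 1) - 1) := by
    have h1 : (q' : ℝ) ≤ ((Λ : ℝ) + 1) ^ (Nat.fib (h + 1) - 1) := by
      rw [hq']
      exact_mod_cast hgr h hh
    exact h1.trans (pow_le_pow_left₀ hΛ0 hΛ2 _)
  have hX0 : 0 ≤ X := by linarith
  have hXe : X ^ (Nat.fib (h + 1) - 1) * X ^ (Nat.fib (h + 2) - 1) =
      X ^ (Nat.fib (h + 3) - 2) := by
    have h1 : 0 < Nat.fib (h + 1) := Nat.fib_pos.2 (Nat.succ_pos _)
    have h2 : 0 < Nat.fib (h + 2) := Nat.fib_pos.2 (Nat.succ_pos _)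
    have h3 : Nat.fib (h + 3) = Nat.fib (h + 1) + Nat.fib (h + 2) := Nat.fib_add_two
    rw [← pow_add]
    congr 1
    omega
  rw [← hXe]
  have hlt : N < 10 * q * (N / (10 * q) + 1) := by
    have h1 := Nat.lt_mul_div_succ N (show 0 < 10 * q by omega)
    exact h1
  have hltr : (N : ℝ) ≤ 10 * q * ((N / (10 * q) : ℕ) + 1) := by
    exact_mod_cast hlt.le
  by_cases h0 : N / (10 * q) = 0
  · rw [h0] at hltr
    have h1 : (1 : ℝ) ≤ X ^ (Nat.fib (h + 1) - 1) := one_le_pow₀ (by linarith)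
    calc (N : ℝ) ≤ (1 * q) * 10 := by
          push_cast at hltr
          linarith
      _ ≤ X ^ (Nat.fib (h + 1) - 1) * X ^ (Nat.fib (h + 2) - 1) * (332 * lamT) := by
          refine mul_le_mul ?_ (by linarith) (by norm_num) (by positivity)
          exact mul_le_mul h1 hqg (by linarith) (by positivity)
  · have hg1 : 1 ≤ N / (10 * q) := Nat.pos_of_ne_zero h0
    have hg2 : 10 * (N / (10 * q)) * q ≤ N := by
      have h1 := Nat.mul_div_le N (10 * q)
      calc 10 * (N / (10 * q)) * q = 10 * q * (N / (10 * q)) := by ring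
        _ ≤ N := h1
    have h3 := hg _ hg1 hg2
    obtain ⟨g, hgdef⟩ : ∃ g : ℝ, g = ((N / (10 * q) : ℕ) : ℝ) := ⟨_, rfl⟩
    rw [← hgdef] at h3 hltr
    have hg0 : 0 ≤ g := by rw [hgdef]; positivity
    have h4 : Real.log (3 / 2) * g ≤ 4 * lamT * q' := by
      have e1 : Real.log (3 / 2) / (16 * q' * q) * (4 * g * q) =
          Real.log (3 / 2) * g / (4 * q') := by
        field_simp
        ring
      rw [e1, div_le_iff₀ (by positivity)] at h3
      linarith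
    have h5 : g ≤ 10 * lamT * q' := by
      have h6 : 2 / 5 * g ≤ Real.log (3 / 2) * g := mul_le_mul_of_nonneg_right Num_log hg0
      linarith
    have h6 : 1 ≤ lamT * q' := one_le_mul_of_one_le_of_one_le hlamT hqr'
    calc (N : ℝ) ≤ 10 * q * (g + 1) := hltr
      _ ≤ 10 * q * (11 * (lamT * q')) := by
          refine mul_le_mul_of_nonneg_left ?_ (by positivity)
          linarith
      _ = (q' * q) * (110 * lamT) := by ring
      _ ≤ X ^ (Nat.fib (h + 1) - 1) * X ^ (Nat.fib (h + 2) - 1) * (332 * lamT) := by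
          refine mul_le_mul ?_ (by linarith) (by positivity) (by positivity)
          exact mul_le_mul hqg' hqg (by positivity) (by positivity)

end Pool.Agent.Work.MP_499dc6_lc.MU
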