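import Pool.Agent.Work.MP_499dc6_lc.MU.StmtsC

/-!
# Multiples of the permanent in bounded depth: item NV (choice of the point and of the numbers)
-/

namespace Pool.Agent.Work.MP_499dc6_lc.MU

open MvPolynomial Finset
open Pool.Agent.Work.MP_499dc6_lc.CD (dY dZ IsBi BB mat)
open Pool.Agent.Work.MP_499dc6_lc.D3
open Pool.Agent.Work.MP_499dc6_lc.Fib

open scoped PowerSeries

theorem pr_NV (hTH : S_TH) (hCH : S_CH) (hCZ : S_CZ) (hET : S_ET) : S_NV := by
  classical
  intro κ _ _ N n kk v0 θ κr κc A W hθ hr hc hW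
  obtain ⟨nW, hnW⟩ := hCH (Fin N × Fin N) κ (fun v => constantCoeff (rA κ A (θ v))) W hW
  refine ⟨nW, fun M G => ?_⟩
  obtain ⟨c, hc1, hc2⟩ := hnW M (fun j => (Th v0 (G j)).leadingCoeff)
  have hTh : ∀ j, G j ≠ 0 → (Th v0 (G j)).leadingCoeff ≠ 0 := by
    intro j hj h0
    rw [Polynomial.leadingCoeff_eq_zero] at h0
    apply hj
    have h1 := (hTH (LaurentSeries κ) (Fin N × Fin N) v0 (G j)).1
    rw [h0, Polynomial.eval_zero] at h1
    exact h1.symm
  refine ⟨c, ?_, ?_⟩
  · rw [(hET κ N n kk v0 θ κr κc A c 0 hθ hr hc).2.2.2.2 W]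
    exact hc1
  · intro m' T0 ρ hρ
    obtain ⟨z, hz1, hz2, hz3⟩ := hCZ κ m' M T0 ρ (fun j => if G j = 0 then 1 else
      (Th v0 (G j)).map (eval fun v =>
        kc κ (constantCoeff (rA κ A (θ v))) + eps κ * kc κ (c v))) hρ (by
      intro j
      by_cases hj : G j = 0
      · rw [if_pos hj]
        exact one_ne_zero
      · rw [if_neg hj]
        intro h0
        apply hc2 j (hTh j hj)
        have h1 := congrArg (fun q => Polynomial.coeff q (Th v0 (G j)).natDegree) h0
        simp only [Polynomial.coeff_map, Polynomial.coeff_zero] at h1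
        exact h1)
    refine ⟨z, hz1, hz2, fun i j hj => ?_⟩
    rw [(hET κ N n kk v0 θ κr κc A c (T0 + kc κ (z i) * ρ) hθ hr hc).2.2.2.1 (G j)]
    have h2 := hz3 i j
    rw [if_neg hj] at h2
    exact h2

end Pool.Agent.Work.MP_499dc6_lc.MU
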