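import Pool.Agent.Work.MP_499dc6_lc.MU.StmtsB

/-! Block MU, item OU: orders. -/

namespace Pool.Agent.Work.MP_499dc6_lc.MU

open MvPolynomial Finset

open scoped PowerSeries

theorem OU_ph_inj (κ : Type) [Field κ] : Function.Injective (ph κ) :=
  IsFractionRing.injective κ⟦X⟧ (LaurentSeries κ)

theorem OU_eps_ne (κ : Type) [Field κ] : eps κ ≠ 0 := by
  unfold eps
  intro h
  have h1 := OU_ph_inj κ (h.trans (map_zero (ph κ)).symm)
  exact PowerSeries.X_ne_zero h1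

theorem OU_unit {κ : Type} [Field κ] (a : κ⟦X⟧) :
    ∃ c : κ⟦X⟧, c * (1 + PowerSeries.X * a) = 1 := by
  have h : IsUnit (1 + PowerSeries.X * a : κ⟦X⟧) := by
    rw [PowerSeries.isUnit_iff_constantCoeff]
    simp
  obtain ⟨c, hc⟩ := h.exists_left_inv
  exact ⟨c, hc⟩

theorem pr_OU : S_OU := by
  intro κ _ n n' u u' a z
  refine ⟨?_, ?_, ?_, ?_, ?_⟩
  · rintro ⟨b, hb⟩ rfl
    rw [mul_zero] at hb
    exact pow_ne_zero n (OU_eps_ne κ) hb.symm
  · rintro ⟨b, hb⟩ ⟨b', hb'⟩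
    refine ⟨b * b', ?_⟩
    rw [map_mul, pow_add, ← hb, ← hb']
    ring
  · rintro ⟨b, hb⟩
    obtain ⟨c, hc⟩ := OU_unit a
    refine ⟨b * c, ?_⟩
    have h1 : ph κ c * ph κ (1 + PowerSeries.X * a) = 1 := by
      rw [← map_mul, hc, map_one]
    rw [map_mul, ← hb]
    calc ph κ b * ph κ c * (u * ph κ (1 + PowerSeries.X * a))
        = (ph κ b * u) * (ph κ c * ph κ (1 + PowerSeries.X * a)) := by ring
      _ = ph κ b * u := by rw [h1, mul_one]
  · intro hz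
    refine ⟨PowerSeries.C z⁻¹, ?_⟩
    have h1 : ph κ (PowerSeries.C z⁻¹) * kc κ z = 1 := by
      show ph κ (PowerSeries.C z⁻¹) * ph κ (PowerSeries.C z) = 1
      rw [← map_mul, ← map_mul, inv_mul_cancel₀ hz, map_one, map_one]
    rw [← mul_assoc, h1, one_mul]
  · rintro ⟨b, hb⟩
    refine ⟨b * a, ?_⟩
    rw [map_mul, ← hb]
    ring

end Pool.Agent.Work.MP_499dc6_lc.MU
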