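import Pool.Agent.Work.MP_499dc6_lc.MU.StmtsB

/-!
# Multiples of the permanent in bounded depth, item RM: removing the multiplicity
-/

set_option autoImplicit false

namespace Pool.Agent.Work.MP_499dc6_lc.MU

open MvPolynomial Finset

section

variable {R : Type} [CommRing R] [IsDomain R]

omit [IsDomain R] in
theorem RM_div (P0 P1 : R) (F : Polynomial R) : ∃ (m : ℕ) (W : R) (Q2 : Polynomial R),
    Polynomial.C (P1 ^ m) * F =
      Polynomial.C W + (Polynomial.C P1 * Polynomial.X + Polynomial.C P0) * Q2 := by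
  induction F using Polynomial.induction_on with
  | C a => exact ⟨0, a, 0, by simp⟩
  | add p q hp hq =>
    obtain ⟨m, W, Q, h⟩ := hp
    obtain ⟨m', W', Q', h'⟩ := hq
    refine ⟨m + m', P1 ^ m' * W + P1 ^ m * W',
      Polynomial.C (P1 ^ m') * Q + Polynomial.C (P1 ^ m) * Q', ?_⟩
    rw [pow_add, Polynomial.C_mul, mul_add, Polynomial.C_add, Polynomial.C_mul, Polynomial.C_mul]
    linear_combination Polynomial.C (P1 ^ m') * h + Polynomial.C (P1 ^ m) * h'
  | monomial n a hn =>
    obtain ⟨m, W, Q, h⟩ := hn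
    refine ⟨m + 1, -(W * P0), Polynomial.C W + Q * (Polynomial.C P1 * Polynomial.X), ?_⟩
    rw [pow_succ P1 m, Polynomial.C_mul, pow_succ, Polynomial.C_neg, Polynomial.C_mul]
    linear_combination (Polynomial.C P1 * Polynomial.X) * h

omit [IsDomain R] in
theorem RM_deg {P0 P1 : R} (h1 : P1 ≠ 0) :
    (Polynomial.C P1 * Polynomial.X + Polynomial.C P0).natDegree = 1 :=
  Polynomial.natDegree_linear h1

theorem RM_ne {P0 P1 : R} (h1 : P1 ≠ 0) :
    (Polynomial.C P1 * Polynomial.X + Polynomial.C P0) ≠ 0 := by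
  intro h
  have := RM_deg (P0 := P0) h1
  rw [h, Polynomial.natDegree_zero] at this
  exact absurd this (by norm_num)

theorem RM_rec (P0 P1 : R) (h1 : P1 ≠ 0) (d : ℕ) : ∀ F : Polynomial R, F.natDegree = d → F ≠ 0 →
    ∃ (μ m : ℕ) (D W : R) (Q Q2 : Polynomial R), D ≠ 0 ∧ W ≠ 0 ∧
      Polynomial.C D * F = (Polynomial.C P1 * Polynomial.X + Polynomial.C P0) ^ μ * Q ∧
      Polynomial.C (P1 ^ m) * Q =
        Polynomial.C W + (Polynomial.C P1 * Polynomial.X + Polynomial.C P0) * Q2 := by
  induction d using Nat.strong_induction_on with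
  | _ d ih =>
    intro F hd hF
    obtain ⟨m, W, Q2, h⟩ := RM_div P0 P1 F
    by_cases hW : W = 0
    · subst hW
      rw [Polynomial.C_0, zero_add] at h
      have hpm : P1 ^ m ≠ 0 := pow_ne_zero m h1
      have hQ2 : Q2 ≠ 0 := by
        rintro rfl
        rw [mul_zero] at h
        rcases mul_eq_zero.1 h with h | h
        · exact hpm (Polynomial.C_eq_zero.1 h)
        · exact hF h
      have hdeg : F.natDegree = 1 + Q2.natDegree := by
        rw [← Polynomial.natDegree_C_mul (p := F) hpm, h,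
          Polynomial.natDegree_mul (RM_ne h1) hQ2, RM_deg h1]
      obtain ⟨μ, m', D, W, Q, Q3, hD, hW, e1, e2⟩ := ih Q2.natDegree (by omega) Q2 rfl hQ2
      refine ⟨μ + 1, m', D * P1 ^ m, W, Q, Q3, mul_ne_zero hD hpm, hW, ?_, e2⟩
      rw [Polynomial.C_mul, mul_assoc, h, pow_succ]
      linear_combination (Polynomial.C P1 * Polynomial.X + Polynomial.C P0) * e1
    · exact ⟨0, m, 1, W, F, Q2, one_ne_zero, hW, by simp, h⟩

end

theorem pr_RM : S_RM := by
  intro R _ _ P0 P1 H F h1 hF hFH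
  obtain ⟨μ, m, D, W, Q, Q2, hD, hW, e1, e2⟩ := RM_rec P0 P1 h1 F.natDegree F rfl hF
  refine ⟨μ, m, D, W, Q, Q2, ?_, hD, hW, e1, e2⟩
  rcases Nat.eq_zero_or_pos μ with h0 | h0
  · exfalso
    subst h0
    rw [pow_zero, one_mul] at e1
    have e3 : Polynomial.C W = (Polynomial.C P1 * Polynomial.X + Polynomial.C P0) *
        (Polynomial.C (P1 ^ m) * Polynomial.C D * H - Q2) := by
      rw [← e1, hFH] at e2
      linear_combination -e2
    have hT : Polynomial.C (P1 ^ m) * Polynomial.C D * H - Q2 ≠ 0 := by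
      intro h
      rw [h, mul_zero] at e3
      exact hW (Polynomial.C_eq_zero.1 e3)
    have e4 := congrArg Polynomial.natDegree e3
    rw [Polynomial.natDegree_C, Polynomial.natDegree_mul (RM_ne h1) hT, RM_deg h1] at e4
    omega
  · exact h0

end Pool.Agent.Work.MP_499dc6_lc.MU
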