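import Pool.Agent.Work.MP_499dc6_lc.MU.StmtsA

/-!
# Item SC of block MU: the point with one free entry
-/

namespace Pool.Agent.Work.MP_499dc6_lc.MU

open MvPolynomial Finset
open Pool.Agent.Work.MP_499dc6_lc.D3
open Pool.Agent.Work.MP_499dc6_lc.Fib

theorem SC_const {R Y Z : Type} [CommRing R] (b b' : Bool) (p : MvPolynomial (Y ⊕ Z) R)
    (h : ∃ a, p = C a) :
    Rc_kind b p ∧ Rc_kind b' p ∧ ((∃ a, p = C a) ∨ ∃ w, p = X w) := by
  obtain ⟨a, rfl⟩ := h
  exact ⟨Rc_kind_C b a, Rc_kind_C b' a, Or.inl ⟨a, rfl⟩⟩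

theorem SC_GMmap {R S : Type} [CommRing R] [CommRing S] (ψ : R →+* S) (n kk : ℕ)
    (y : CY n kk → CY n kk → R) (z : CZ n → CZ n → R) (r : GR n kk) (c : GC n kk) :
    ψ (GM y z r c) = GM (fun i j => ψ (y i j)) (fun i j => ψ (z i j)) r c := by
  rcases r with r | r | ⟨a, e⟩ | u <;> rcases c with ⟨j, b⟩ | ⟨j, b⟩ <;> simp only [GM] <;>
    (try split_ifs) <;> simp

theorem SC_gp {R : Type} [CommRing R] (n kk : ℕ) (y : CY n kk → CY n kk → R)
    (z : CZ n → CZ n → R) :
    gp (GM y z) =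
      (-1) ^ n * 4 ^ n * ∑ c : Code n kk, (∏ i, y i (c.1.1 i)) * ∏ i, z i (c.1.2 i) := by
  rw [← D3.pr_GadBij R n kk y z, ← D3.pr_GadCancel R n kk y z]
  rfl

/-- The entries of the matrix with one free entry. -/
theorem SC_entry {R S α β : Type} [CommRing R] [CommRing S] [DecidableEq α] [DecidableEq β]
    (ψ : R →+* S) (m : ℕ) (s : α ≃ β) (G : α → β → R) (ζ : α → R) (r₀ : α) (t : S)
    (r : (α ⊕ (α ⊕ α)) ⊕ Fin m) (c : (β ⊕ (α × Bool)) ⊕ Fin m) (P : Prop) [Decidable P]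
    (hP : P ↔ c = Sum.inl (Sum.inr (r₀, false)) ∧ r = Sum.inl (Sum.inl r₀)) :
    (if P then t else ψ (Proj_M m (BM G s (fun r => if r = r₀ then 0 else 1) ζ) r c)) =
    Proj_M m (BM (fun r c => ψ (G r c)) s (fun r => if r = r₀ then t else 1)
      (fun g => ψ (ζ g))) r c := by
  rcases r with (r | r | g) | i <;> rcases c with (c | p) | j
  · rw [if_neg (fun h => by simpa using (hP.1 h).1)]
    rfl
  · simp only [Proj_M, BM]
    by_cases hr : r = r₀
    · by_cases hp : p = (r₀, false)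
      · rw [if_pos (hP.2 ⟨by rw [hp], by rw [hr]⟩), hr, if_pos hp, if_pos rfl]
      · rw [if_neg (fun h => hp (Sum.inr_injective (Sum.inl_injective (hP.1 h).1))), hr,
          if_neg hp, if_neg hp, map_zero]
    · rw [if_neg (fun h => hr (Sum.inl_injective (Sum.inl_injective (hP.1 h).2))), if_neg hr,
        if_neg hr]
      split_ifs
      · exact map_one ψ
      · exact map_zero ψ
  · rw [if_neg (fun h => by simpa using (hP.1 h).1)]
    exact map_zero ψ
  · rw [if_neg (fun h => by simpa using (hP.1 h).1)]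
    simp only [Proj_M, BM]
    split_ifs
    · exact map_one ψ
    · exact map_zero ψ
  · rw [if_neg (fun h => by simpa using (hP.1 h).2)]
    simp only [Proj_M, BM]
    split_ifs
    · exact map_one ψ
    · exact map_zero ψ
  · rw [if_neg (fun h => by simpa using (hP.1 h).1)]
    exact map_zero ψ
  · rw [if_neg (fun h => by simpa using (hP.1 h).1)]
    exact map_zero ψ
  · rw [if_neg (fun h => by simpa using (hP.1 h).2)]
    simp only [Proj_M, BM]
    split_ifs
    · exact map_one ψ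
    · rfl
  · rw [if_neg (fun h => by simpa using (hP.1 h).1)]
    exact map_zero ψ
  · rw [if_neg (fun h => by simpa using (hP.1 h).1)]
    exact map_zero ψ
  · rw [if_neg (fun h => by simpa using (hP.1 h).2)]
    exact map_zero ψ
  · rw [if_neg (fun h => by simpa using (hP.1 h).1)]
    simp only [Proj_M]
    split_ifs
    · exact map_one ψ
    · exact map_zero ψ

/-- The kinds of the entries. -/
theorem SC_kinds {R : Type} [CommRing R] (n kk m : ℕ) (s : GR n kk ≃ GC n kk)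
    (ζ : GR n kk → R) (r₀ : GR n kk)
    (r : (GR n kk ⊕ (GR n kk ⊕ GR n kk)) ⊕ Fin m) (c : (GC n kk ⊕ (GR n kk × Bool)) ⊕ Fin m)
    (x : MvPolynomial (VV n kk) R)
    (hx : x = Proj_M m (BM (GM (fun i j => (X (Sum.inl (i, j)) : MvPolynomial (VV n kk) R))
      (fun i j => X (Sum.inr (i, j)))) s (fun r => if r = r₀ then 0 else 1) (fun g => C (ζ g))) r c) :
    Rc_kind (Sum.elim (Sum.elim (Sum.elim (fun _ => true) (fun _ => false)) (fun _ => true))
      (fun _ => true) r) x ∧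
    Rc_kind (Sum.elim (Sum.elim (Sum.elim (fun _ => true) (fun _ => false)) (fun _ => true))
      (fun _ => true) c) x ∧ ((∃ a, x = C a) ∨ ∃ w, x = X w) := by
  have h0 : (0 : MvPolynomial (VV n kk) R) = C 0 := C_0.symm
  have h1 : (1 : MvPolynomial (VV n kk) R) = C 1 := C_1.symm
  rcases r with (r | r | g) | i <;> rcases c with (c | p) | j <;> simp only [Proj_M, BM] at hx
  · obtain ⟨h2, h3, h4⟩ := Rc_GM n kk r c x hx
    refine ⟨h2, h3, ?_⟩
    rcases h4 with h4 | h4 | h4 | h4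
    · exact Or.inl ⟨0, by rw [h4, C_0]⟩
    · exact Or.inl ⟨1, by rw [h4, C_1]⟩
    · exact Or.inl ⟨-1, by rw [h4, C_neg, C_1]⟩
    · exact Or.inr h4
  · refine SC_const _ _ _ ?_
    split_ifs at hx
    · exact ⟨0, hx.trans h0⟩
    · exact ⟨1, hx.trans h1⟩
    · exact ⟨0, hx.trans h0⟩
  · exact SC_const _ _ _ ⟨0, hx.trans h0⟩
  · refine SC_const _ _ _ ?_
    split_ifs at hx
    · exact ⟨1, hx.trans h1⟩
    · exact ⟨0, hx.trans h0⟩
  · refine SC_const _ _ _ ?_
    split_ifs at hx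
    · exact ⟨1, hx.trans h1⟩
    · exact ⟨0, hx.trans h0⟩
  · exact SC_const _ _ _ ⟨0, hx.trans h0⟩
  · exact SC_const _ _ _ ⟨0, hx.trans h0⟩
  · refine SC_const _ _ _ ?_
    split_ifs at hx
    · exact ⟨1, hx.trans h1⟩
    · exact ⟨_, hx⟩
  · exact SC_const _ _ _ ⟨0, hx.trans h0⟩
  · exact SC_const _ _ _ ⟨0, hx.trans h0⟩
  · exact SC_const _ _ _ ⟨0, hx.trans h0⟩
  · refine SC_const _ _ _ ?_
    split_ifs at hx
    · exact ⟨1, hx.trans h1⟩
    · exact ⟨0, hx.trans h0⟩

/-- The permanent of the matrix. -/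
theorem SC_perm {R α β : Type} [CommRing R] [Fintype α] [DecidableEq α] [Fintype β]
    [DecidableEq β] (N m : ℕ) (er : α ⊕ Fin m ≃ Fin N) (ec : β ⊕ Fin m ≃ Fin N)
    (B : α → β → R) :
    (Matrix.of fun i j : Fin N => Proj_M m B (er.symm j) (ec.symm i)).permanent = gp B := by
  have : Fintype (α ⊕ Fin m ≃ β ⊕ Fin m) := Equiv.instFintype
  rw [Proj_perm N er ec, Proj_block]
  rfl

/-- The permanent of the matrix with the gadget. -/
theorem SC_permB (hGA : S_GA) {R α β : Type} [CommRing R] [Fintype α] [DecidableEq α]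
    [Fintype β] [DecidableEq β] (N m : ℕ) (er : (α ⊕ (α ⊕ α)) ⊕ Fin m ≃ Fin N)
    (ec : (β ⊕ (α × Bool)) ⊕ Fin m ≃ Fin N) (G : α → β → R) (s : α ≃ β) (τ ζ : α → R)
    (hc : 1 ≤ Fintype.card α)
    (hζ : ∀ j : ℕ, 0 < j → j < Fintype.card α → ∑ S ∈ powersetCard j univ, ∏ i ∈ S, ζ i = 0) :
    (Matrix.of fun i j : Fin N =>
      Proj_M m (BM G s τ ζ) (er.symm j) (ec.symm i)).permanent =
      ((Fintype.card α).factorial : R) * (gp G + (∏ i, ζ i) * ∏ r, τ r) :=
  (SC_perm N m er ec _).trans (hGA R α β G s τ ζ hc hζ)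

theorem pr_SC (hGA : S_GA) (hZE : S_ZE) : S_SC := by
  intro κ _ _ _ N n kk hn hN
  have hcR : Fintype.card (GR n kk) = 4 * (2 * n + kk) := by
    simp only [Fintype.card_sum, Fintype.card_prod, Fintype.card_bool, Fintype.card_fin]
    omega
  have hcC : Fintype.card (GC n kk) = 4 * (2 * n + kk) := by
    simp only [Fintype.card_sum, Fintype.card_prod, Fintype.card_bool, Fintype.card_fin]
    omega
  have hc1 : 1 ≤ Fintype.card (GR n kk) := by omega
  obtain ⟨m, hm⟩ : ∃ m, m = N - 12 * (2 * n + kk) := ⟨_, rfl⟩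
  have hR : Fintype.card ((GR n kk ⊕ (GR n kk ⊕ GR n kk)) ⊕ Fin m) = N := by
    rw [Fintype.card_sum (α := GR n kk ⊕ (GR n kk ⊕ GR n kk)),
      Fintype.card_sum (α := GR n kk) (β := GR n kk ⊕ GR n kk),
      Fintype.card_sum (α := GR n kk) (β := GR n kk), hcR, Fintype.card_fin]
    omega
  have hC : Fintype.card ((GC n kk ⊕ (GR n kk × Bool)) ⊕ Fin m) = N := by
    rw [Fintype.card_sum (α := GC n kk ⊕ (GR n kk × Bool)),
      Fintype.card_sum (α := GC n kk) (β := GR n kk × Bool),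
      Fintype.card_prod (α := GR n kk), hcR, hcC, Fintype.card_bool, Fintype.card_fin]
    omega
  obtain ⟨er⟩ : Nonempty ((GR n kk ⊕ (GR n kk ⊕ GR n kk)) ⊕ Fin m ≃ Fin N) :=
    ⟨Fintype.equivFinOfCardEq hR⟩
  obtain ⟨ec⟩ : Nonempty ((GC n kk ⊕ (GR n kk × Bool)) ⊕ Fin m ≃ Fin N) :=
    ⟨Fintype.equivFinOfCardEq hC⟩
  obtain ⟨s⟩ : Nonempty (GR n kk ≃ GC n kk) := ⟨Fintype.equivOfCardEq (hcR.trans hcC.symm)⟩
  obtain ⟨r₀⟩ : Nonempty (GR n kk) := Fintype.card_pos_iff.1 hc1
  obtain ⟨ζ, hζ0, hζ⟩ := hZE κ (GR n kk) hc1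
  have hfac : ((Fintype.card (GR n kk)).factorial : κ) ≠ 0 := by
    exact_mod_cast Nat.factorial_ne_zero _
  refine ⟨(ec (Sum.inl (Sum.inr (r₀, false))), er (Sum.inl (Sum.inl r₀))),
    fun v => Proj_M m (BM (GM (fun i j => (X (Sum.inl (i, j)) : MvPolynomial (VV n kk) κ))
      (fun i j => X (Sum.inr (i, j)))) s (fun r => if r = r₀ then 0 else 1) (fun g => C (ζ g)))
        (er.symm v.2) (ec.symm v.1),
    fun a => Sum.elim (Sum.elim (Sum.elim (fun _ => true) (fun _ => false)) (fun _ => true))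
      (fun _ => true) (ec.symm a),
    fun a => Sum.elim (Sum.elim (Sum.elim (fun _ => true) (fun _ => false)) (fun _ => true))
      (fun _ => true) (er.symm a),
    ((Fintype.card (GR n kk)).factorial : κ) * ((-1) ^ n * 4 ^ n),
    ((Fintype.card (GR n kk)).factorial : κ) * ∏ i, ζ i, ?_, ?_, ?_, ?_, ?_, ?_⟩
  · exact mul_ne_zero hfac (mul_ne_zero (pow_ne_zero _ (by norm_num)) (pow_ne_zero _ (by norm_num)))
  · exact mul_ne_zero hfac hζ0
  · intro v
    exact (SC_kinds n kk m s ζ r₀ (er.symm v.2) (ec.symm v.1) _ rfl).2.2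
  · intro v
    exact (SC_kinds n kk m s ζ r₀ (er.symm v.2) (ec.symm v.1) _ rfl).2.1
  · intro v
    exact (SC_kinds n kk m s ζ r₀ (er.symm v.2) (ec.symm v.1) _ rfl).1
  · intro S _ ψ t
    have hmat : (Matrix.of fun i j : Fin N =>
        if (i, j) = (ec (Sum.inl (Sum.inr (r₀, false))), er (Sum.inl (Sum.inl r₀))) then t else
        ψ (Proj_M m (BM (GM (fun i j => (X (Sum.inl (i, j)) : MvPolynomial (VV n kk) κ))
          (fun i j => X (Sum.inr (i, j)))) s (fun r => if r = r₀ then 0 else 1)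
            (fun g => C (ζ g))) (er.symm j) (ec.symm i))) =
        Matrix.of fun i j : Fin N =>
          Proj_M m (BM (GM (fun i j => ψ (X (Sum.inl (i, j)))) (fun i j => ψ (X (Sum.inr (i, j)))))
            s (fun r => if r = r₀ then t else 1) (fun g => ψ (C (ζ g)))) (er.symm j)
              (ec.symm i) := by
      ext i j
      rw [Matrix.of_apply, Matrix.of_apply, SC_entry ψ m s _ (fun g => C (ζ g)) r₀ t
        (er.symm j) (ec.symm i)]
      · congr 2
        funext r c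
        exact SC_GMmap ψ n kk _ _ r c
      · rw [Prod.mk.injEq, Equiv.symm_apply_eq, Equiv.symm_apply_eq]
    refine (congrArg Matrix.permanent hmat).trans ?_
    rw [SC_permB hGA N m er ec _ s _ _ hc1 ?_, SC_gp]
    · have hPC : ψ (PC κ n kk) = ∑ c : Code n kk, (∏ i, ψ (X (Sum.inl (i, c.1.1 i)))) *
          ∏ i, ψ (X (Sum.inr (i, c.1.2 i))) := by
        rw [← PC_prod, map_sum]
        refine Finset.sum_congr rfl fun c _ => ?_
        rw [map_mul, map_prod, map_prod]
      have hζp : ψ (C (∏ i, ζ i)) = ∏ i, ψ (C (ζ i)) := by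
        rw [map_prod, map_prod]
      have hτ : (∏ r : GR n kk, if r = r₀ then t else 1) = t := by
        rw [Finset.prod_ite_eq' univ r₀ (fun _ => t), if_pos (mem_univ _)]
      rw [hτ, ← hPC, ← hζp]
      simp only [map_mul, map_pow, map_neg, map_one, map_natCast, map_ofNat]
      ring
    · intro j hj0 hj
      have h1 := hζ j hj0 hj
      have h2 : (ψ.comp C) (∑ S ∈ powersetCard j univ, ∏ i ∈ S, ζ i) = 0 := by
        rw [h1, map_zero]
      rw [map_sum] at h2
      rw [← h2]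
      refine Finset.sum_congr rfl fun S _ => ?_
      rw [map_prod]
      rfl

end Pool.Agent.Work.MP_499dc6_lc.MU
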