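import Pool.Agent.Work.MP_499dc6_lc.MU.StmtsB

/-!
# Multiples of the permanent in bounded depth: polynomials in one variable
-/

namespace Pool.Agent.Work.MP_499dc6_lc.MU

open MvPolynomial Finset

theorem pr_TH : S_TH := by
  intro K σ _ _ v0 f
  constructor
  · have h : ((Polynomial.evalRingHom (X v0 : MvPolynomial σ K)).comp (Th v0)) =
        RingHom.id (MvPolynomial σ K) := by
      refine MvPolynomial.ringHom_ext (fun r => ?_) (fun v => ?_)
      · simp [Th]
      · simp only [RingHom.comp_apply, Th, coe_eval₂Hom, eval₂_X, Polynomial.coe_evalRingHom,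
          RingHom.id_apply]
        split_ifs with h
        · rw [Polynomial.eval_X, h]
        · rw [Polynomial.eval_C]
    exact congrArg (fun g : MvPolynomial σ K →+* MvPolynomial σ K => g f) h
  · intro S _ b τ
    have h : ((Polynomial.eval₂RingHom b τ).comp (Th v0)) =
        eval₂Hom (b.comp C) (fun v => if v = v0 then τ else b (X v)) := by
      refine MvPolynomial.ringHom_ext (fun r => ?_) (fun v => ?_)
      · simp [Th]
      · simp only [RingHom.comp_apply, Th, coe_eval₂Hom, eval₂_X, Polynomial.coe_eval₂RingHom]
        split_ifs with h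
        · rw [Polynomial.eval₂_X]
        · rw [Polynomial.eval₂_C]
    exact congrArg (fun g : MvPolynomial σ K →+* S => g f) h

end Pool.Agent.Work.MP_499dc6_lc.MU
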