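import Pool.Agent.Work.MP_499dc6_lc.MU.StmtsC

/-!
# Item TT of block MU: the root of the linear factor as an integral power series
-/

namespace Pool.Agent.Work.MP_499dc6_lc.MU

open MvPolynomial Finset

open scoped PowerSeries

theorem TT_coeff (κ V : Type) [Field κ] (f : MvPolynomial V κ⟦X⟧) (m : V →₀ ℕ) :
    MvPowerSeries.coeff m (cs κ V f) = ph κ (MvPolynomial.coeff m f) := by
  simp only [cs, RingHom.comp_apply, MvPolynomial.coeToMvPowerSeries.ringHom_apply,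
    MvPolynomial.coeff_coe, MvPolynomial.coeff_map]

theorem TT_C (κ V : Type) [Field κ] (a : κ⟦X⟧) :
    cs κ V (C a) = MvPowerSeries.C (ph κ a) := by
  simp only [cs, RingHom.comp_apply, MvPolynomial.coeToMvPowerSeries.ringHom_apply,
    MvPolynomial.map_C, MvPolynomial.coe_C]

theorem TT_bdd (κ V : Type) [Field κ] (f : MvPolynomial V κ⟦X⟧) (d : ℕ) :
    Bdd 0 d (cs κ V f) := by
  intro m _
  exact ⟨MvPolynomial.coeff m f, by rw [pow_zero, one_mul, TT_coeff]⟩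

theorem TT_unit (κ : Type) [Field κ] (c₁ : κ) (hc : c₁ ≠ 0) (r : κ⟦X⟧) :
    Ou 0 (ph κ (PowerSeries.C c₁ + PowerSeries.X * r)) := by
  have hu : IsUnit (PowerSeries.C c₁ + PowerSeries.X * r) := by
    rw [PowerSeries.isUnit_iff_constantCoeff]
    simpa using hc
  obtain ⟨b, hb⟩ := hu.exists_left_inv
  exact ⟨b, by rw [← map_mul, hb, map_one, pow_zero]⟩

theorem pr_TT (hBD : S_BD) (hBI : S_BI) : S_TT := by
  intro κ V _ G R0 R1 c₀ c₁ hc
  set B1 : MvPolynomial V κ⟦X⟧ := C (PowerSeries.C c₁) + C PowerSeries.X * R1 with hB1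
  set B0 : MvPolynomial V κ⟦X⟧ := C (PowerSeries.C c₀) * G + C PowerSeries.X * R0 with hB0
  have hcc : MvPowerSeries.constantCoeff (cs κ V B1) =
      ph κ (PowerSeries.C c₁ + PowerSeries.X * MvPolynomial.coeff 0 R1) := by
    rw [← MvPowerSeries.coeff_zero_eq_constantCoeff_apply, TT_coeff, hB1, coeff_add, coeff_C_mul,
      MvPolynomial.coeff_zero_C]
  have hOu : Ou 0 (MvPowerSeries.constantCoeff (cs κ V B1)) := by
    rw [hcc]; exact TT_unit κ c₁ hc _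
  have hne : MvPowerSeries.constantCoeff (cs κ V B1) ≠ 0 := by
    obtain ⟨b, hb⟩ := hOu
    intro h0
    rw [h0, mul_zero, pow_zero] at hb
    exact zero_ne_one hb
  have hT : cs κ V B1 * (-cs κ V B0 * (cs κ V B1)⁻¹) = -cs κ V B0 := by
    calc cs κ V B1 * (-cs κ V B0 * (cs κ V B1)⁻¹)
        = -cs κ V B0 * (cs κ V B1 * (cs κ V B1)⁻¹) := by ring
      _ = -cs κ V B0 := by rw [MvPowerSeries.mul_inv_cancel _ hne, mul_one]
  have hTb : ∀ d, Bdd 0 d (-cs κ V B0 * (cs κ V B1)⁻¹) := by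
    intro d
    have h1 := hBI κ V 0 d (cs κ V B1) (TT_bdd κ V B1 d) hOu
    rw [zero_mul] at h1
    have h2 := (hBD κ V 0 0 d (cs κ V B0) 0 0).2.2.1 (TT_bdd κ V B0 d)
    exact (hBD κ V 0 0 d (-cs κ V B0) (cs κ V B1)⁻¹ 0).2.2.2.1 h2 h1
  generalize -cs κ V B0 * (cs κ V B1)⁻¹ = T at hT hTb
  refine ⟨T, hT, hOu, ?_, hTb, ?_⟩
  · obtain ⟨b, hb⟩ := (hBD κ V 0 0 0 T 0 0).2.2.2.2.2.2.2.2 (hTb 0) 0 (by simp)
    exact ⟨b, by rw [← MvPowerSeries.coeff_zero_eq_constantCoeff_apply]; exact hb⟩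
  · intro m
    have h3 : Bdd 0 m.degree (cs κ V R1 * T) :=
      (hBD κ V 0 0 m.degree (cs κ V R1) T 0).2.2.2.1 (TT_bdd κ V R1 _) (hTb _)
    obtain ⟨b, hb⟩ :=
      (hBD κ V 0 0 m.degree (cs κ V R1 * T) 0 0).2.2.2.2.2.2.2.2 h3 m le_rfl
    have hc1 : cs κ V B1 = MvPowerSeries.C (ph κ (PowerSeries.C c₁)) +
        MvPowerSeries.C (ph κ PowerSeries.X) * cs κ V R1 := by
      rw [hB1, map_add, map_mul, TT_C, TT_C]
    have hc0 : cs κ V B0 = MvPowerSeries.C (ph κ (PowerSeries.C c₀)) * cs κ V G +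
        MvPowerSeries.C (ph κ PowerSeries.X) * cs κ V R0 := by
      rw [hB0, map_add, map_mul, map_mul, TT_C, TT_C]
    have h4 := congrArg (MvPowerSeries.coeff m) hT
    rw [hc1, hc0, add_mul, mul_assoc, map_add, map_neg, map_add, MvPowerSeries.coeff_C_mul,
      MvPowerSeries.coeff_C_mul, MvPowerSeries.coeff_C_mul, MvPowerSeries.coeff_C_mul, TT_coeff,
      TT_coeff, hb] at h4
    have h5 : ph κ (PowerSeries.C c₁⁻¹) * ph κ (PowerSeries.C c₁) = 1 := by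
      rw [← map_mul, ← map_mul, inv_mul_cancel₀ hc, map_one, map_one]
    refine ⟨-(PowerSeries.C c₁⁻¹ * (MvPolynomial.coeff m R0 + b)), ?_⟩
    have h6 : MvPowerSeries.coeff m T = ph κ (PowerSeries.C c₁⁻¹) *
        (ph κ (PowerSeries.C c₁) * MvPowerSeries.coeff m T) := by
      rw [← mul_assoc, h5, one_mul]
    have h7 : PowerSeries.C (-(c₀ / c₁)) = -(PowerSeries.C c₁⁻¹ * PowerSeries.C c₀) := by
      rw [← map_mul, ← map_neg]
      congr 1
      rw [div_eq_inv_mul]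
    rw [h6, h7]
    simp only [map_add, map_neg, map_mul]
    linear_combination (ph κ (PowerSeries.C c₁⁻¹)) * h4

end Pool.Agent.Work.MP_499dc6_lc.MU
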