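import Pool.Agent.Work.MP_499dc6_lc.MU.StmtsC

/-!
# Multiples of the permanent in bounded depth: the algebraic side (assembly)
-/

namespace Pool.Agent.Work.MP_499dc6_lc.MU

open MvPolynomial Finset
open Pool.Agent.Work.MP_499dc6_lc.CD (dY dZ IsBi BB mat)
open Pool.Agent.Work.MP_499dc6_lc.D3
open Pool.Agent.Work.MP_499dc6_lc.Fib

open scoped PowerSeries

theorem UA_ph_inj (κ : Type) [Field κ] : Function.Injective (ph κ) :=
  IsFractionRing.injective κ⟦X⟧ (LaurentSeries κ)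

theorem UA_eps (κ : Type) [Field κ] : eps κ ≠ 0 := by
  intro h
  have h1 : ph κ PowerSeries.X = ph κ 0 := by rw [map_zero]; exact h
  exact PowerSeries.X_ne_zero (UA_ph_inj κ h1)

theorem UA_cs_coeff {κ V : Type} [Field κ] (f : MvPolynomial V κ⟦X⟧) (m : V →₀ ℕ) :
    MvPowerSeries.coeff m (cs κ V f) = ph κ (coeff m f) := by
  unfold cs
  rw [RingHom.comp_apply]
  change MvPowerSeries.coeff m
    ((MvPolynomial.map (ph κ) f : MvPolynomial V (LaurentSeries κ)) :
      MvPowerSeries V (LaurentSeries κ)) = _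
  rw [MvPolynomial.coeff_coe, coeff_map]

theorem UA_cs_bdd {κ V : Type} [Field κ] (f : MvPolynomial V κ⟦X⟧) (d : ℕ) :
    Bdd 0 d (cs κ V f) := by
  intro m _
  exact ⟨coeff m f, by rw [pow_zero, one_mul, UA_cs_coeff]⟩

theorem UA_cs_const {κ V : Type} [Field κ] (f : MvPolynomial V κ⟦X⟧) :
    MvPowerSeries.constantCoeff (cs κ V f) = ph κ (constantCoeff f) := by
  rw [← MvPowerSeries.coeff_zero_eq_constantCoeff_apply, UA_cs_coeff]
  rfl

/-- Evaluation at the point, over the constants. -/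
theorem UA_ev {κ σ V : Type} [Field κ] [DecidableEq σ] [DecidableEq V] (hTH : S_TH)
    (θ : σ → MvPolynomial V κ) (A : Finset V) (c : σ → κ) (v0 : σ) (t : LaurentSeries κ)
    (f : MvPolynomial σ κ) :
    ((aeval (et θ A c v0 t) (MvPolynomial.map (ph κ) (MvPolynomial.map PowerSeries.C f)) :
      MvPolynomial V (LaurentSeries κ)) : MvPowerSeries V (LaurentSeries κ)) =
      (Th v0 f).eval₂ ((cs κ V).comp (bh θ A c)) (MvPowerSeries.C t) := by
  rw [(hTH κ σ v0 f).2 _ ((cs κ V).comp (bh θ A c)) (MvPowerSeries.C t)]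
  let h1 : MvPolynomial σ κ →+* MvPowerSeries V (LaurentSeries κ) :=
    (MvPolynomial.coeToMvPowerSeries.ringHom).comp
      (((aeval (et θ A c v0 t)).toRingHom).comp
        ((MvPolynomial.map (ph κ)).comp (MvPolynomial.map PowerSeries.C)))
  let h2 : MvPolynomial σ κ →+* MvPowerSeries V (LaurentSeries κ) :=
    eval₂Hom (((cs κ V).comp (bh θ A c)).comp C)
      (fun v => if v = v0 then MvPowerSeries.C t else ((cs κ V).comp (bh θ A c)) (X v))
  have key : h1 = h2 := by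
    refine MvPolynomial.ringHom_ext (fun r => ?_) (fun v => ?_)
    · simp only [h1, h2, RingHom.comp_apply, map_C, coe_eval₂Hom, eval₂_C]
      unfold cs bh
      simp only [RingHom.comp_apply, coe_eval₂Hom, eval₂_C, map_C]
      congr 1
      simp
    · simp only [h1, h2, RingHom.comp_apply, map_X, coe_eval₂Hom, eval₂_X]
      unfold cs bh
      simp only [RingHom.comp_apply, coe_eval₂Hom, eval₂_X]
      have e1 : (aeval (et θ A c v0 t)).toRingHom
          (X v : MvPolynomial σ (LaurentSeries κ)) = et θ A c v0 t v := by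
        simp
      rw [e1]
      unfold et
      split_ifs with h
      · simp
      · rfl
  exact congrArg (fun g : MvPolynomial σ κ →+* MvPowerSeries V (LaurentSeries κ) => g f) key

/-- Evaluation of an integral polynomial at an integral point. -/
theorem UA_int {κ σ V : Type} [Field κ] [DecidableEq σ] [DecidableEq V]
    (θ : σ → MvPolynomial V κ) (A : Finset V) (c : σ → κ) (v0 : σ) (t : κ⟦X⟧)
    (R : MvPolynomial σ κ⟦X⟧) (d : ℕ) :
    Bdd 0 d ((aeval (et θ A c v0 (ph κ t)) (MvPolynomial.map (ph κ) R) :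
      MvPolynomial V (LaurentSeries κ)) : MvPowerSeries V (LaurentSeries κ)) := by
  have h1 : aeval (et θ A c v0 (ph κ t)) (MvPolynomial.map (ph κ) R) =
      MvPolynomial.map (ph κ) (aeval (fun v => if v = v0 then (C t : MvPolynomial V κ⟦X⟧)
        else bp θ A c v) R) := by
    induction R using MvPolynomial.induction_on with
    | C a => simp
    | add p q hp hq => simp only [map_add, hp, hq]
    | mul_X p v hp =>
      simp only [map_mul, hp, map_X, aeval_X]
      congr 1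
      unfold et
      split_ifs with h
      · rw [map_C]
      · rfl
  rw [h1]
  exact UA_cs_bdd _ d

/-- A polynomial over the power series is congruent to its reduction. -/
theorem UA_P1 {κ : Type} [Field κ] {V : Type} (c : κ) (R : MvPolynomial V κ⟦X⟧)
    (h : (0 : MvPolynomial V κ⟦X⟧) = C (PowerSeries.C c) + C PowerSeries.X * R) : c = 0 := by
  have h1 := congrArg (fun f : MvPolynomial V κ⟦X⟧ =>
    PowerSeries.constantCoeff (MvPolynomial.constantCoeff f)) h
  simp only [map_zero, map_add, map_mul, MvPolynomial.constantCoeff_C,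
    PowerSeries.constantCoeff_C, PowerSeries.constantCoeff_X, zero_mul, add_zero] at h1
  exact h1.symm

theorem UA_Th_inj {κ σ : Type} [Field κ] [DecidableEq σ] (hTH : S_TH) (v0 : σ)
    (f : MvPolynomial σ κ) (hf : f ≠ 0) : Th v0 f ≠ 0 := by
  intro h
  apply hf
  have h1 := (hTH κ σ v0 f).1
  rw [h] at h1
  simpa using h1.symm

/-- **UA.** -/
theorem pr_UA (hTH : S_TH) (hRM : S_RM) (hNV : S_NV) (hVD : S_VD) (hBD : S_BD) (hOU : S_OU)
    (hMC : S_MC) (hSC : S_SC) (hPL : S_PL) (hBP : S_BP) (hTT : S_TT) (hET : S_ET) : S_UA := by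
  intro κ _ _ _ N n kk H A hn hN hH
  obtain ⟨v0, θ, κr, κc, c₀, c₁, hc0, hc1, hθ, hkr, hkc, hperm⟩ := hSC κ N n kk hn hN
  obtain ⟨P0, hP0⟩ : ∃ P0, P0 = (Th v0 (gperm κ N)).coeff 0 := ⟨_, rfl⟩
  obtain ⟨P1, hP1⟩ : ∃ P1, P1 = (Th v0 (gperm κ N)).coeff 1 := ⟨_, rfl⟩
  have hP1n : P1 ≠ 0 := by
    intro h
    obtain ⟨R0, R1, -, h1⟩ := hBP κ N n kk v0 θ c₀ c₁ A 0 hperm
    rw [← hP1, h, map_zero] at h1
    exact hc1 (UA_P1 _ _ h1)
  have hThp : Th v0 (gperm κ N) = Polynomial.C P1 * Polynomial.X + Polynomial.C P0 := by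
    rw [hP0, hP1]
    exact hPL κ N v0
  have hgp : gperm κ N ≠ 0 := by
    intro h
    rw [h, map_zero] at hP1
    exact hP1n (by rw [hP1]; rfl)
  have hF0 : H * gperm κ N ≠ 0 := mul_ne_zero hH hgp
  obtain ⟨F0, hF0e⟩ : ∃ F0, F0 = H * gperm κ N := ⟨_, rfl⟩
  rw [← hF0e] at hF0 ⊢
  have hThF : Th v0 F0 = Th v0 H * (Polynomial.C P1 * Polynomial.X + Polynomial.C P0) := by
    rw [hF0e, map_mul, hThp]
  obtain ⟨μ, m₀, D, W, Q, Q2, hμ, hD, hW, hDF, hQ⟩ :=
    hRM (MvPolynomial (Fin N × Fin N) κ) P0 P1 (Th v0 H) (Th v0 F0) hP1n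
      (UA_Th_inj hTH v0 F0 hF0) hThF
  obtain ⟨nW, hnW⟩ := hNV κ N n kk v0 θ κr κc A (D * W) hθ hkr hkc (mul_ne_zero hD hW)
  obtain ⟨d, hd⟩ : ∃ d, d = 2 * (n + kk) + 2 * n := ⟨_, rfl⟩
  have hd1 : 1 ≤ d := by omega
  rw [← hd]
  obtain ⟨th, hth⟩ : ∃ th, th = nW * (d + 1) + 1 := ⟨_, rfl⟩
  obtain ⟨N', hN'⟩ : ∃ N', N' = μ * (th * (d + 1)) + nW * (d + 1) + 1 := ⟨_, rfl⟩
  refine ⟨κr, κc, N', by omega, fun M G => ?_⟩
  obtain ⟨c, hOuc, hz⟩ := hnW M G
  obtain ⟨R0, R1, hB0, hB1⟩ := hBP κ N n kk v0 θ c₀ c₁ A c hperm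
  rw [← hP0] at hB0
  rw [← hP1] at hB1
  obtain ⟨T, hT1, hT2, ⟨a0, hT3⟩, hT4, hT5⟩ :=
    hTT κ (VV n kk) (PA κ⟦X⟧ n kk A) R0 R1 c₀ c₁ hc1
  rw [← hB1, ← hB0] at hT1
  rw [← hB1] at hT2
  obtain ⟨z, hzi, hz0, hzG⟩ := hz (d + 1) (ph κ a0) (eps κ ^ th) (pow_ne_zero _ (UA_eps κ))
  obtain ⟨ω, hω⟩ := hVD κ d z hzi hz0
  obtain ⟨e0, he0⟩ : ∃ e0 : κ, e0 = (μ : κ) * d * (c₀ / c₁) := ⟨_, rfl⟩
  have he0n : e0 ≠ 0 := by
    rw [he0]
    refine mul_ne_zero (mul_ne_zero ?_ ?_) (div_ne_zero hc0 hc1)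
    · exact_mod_cast (by omega : μ ≠ 0)
    · exact_mod_cast (by omega : d ≠ 0)
  refine ⟨fun i => et θ A c v0 (tp a0 (z i) th), fun i => kc κ (ω i / e0) * eps κ ^ th,
    fun i => (hET κ N n kk v0 θ κr κc A c _ hθ hkr hkc).1,
    fun i => (hET κ N n kk v0 θ κr κc A c _ hθ hkr hkc).2.1,
    fun i => (hET κ N n kk v0 θ κr κc A c _ hθ hkr hkc).2.2.1,
    fun i j hj => hzG i j hj, fun R => ?_⟩
  -- the power series
  obtain ⟨b, hb⟩ : ∃ b : MvPolynomial (Fin N × Fin N) κ →+* MvPowerSeries (VV n kk)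
    (LaurentSeries κ), b = (cs κ (VV n kk)).comp (bh θ A c) := ⟨_, rfl⟩
  have hbc : ∀ f, b f = cs κ (VV n kk) (bh θ A c f) := fun f => by rw [hb]; rfl
  have htp : ∀ i, tp a0 (z i) th = ph κ (a0 + PowerSeries.C (z i) * PowerSeries.X ^ th) := by
    intro i
    unfold tp kc eps
    rw [map_add, map_mul, map_pow]
    rfl
  let Φ : Fin (d + 1) → MvPolynomial (VV n kk) (LaurentSeries κ) := fun i =>
    aeval (et θ A c v0 (tp a0 (z i) th)) (MvPolynomial.map (ph κ)
      (MvPolynomial.map PowerSeries.C F0 + C (PowerSeries.X ^ N') * R))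
  let Rr : Fin (d + 1) → MvPowerSeries (VV n kk) (LaurentSeries κ) := fun i =>
    ((aeval (et θ A c v0 (tp a0 (z i) th)) (MvPolynomial.map (ph κ) R) :
      MvPolynomial (VV n kk) (LaurentSeries κ)) : MvPowerSeries (VV n kk) (LaurentSeries κ))
  have hRr : ∀ i, Bdd 0 d (Rr i) := by
    intro i
    simp only [Rr]
    rw [htp i]
    exact UA_int θ A c v0 _ R d
  have hΦ : ∀ i, ((Φ i : MvPolynomial (VV n kk) (LaurentSeries κ)) :
      MvPowerSeries (VV n kk) (LaurentSeries κ)) =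
      (Th v0 F0).eval₂ b (MvPowerSeries.C (tp a0 (z i) th)) +
        MvPowerSeries.C (eps κ ^ N') * Rr i := by
    intro i
    simp only [Φ, Rr]
    rw [map_add, map_add, map_mul, map_mul, MvPolynomial.coe_add, MvPolynomial.coe_mul,
      UA_ev hTH, hb, map_C, aeval_C, MvPolynomial.algebraMap_eq, MvPolynomial.coe_C, map_pow]
    rfl
  -- the root
  have hroot : ∀ τ : MvPowerSeries (VV n kk) (LaurentSeries κ),
      b P1 * τ + b P0 = b P1 * (τ - T) := by
    intro τ
    rw [mul_sub, hbc P1, hbc P0, hT1]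
    ring
  have hrel : ∀ i, b D * ((Φ i : MvPolynomial (VV n kk) (LaurentSeries κ)) :
      MvPowerSeries (VV n kk) (LaurentSeries κ)) =
      (b P1 * (MvPowerSeries.C (tp a0 (z i) th) - T)) ^ μ *
        (Q.map b).eval (MvPowerSeries.C (tp a0 (z i) th)) +
        MvPowerSeries.C (eps κ ^ N') * (b D * Rr i) := by
    intro i
    have h1 := congrArg (Polynomial.eval₂ b (MvPowerSeries.C (tp a0 (z i) th))) hDF
    simp only [Polynomial.eval₂_mul, Polynomial.eval₂_pow, Polynomial.eval₂_add,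
      Polynomial.eval₂_C, Polynomial.eval₂_X] at h1
    rw [hroot] at h1
    rw [hΦ i, mul_add, h1, Polynomial.eval_map]
    ring
  -- orders
  have hint : ∀ f, MvPowerSeries.constantCoeff (b f) =
      ph κ (constantCoeff (bh θ A c f)) := fun f => by rw [hbc, UA_cs_const]
  have hw : Ou nW (MvPowerSeries.constantCoeff ((Q.map b).eval (MvPowerSeries.C (ph κ a0)))) ∧
      MvPowerSeries.constantCoeff (b D) ≠ 0 := by
    have h1 := congrArg (Polynomial.eval₂ b T) hQ
    simp only [Polynomial.eval₂_mul, Polynomial.eval₂_add,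
      Polynomial.eval₂_C, Polynomial.eval₂_X] at h1
    rw [hroot, sub_self, mul_zero, zero_mul, add_zero, map_pow] at h1
    have h2 : MvPowerSeries.constantCoeff (Q.eval₂ b T) =
        MvPowerSeries.constantCoeff ((Q.map b).eval (MvPowerSeries.C (ph κ a0))) := by
      rw [Polynomial.eval_map, Polynomial.hom_eval₂, Polynomial.hom_eval₂, hT3,
        MvPowerSeries.constantCoeff_C]
    have h3 := congrArg (MvPowerSeries.constantCoeff) h1
    rw [map_mul, map_pow, h2] at h3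
    have h4 : MvPowerSeries.constantCoeff (cs κ (VV n kk) (bh θ A c (D * W))) =
        MvPowerSeries.constantCoeff ((Q.map b).eval (MvPowerSeries.C (ph κ a0))) *
          ph κ (constantCoeff (bh θ A c D) * constantCoeff (bh θ A c P1) ^ m₀) := by
      rw [← hbc, map_mul b, map_mul, ← h3, hint D, hint P1, map_mul, map_pow]
      ring
    rw [h4] at hOuc
    refine ⟨(hOU κ nW 0 _ 0 _ 0).2.2.2.2 hOuc, ?_⟩
    have h5 := (hOU κ nW 0 _ 0 0 0).1 hOuc
    intro h6
    apply h5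
    rw [map_mul, ← hint D, h6]
    ring
  obtain ⟨hC1, hC2⟩ := hMC κ (VV n kk) d μ nW th N' T (b P1) (b D) (Q.map b) a0 z ω Rr
    (fun i => ((Φ i : MvPolynomial (VV n kk) (LaurentSeries κ)) :
      MvPowerSeries (VV n kk) (LaurentSeries κ))) hd1 (by omega) (by omega) (hT4 d) hT3
    (by rw [hbc]; exact UA_cs_bdd _ d) (by rw [hbc]; exact hT2)
    (by rw [hbc]; exact UA_cs_bdd _ d) hw.2
    (fun j => by rw [Polynomial.coeff_map, hbc]; exact UA_cs_bdd _ d) hw.1 hz0 hω hRr hrel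
  refine ⟨fun i => ?_, ?_⟩
  · have h1 := hC1 i
    rw [← MvPowerSeries.coeff_zero_eq_constantCoeff_apply, MvPolynomial.coeff_coe] at h1
    exact h1
  · -- the coefficients
    have hsum : ∀ m : VV n kk →₀ ℕ, ∃ a : κ⟦X⟧, m.degree = d →
        ∑ i, kc κ (ω i / e0) * eps κ ^ th * MvPowerSeries.coeff m
          (Lm ((Φ i : MvPolynomial (VV n kk) (LaurentSeries κ)) :
            MvPowerSeries (VV n kk) (LaurentSeries κ))) =
          ph κ (coeff m (PA κ⟦X⟧ n kk A) + PowerSeries.X * a) := by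
      intro m
      by_cases hm : m.degree = d
      swap
      · exact ⟨0, fun h => absurd h hm⟩
      obtain ⟨a, ha⟩ := hC2 m hm
      obtain ⟨a', ha'⟩ := hT5 m
      refine ⟨PowerSeries.C e0⁻¹ * (a - (μ : κ⟦X⟧) * (d : κ⟦X⟧) * a'), fun _ => ?_⟩
      have h1 : ∑ i, kc κ (ω i / e0) * eps κ ^ th * MvPowerSeries.coeff m
          (Lm ((Φ i : MvPolynomial (VV n kk) (LaurentSeries κ)) :
            MvPowerSeries (VV n kk) (LaurentSeries κ))) =
          kc κ e0⁻¹ * ∑ i, kc κ (ω i) * eps κ ^ th * MvPowerSeries.coeff m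
          (Lm ((Φ i : MvPolynomial (VV n kk) (LaurentSeries κ)) :
            MvPowerSeries (VV n kk) (LaurentSeries κ))) := by
        rw [Finset.mul_sum]
        refine Finset.sum_congr rfl fun i _ => ?_
        rw [div_eq_mul_inv, map_mul]
        ring
      have h2 : ∑ i, kc κ (ω i) * eps κ ^ th * MvPowerSeries.coeff m
          (Lm ((Φ i : MvPolynomial (VV n kk) (LaurentSeries κ)) :
            MvPowerSeries (VV n kk) (LaurentSeries κ))) =
          ph κ (PowerSeries.X * a - (μ : κ⟦X⟧) * (d : κ⟦X⟧) *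
            (PowerSeries.C (-(c₀ / c₁)) * coeff m (PA κ⟦X⟧ n kk A) + PowerSeries.X * a')) := by
        rw [map_sub, map_mul (ph κ) PowerSeries.X a, map_mul (ph κ) ((μ : κ⟦X⟧) * (d : κ⟦X⟧)), ← ha',
          map_mul, map_natCast, map_natCast]
        unfold eps at ha
        unfold eps
        rw [← ha]
        ring
      rw [h1, h2]
      unfold kc
      rw [RingHom.comp_apply, ← map_mul]
      congr 1
      have h3 : (PowerSeries.C e0⁻¹ : κ⟦X⟧) * ((μ : κ⟦X⟧) * (d : κ⟦X⟧) *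
          PowerSeries.C (c₀ / c₁)) = 1 := by
        have h4 : (μ : κ⟦X⟧) * (d : κ⟦X⟧) * PowerSeries.C (c₀ / c₁) = PowerSeries.C e0 := by
          rw [he0, map_mul, map_mul, map_natCast, map_natCast]
        rw [h4, ← map_mul, inv_mul_cancel₀ he0n, map_one]
      rw [map_neg]
      linear_combination (coeff m (PA κ⟦X⟧ n kk A)) * h3
    choose r hr using hsum
    refine ⟨∑ m ∈ Finset.finsuppAntidiag (Finset.univ : Finset (VV n kk)) d, monomial m (r m),
      fun m hm => ?_⟩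
    rw [hr m hm, coeff_map, coeff_add, coeff_C_mul, coeff_sum]
    simp only [coeff_monomial]
    rw [Finset.sum_ite_eq' _ m, if_pos]
    rw [Finset.mem_finsuppAntidiag]
    refine ⟨?_, Finset.subset_univ _⟩
    rw [← hm, Finsupp.degree_eq_sum]

end Pool.Agent.Work.MP_499dc6_lc.MU
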