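import Pool.Agent.Work.MP_499dc6_lc.MU.StmtsC

/-!
# Multiples of the permanent in bounded depth: the upper bound (item UP)
-/

namespace Pool.Agent.Work.MP_499dc6_lc.MU

open MvPolynomial Finset
open Pool.Agent.Work.MP_499dc6_lc.CD (dY dZ IsBi BB mat)
open Pool.Agent.Work.MP_499dc6_lc.D3
open Pool.Agent.Work.MP_499dc6_lc.Fib

open scoped PowerSeries

/-- The permanent is mapped to the permanent. -/
theorem UP_gperm {R S : Type} [CommRing R] [CommRing S] (φ : R →+* S) (N : ℕ) :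
    MvPolynomial.map φ (gperm R N) = gperm S N := by
  unfold gperm
  rw [CD.map_permanent' (MvPolynomial.map φ)]
  congr 1
  ext i j
  simp

theorem UP_degree {Y Z : Type} [Fintype Y] [Fintype Z] (m : Y ⊕ Z →₀ ℕ) :
    m.degree = dY m + dZ m := by
  rw [Finsupp.degree_eq_sum, Fintype.sum_sum_type]
  rfl

/-- The image of the gate which computes the multiple. -/
theorem UP_image {k κ : Type} [Field k] [Field κ] (j : k →+* κ) (N N' : ℕ)
    (χ0 : k⟦X⟧ →+* κ⟦X⟧) (χ : LaurentSeries k →+* LaurentSeries κ)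
    (hχ : ∀ a, χ (ph k a) = ph κ (χ0 a))
    (hC : ∀ a, χ0 (PowerSeries.C a) = PowerSeries.C (j a))
    (hX : χ0 PowerSeries.X = PowerSeries.X ^ N')
    (H : MvPolynomial (Fin N × Fin N) k) (R : MvPolynomial (Fin N × Fin N) k⟦X⟧) :
    MvPolynomial.map χ (MvPolynomial.map (algebraMap k⟦X⟧ (LaurentSeries k))
      (MvPolynomial.map PowerSeries.C H * gperm k⟦X⟧ N + C PowerSeries.X * R)) =
    MvPolynomial.map (ph κ) (MvPolynomial.map PowerSeries.C (MvPolynomial.map j H * gperm κ N) +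
      C (PowerSeries.X ^ N') * MvPolynomial.map χ0 R) := by
  have h1 : χ.comp (algebraMap k⟦X⟧ (LaurentSeries k)) = (ph κ).comp χ0 := by
    refine RingHom.ext fun a => ?_
    exact hχ a
  have h2 : χ0.comp PowerSeries.C = (PowerSeries.C : κ →+* κ⟦X⟧).comp j := by
    refine RingHom.ext fun a => ?_
    exact hC a
  rw [MvPolynomial.map_map, h1, ← MvPolynomial.map_map]
  congr 1
  rw [map_add, map_mul, map_mul, map_mul, map_C, hX, MvPolynomial.map_map, h2,
    ← MvPolynomial.map_map, UP_gperm, UP_gperm]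

theorem pr_UP (hUA : S_UA) (hLU : S_LU) (hXI : S_XI) (hMP : S_MP) : S_UP := by
  intro k _ _ N s h r e F d i0 H R n kk P ρ t hF hd hH hFi0 hkk1 h3k hN12 hPars hP2 A
  have hc0 : CharZero (AlgebraicClosure k) :=
    charZero_of_injective_algebraMap (algebraMap k (AlgebraicClosure k)).injective
  have hcl : CharZero (LaurentSeries (AlgebraicClosure k)) := CD.charZero_laurent _
  have hn0 : 0 < n := by omega
  have hH' : MvPolynomial.map (algebraMap k (AlgebraicClosure k)) H ≠ 0 := by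
    intro h0
    apply hH
    apply MvPolynomial.map_injective _ (algebraMap k (AlgebraicClosure k)).injective
    rw [h0, map_zero]
  obtain ⟨κr, κc, N', hN', hUA1⟩ := hUA (AlgebraicClosure k) N n kk
    (MvPolynomial.map (algebraMap k (AlgebraicClosure k)) H) A hn0 hN12 hH'
  obtain ⟨χ0, χ, hχ, hχC, hχX⟩ := hXI k (AlgebraicClosure k)
    (algebraMap k (AlgebraicClosure k)) N' hN'
  have hF' := hMP _ _ χ N s r e F d hF
  obtain ⟨F', hF'def⟩ : ∃ F' : Fin s → MvPolynomial (Fin N × Fin N)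
      (LaurentSeries (AlgebraicClosure k)), F' = fun i => MvPolynomial.map χ (F i) := ⟨_, rfl⟩
  rw [← hF'def] at hF'
  have hF'i0 : F' i0 = MvPolynomial.map (ph (AlgebraicClosure k)) (MvPolynomial.map PowerSeries.C
      (MvPolynomial.map (algebraMap k (AlgebraicClosure k)) H * gperm (AlgebraicClosure k) N) +
      C (PowerSeries.X ^ N') * MvPolynomial.map χ0 R) := by
    rw [hF'def]
    show MvPolynomial.map χ (F i0) = _
    rw [hFi0]
    exact UP_image _ N N' χ0 χ hχ hχC hχX H R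
  obtain ⟨L, hL⟩ := Rc_sub (Y := CY n kk × CY n kk) (Z := CZ n × CZ n) r e F' d hF'
  obtain ⟨G2, hG2⟩ : ∃ G2 : Fin s ⊕ (Fin s × Fin r) → MvPolynomial (Fin N × Fin N)
      (LaurentSeries (AlgebraicClosure k)), G2 = Sum.elim F' (fun p => L p.1 p.2) := ⟨_, rfl⟩
  obtain ⟨η, lam, hη1, hηr, hηc, hηG, hηR⟩ := hUA1 (Fintype.card (Fin s ⊕ (Fin s × Fin r)))
    (fun a => G2 ((Fintype.equivFin _).symm a))
  obtain ⟨hΦ0, R', hR'⟩ := hηR (MvPolynomial.map χ0 R)
  rw [← hF'i0] at hΦ0 hR'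
  have hηG2 : ∀ i p, G2 p ≠ 0 → constantCoeff (aeval (η i) (G2 p)) ≠ 0 := by
    intro i p hp
    have h5 := hηG i (Fintype.equivFin _ p)
    simp only [Equiv.symm_apply_apply] at h5
    exact h5 hp
  have hnz : ∀ i j, aeval (η i) (F' j) = 0 ∨ constantCoeff (aeval (η i) (F' j)) ≠ 0 := by
    intro i j
    by_cases h0 : F' j = 0
    · left
      rw [h0, map_zero]
    · right
      have h5 := hηG2 i (Sum.inl j)
      rw [hG2, Sum.elim_inl] at h5
      exact h5 h0
  have hnzL : ∀ i j a, aeval (η i) (L j a) = 0 ∨ constantCoeff (aeval (η i) (L j a)) ≠ 0 := by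
    intro i j a
    by_cases h0 : L j a = 0
    · left
      rw [h0, map_zero]
    · right
      have h5 := hηG2 i (Sum.inr (j, a))
      rw [hG2, Sum.elim_inr] at h5
      exact h5 h0
  obtain ⟨a, ha⟩ : ∃ a, a = 2 * (n + kk) := ⟨_, rfl⟩
  obtain ⟨b, hb⟩ : ∃ b, b = 2 * n := ⟨_, rfl⟩
  obtain ⟨be, hbe⟩ : ∃ be : ℝ, be = Real.log (3 / 2) * (n + kk) / n := ⟨_, rfl⟩
  have hPA := (pr_PA n kk A).2.1 (AlgebraicClosure k)⟦X⟧
  rw [← ha, ← hb, ← hbe] at hPars
  rw [← ha, ← hb] at hP2 hPA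
  rw [← ha, ← hb, ← hbe]
  simp only [← ha, ← hb] at hR'
  have hbe1 : Real.log (3 / 2) ≤ be := by
    have hn : (0 : ℝ) < n := by exact_mod_cast hn0
    have hl : 0 ≤ Real.log (3 / 2 : ℝ) := Real.log_nonneg (by norm_num)
    rw [hbe, le_div_iff₀ hn]
    have : (0 : ℝ) ≤ kk := Nat.cast_nonneg _
    nlinarith
  have hP0 : 0 ≤ P := le_trans (by positivity) hP2
  have hw : ∀ i, ∃ w : ℕ → ℕ → MvPolynomial (VV n kk) (LaurentSeries (AlgebraicClosure k)),
      LD (a + b) (aeval (η i) (F' i0)) w ∧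
      BB (Real.log (3 / 2)) be (w a b) (P * Real.exp (-(ρ h * ((a + b : ℕ) : ℝ)))) := by
    intro i
    have hInd := Rc_ind (CY n kk × CY n kk) (CZ n × CZ n) (LaurentSeries (AlgebraicClosure k)) be P
      s r e h (a + b) ρ t (fun j => aeval (η i) (F' j)) d hbe1 hPars hP2
      (hL (η i) κr κc (hη1 i) (hηr i) (hηc i) (hnzL i)) hd (hnz i)
    obtain ⟨w, hw1, hw2⟩ := (hInd i0).2
    refine ⟨w, hw1, BB.mono (hw2 a b (by omega) le_rfl) ?_⟩
    have h5 := Up_rho hPars (d i0) (hd i0)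
    gcongr
  choose w hwLD hwBB using hw
  refine ⟨bc a b R', ?_⟩
  have hkey : MvPolynomial.map (algebraMap (AlgebraicClosure k)⟦X⟧
      (LaurentSeries (AlgebraicClosure k)))
      (PA (AlgebraicClosure k)⟦X⟧ n kk A + C PowerSeries.X * bc a b R') =
      ∑ i, C (lam i) * w i a b := by
    refine MvPolynomial.ext _ _ fun m => ?_
    rw [coeff_map, coeff_add, coeff_C_mul, coeff_bc, coeff_sum]
    by_cases hm : dY m = a ∧ dZ m = b
    · have h5 := hR' m (by rw [UP_degree, hm.1, hm.2])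
      rw [coeff_map, coeff_add, coeff_C_mul] at h5
      rw [if_pos hm]
      refine Eq.trans h5 ?_
      refine Finset.sum_congr rfl fun i _ => ?_
      rw [coeff_C_mul]
      congr 1
      have h6 := hLU (CY n kk × CY n kk) (CZ n × CZ n) (LaurentSeries (AlgebraicClosure k)) (a + b)
        (aeval (η i) (F' i0)) (w i) (hwLD i) (hΦ0 i) m (by rw [hm.1, hm.2])
      rw [hm.1, hm.2] at h6
      exact h6.symm
    · rw [if_neg hm, mul_zero, add_zero]
      have h7 : coeff m (PA (AlgebraicClosure k)⟦X⟧ n kk A) = 0 := by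
        by_contra h8
        exact hm (hPA m h8)
      rw [h7, map_zero]
      refine (Finset.sum_eq_zero fun i _ => ?_).symm
      rw [coeff_C_mul]
      have h8 : coeff m (w i a b) = 0 := by
        by_contra h9
        exact hm ((hwLD i).2.1 a b m h9)
      rw [h8, mul_zero]
  rw [hkey]
  have h9 := BB_fin_sum (fun i => C (lam i) * w i a b)
    fun i => CD.pr_BBsmul _ _ _ _ _ _ _ (lam i) (hwBB i)
  refine BB.mono h9 (le_of_eq ?_)
  rw [← ha, ← hb]
  ring

end Pool.Agent.Work.MP_499dc6_lc.MU
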