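import Pool.Agent.Work.MP_499dc6_lc.MU.StmtsB

/-!
# Multiples of the permanent in bounded depth, item VD: the weights
-/

namespace Pool.Agent.Work.MP_499dc6_lc.MU

open MvPolynomial Finset

theorem pr_VD : S_VD := by
  intro κ _ d z hz _
  have hv : Function.Injective (fun i => (z i)⁻¹) := fun i j h => hz (inv_injective h)
  have hdet : (Matrix.vandermonde (fun i => (z i)⁻¹)).det ≠ 0 :=
    Matrix.det_vandermonde_ne_zero_iff.mpr hv
  refine ⟨Matrix.vecMul (fun j : Fin (d + 1) => if (j : ℕ) = 1 then (1 : κ) else 0)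
    (Matrix.vandermonde (fun i => (z i)⁻¹))⁻¹, fun j hj => ?_⟩
  have h1 : Matrix.vecMul (Matrix.vecMul (fun j : Fin (d + 1) => if (j : ℕ) = 1 then (1 : κ) else 0)
      (Matrix.vandermonde (fun i => (z i)⁻¹))⁻¹) (Matrix.vandermonde (fun i => (z i)⁻¹)) =
      fun j : Fin (d + 1) => if (j : ℕ) = 1 then (1 : κ) else 0 := by
    rw [Matrix.vecMul_vecMul, Matrix.nonsing_inv_mul _ (isUnit_iff_ne_zero.mpr hdet),
      Matrix.vecMul_one]
  exact congrFun h1 ⟨j, by omega⟩

end Pool.Agent.Work.MP_499dc6_lc.MU
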