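import Pool.Agent.Work.MP_499dc6_lc.MU.StmtsC

/-!
Block MU, item XI: the ramification of the Laurent field.
-/

namespace Pool.Agent.Work.MP_499dc6_lc.MU

open MvPolynomial Finset
open scoped PowerSeries

theorem XI_exp_inj (κ : Type) [Field κ] (N : ℕ) (hN : N ≠ 0) :
    Function.Injective (PowerSeries.expand N hN (R := κ)).toRingHom := by
  intro f g h
  ext n
  have h1 := congrArg (PowerSeries.coeff (N * n)) h
  change PowerSeries.coeff (N * n) (PowerSeries.expand N hN f) =
    PowerSeries.coeff (N * n) (PowerSeries.expand N hN g) at h1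
  rwa [PowerSeries.coeff_expand_mul, PowerSeries.coeff_expand_mul] at h1

theorem XI_map_inj (k κ : Type) [Field k] [Field κ] (j : k →+* κ) :
    Function.Injective (PowerSeries.map j) := by
  intro f g h
  ext n
  have h1 := congrArg (PowerSeries.coeff n) h
  rw [PowerSeries.coeff_map, PowerSeries.coeff_map] at h1
  exact j.injective h1

theorem XI_ph_inj (κ : Type) [Field κ] : Function.Injective (ph κ) :=
  IsFractionRing.injective κ⟦X⟧ (LaurentSeries κ)

theorem pr_XI : S_XI := by
  intro k κ _ _ j N' hN'
  have hN0 : N' ≠ 0 := by omega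
  refine ⟨(PowerSeries.expand N' hN0 (R := κ)).toRingHom.comp (PowerSeries.map j), ?_⟩
  have hinj : Function.Injective ((ph κ).comp
      ((PowerSeries.expand N' hN0 (R := κ)).toRingHom.comp (PowerSeries.map j))) := by
    intro f g h
    exact XI_map_inj k κ j (XI_exp_inj κ N' hN0 (XI_ph_inj κ h))
  refine ⟨IsFractionRing.lift (A := k⟦X⟧) (K := LaurentSeries k) hinj, ?_, ?_, ?_⟩
  · intro a
    exact IsFractionRing.lift_algebraMap hinj a
  · intro a
    change PowerSeries.expand N' hN0 (PowerSeries.map j (PowerSeries.C a)) = PowerSeries.C (j a)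
    rw [PowerSeries.map_C, PowerSeries.expand_C]
  · change PowerSeries.expand N' hN0 (PowerSeries.map j PowerSeries.X) = PowerSeries.X ^ N'
    rw [PowerSeries.map_X, PowerSeries.expand_X]

end Pool.Agent.Work.MP_499dc6_lc.MU
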