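import Pool.Agent.Work.MP_499dc6_lc.MU.StmtsA

/-!
# MP_499dc6_lc, block MU, item ZE (helper31): roots of unity with vanishing symmetric functions
-/

set_option autoImplicit false

namespace Pool.Agent.Work.MP_499dc6_lc.MU

open Finset

theorem pr_ZE : S_ZE := by
  classical
  intro κ α _ _ _ _ hg
  set g : ℕ := Fintype.card α with hgdef
  have hg0 : g ≠ 0 := by omega
  set P : Polynomial κ := Polynomial.X ^ g - 1 with hP
  have hPne : P ≠ 0 := by
    rw [hP]
    exact (Polynomial.monic_X_pow_sub_C (1 : κ) hg0).ne_zero
  have hmonic : P.Monic := by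
    rw [hP]
    exact Polynomial.monic_X_pow_sub_C (1 : κ) hg0
  have hdeg : P.natDegree = g := by
    rw [hP]
    exact Polynomial.natDegree_X_pow_sub_C (r := (1 : κ))
  have hcard : Multiset.card P.roots = P.natDegree :=
    (Polynomial.splits_iff_card_roots.mp (IsAlgClosed.splits P))
  have hlen : P.roots.toList.length = g := by
    rw [Multiset.length_toList, hcard, hdeg]
  let e : α ≃ Fin P.roots.toList.length := (Fintype.equivFin α).trans (finCongr hlen.symm)
  let ζ : α → κ := fun i => P.roots.toList.get (e i)
  have hmap : (Finset.univ : Finset α).val.map ζ = P.roots := by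
    have h1 : (Finset.univ : Finset α).val.map ζ
        = ((Finset.univ : Finset (Fin P.roots.toList.length)).val.map
            (fun k => P.roots.toList.get k)) := by
      rw [← Finset.map_univ_equiv e, Finset.map_val, Multiset.map_map]
      rfl
    rw [h1, Fin.univ_val_map, List.ofFn_get, Multiset.coe_toList]
  have hes : ∀ j : ℕ, ∑ S ∈ powersetCard j (Finset.univ : Finset α), ∏ i ∈ S, ζ i
      = P.roots.esymm j := by
    intro j
    rw [← hmap, Finset.esymm_map_val]
  refine ⟨ζ, ?_, ?_⟩
  · rw [Finset.prod_ne_zero_iff]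
    intro i _ h0
    have hmem : ζ i ∈ P.roots := by
      rw [← hmap]
      exact Multiset.mem_map_of_mem _ (Finset.mem_univ_val i)
    rw [h0, Polynomial.mem_roots hPne, Polynomial.IsRoot.def, hP] at hmem
    simp [hg0] at hmem
  · intro j hj hjg
    rw [hes]
    have hk : g - j ≤ P.natDegree := by rw [hdeg]; omega
    have h1 := Polynomial.coeff_eq_esymm_roots_of_card hcard hk
    have hsub : P.natDegree - (g - j) = j := by rw [hdeg]; omega
    rw [hsub, hmonic.leadingCoeff, one_mul] at h1
    have h2 : P.coeff (g - j) = 0 := by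
      rw [hP, Polynomial.coeff_sub, Polynomial.coeff_X_pow, Polynomial.coeff_one,
        if_neg (by omega), if_neg (by omega), sub_zero]
    rw [h2] at h1
    have h3 : ((-1 : κ) ^ j) ≠ 0 := pow_ne_zero _ (by simp)
    rcases mul_eq_zero.mp h1.symm with h4 | h4
    · exact absurd h4 h3
    · exact h4

end Pool.Agent.Work.MP_499dc6_lc.MU
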