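import Pool.Agent.Work.MP_499dc6_lc.MU.I_GX
import Pool.Agent.Work.MP_499dc6_lc.MU.I_GS
import Pool.Agent.Work.MP_499dc6_lc.MU.I_GC
import Pool.Agent.Work.MP_499dc6_lc.MU.I_GD
import Pool.Agent.Work.MP_499dc6_lc.MU.I_GA
import Pool.Agent.Work.MP_499dc6_lc.MU.I_ZE
import Pool.Agent.Work.MP_499dc6_lc.MU.I_SC
import Pool.Agent.Work.MP_499dc6_lc.MU.I_TH
import Pool.Agent.Work.MP_499dc6_lc.MU.I_RM
import Pool.Agent.Work.MP_499dc6_lc.MU.I_CH
import Pool.Agent.Work.MP_499dc6_lc.MU.I_CZ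
import Pool.Agent.Work.MP_499dc6_lc.MU.I_VD
import Pool.Agent.Work.MP_499dc6_lc.MU.I_EU
import Pool.Agent.Work.MP_499dc6_lc.MU.I_LG
import Pool.Agent.Work.MP_499dc6_lc.MU.I_BD
import Pool.Agent.Work.MP_499dc6_lc.MU.I_BI
import Pool.Agent.Work.MP_499dc6_lc.MU.I_OU
import Pool.Agent.Work.MP_499dc6_lc.MU.I_CT
import Pool.Agent.Work.MP_499dc6_lc.MU.I_CY
import Pool.Agent.Work.MP_499dc6_lc.MU.I_CQ
import Pool.Agent.Work.MP_499dc6_lc.MU.I_MC
import Pool.Agent.Work.MP_499dc6_lc.MU.I_PL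
import Pool.Agent.Work.MP_499dc6_lc.MU.I_BP
import Pool.Agent.Work.MP_499dc6_lc.MU.I_TT
import Pool.Agent.Work.MP_499dc6_lc.MU.I_ET
import Pool.Agent.Work.MP_499dc6_lc.MU.I_NV
import Pool.Agent.Work.MP_499dc6_lc.MU.I_UA
import Pool.Agent.Work.MP_499dc6_lc.MU.I_LU
import Pool.Agent.Work.MP_499dc6_lc.MU.I_XI
import Pool.Agent.Work.MP_499dc6_lc.MU.I_MP
import Pool.Agent.Work.MP_499dc6_lc.MU.I_EX
import Pool.Agent.Work.MP_499dc6_lc.MU.I_UP
import Pool.Agent.Work.MP_499dc6_lc.MU.I_IQ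
import Pool.Agent.Work.MP_499dc6_lc.MU.I_NU
import Pool.Agent.Work.MP_499dc6_lc.MU.I_FK
import Pool.Agent.Work.MP_499dc6_lc.MU.I_FL

/-!
# Multiples of the permanent in bounded depth: assembly
-/

namespace Pool.Agent.Work.MP_499dc6_lc.MU

open MvPolynomial Finset
open Pool.Agent.Work.MP_499dc6_lc.Fib

open scoped PowerSeries

theorem mainLG : S_LG := pr_LG pr_EU

theorem mainCT : S_CT := pr_CT

theorem mainCY : S_CY := pr_CY pr_EU pr_BD pr_BI pr_OU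

theorem mainCQ : S_CQ := pr_CQ mainLG pr_BD pr_BI pr_OU mainCY

theorem mainMC : S_MC := pr_MC mainLG pr_BD pr_BI pr_OU mainCT mainCY mainCQ

theorem mainGA : S_GA := pr_GA pr_GX pr_GS pr_GC pr_GD

theorem mainSC : S_SC := pr_SC mainGA pr_ZE

theorem mainBP : S_BP := pr_BP pr_TH pr_PL

theorem mainTT : S_TT := pr_TT pr_BD pr_BI

theorem mainET : S_ET := pr_ET pr_TH

theorem mainNV : S_NV := pr_NV pr_TH pr_CH pr_CZ mainET

theorem mainUA : S_UA :=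
  pr_UA pr_TH pr_RM mainNV pr_VD pr_BD pr_OU mainMC mainSC pr_PL mainBP mainTT mainET

theorem mainUP : S_UP := pr_UP mainUA pr_LU pr_XI pr_MP

theorem mainIQ : S_IQ := pr_IQ mainUP

theorem mainFK : S_FK := pr_FK mainIQ pr_NU

theorem mainFL : S_FL := pr_FL pr_EX mainFK

/-- **The theorem.** `h + 2` is the depth. -/
theorem mult_fin (k : Type) [Field k] [CharZero k] (N s h r e : ℕ)
    (F : Fin s → MvPolynomial (Fin N × Fin N) (LaurentSeries k)) (d : Fin s → ℕ)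
    (l0 U0 : MvPolynomial (Fin N × Fin N) (LaurentSeries k)) (c : Fin s → LaurentSeries k)
    (H : MvPolynomial (Fin N × Fin N) k) (R : MvPolynomial (Fin N × Fin N) k⟦X⟧)
    (hN : 2 ≤ N) (hs : 1 ≤ s) (hF : CktR r e F d) (hd : ∀ i, d i ≤ h)
    (hl0 : l0.totalDegree ≤ e) (hU0 : IsRCsum U0) (hH : H ≠ 0)
    (hsum : l0 + U0 + ∑ i, C (c i) * F i = MvPolynomial.map (algebraMap k⟦X⟧ (LaurentSeries k))
      (MvPolynomial.map PowerSeries.C H * gperm k⟦X⟧ N + C PowerSeries.X * R)) :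
    (N : ℝ) ≤ 132000 * (r + 1) * Real.log N *
      (33000 * (Real.log s + (r + 1) * Real.log N + e)) ^ (Nat.fib (h + 4) - 2) := by
  refine (mainFL k N s h r e F d l0 U0 c H R hN hs hF hd hl0 hU0 hH hsum).trans
    (le_of_eq ?_)
  ring

end Pool.Agent.Work.MP_499dc6_lc.MU
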