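import Pool.Agent.Work.MP_499dc6_lc.Fib.RcD

/-!
# Multiples of the permanent in bounded depth: definitions, part A (the gadget)

Block MU (captain helper75) of MP_499dc6_lc.
-/

namespace Pool.Agent.Work.MP_499dc6_lc.MU

open MvPolynomial Finset
open Pool.Agent.Work.MP_499dc6_lc.D3
open Pool.Agent.Work.MP_499dc6_lc.Fib

open scoped PowerSeries

/-- The all or nothing matrix. Rows: the rows `r` of `G`, the rows `inr (inl r)` which may read the
column `s r` of `G` or the column `(r, true)`, and the gadget rows `inr (inr g)`, which read all
columns `(r, false)` with entry `1` and all columns `(r, true)` with entry `ζ g`. A row of `G` may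
also read the column `(r, false)`, with entry `τ r`. -/
def BM {R α β : Type} [CommRing R] [DecidableEq α] [DecidableEq β] (G : α → β → R) (s : α ≃ β)
    (τ ζ : α → R) : α ⊕ (α ⊕ α) → β ⊕ (α × Bool) → R
  | .inl r, .inl c => G r c
  | .inl r, .inr p => if p = (r, false) then τ r else 0
  | .inr (.inl r), .inl c => if c = s r then 1 else 0
  | .inr (.inl r), .inr p => if p = (r, true) then 1 else 0
  | .inr (.inr _), .inl _ => 0
  | .inr (.inr g), .inr p => if p.2 = false then 1 else ζ g

/-- The same matrix where the gadget rows in `S` read (with entry `1`) the columns `(r, true)` and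
the other gadget rows the columns `(r, false)`. -/
def BS {R α β : Type} [CommRing R] [DecidableEq α] [DecidableEq β] (G : α → β → R) (s : α ≃ β)
    (τ : α → R) (S : Finset α) : α ⊕ (α ⊕ α) → β ⊕ (α × Bool) → R
  | .inl r, .inl c => G r c
  | .inl r, .inr p => if p = (r, false) then τ r else 0
  | .inr (.inl r), .inl c => if c = s r then 1 else 0
  | .inr (.inl r), .inr p => if p = (r, true) then 1 else 0
  | .inr (.inr _), .inl _ => 0
  | .inr (.inr g), .inr p => if p.2 = decide (g ∈ S) then 1 else 0

/-- The permanent of a matrix with rows `α` and columns `β`. -/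
noncomputable def gp {R α β : Type} [CommRing R] [Fintype α] [DecidableEq α] [Fintype β]
    [DecidableEq β] (G : α → β → R) : R :=
  ∑ e : α ≃ β, ∏ r, G r (e r)

end Pool.Agent.Work.MP_499dc6_lc.MU
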