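import Pool.Agent.Work.MP_499dc6_lc.MU.DefsA

/-!
# Multiples of the permanent in bounded depth: definitions, part B (points and power series)
-/

namespace Pool.Agent.Work.MP_499dc6_lc.MU

open MvPolynomial Finset

open scoped PowerSeries

/-- A polynomial as a polynomial in the variable `v0`. -/
noncomputable def Th {K σ : Type} [CommRing K] [DecidableEq σ] (v0 : σ) :
    MvPolynomial σ K →+* Polynomial (MvPolynomial σ K) :=
  eval₂Hom (Polynomial.C.comp C) (fun v => if v = v0 then Polynomial.X else Polynomial.C (X v))

/-- The embedding of the power series. -/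
noncomputable def ph (κ : Type) [Field κ] : κ⟦X⟧ →+* LaurentSeries κ :=
  algebraMap κ⟦X⟧ (LaurentSeries κ)

/-- The indeterminate. -/
noncomputable def eps (κ : Type) [Field κ] : LaurentSeries κ := ph κ PowerSeries.X

/-- The constants. -/
noncomputable def kc (κ : Type) [Field κ] : κ →+* LaurentSeries κ := (ph κ).comp PowerSeries.C

/-- The Euler operator. -/
noncomputable def Eu {K V : Type} [CommRing K] (f : MvPowerSeries V K) : MvPowerSeries V K :=
  fun m => (m.degree : K) * MvPowerSeries.coeff m f

/-- The logarithmic Euler derivative. -/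
noncomputable def Lm {K V : Type} [Field K] (f : MvPowerSeries V K) : MvPowerSeries V K :=
  Eu f * f⁻¹

/-- The coefficients of degree at most `d` have poles of order at most `n`. -/
def Bdd {κ V : Type} [Field κ] (n d : ℕ) (f : MvPowerSeries V (LaurentSeries κ)) : Prop :=
  ∀ m : V →₀ ℕ, m.degree ≤ d → ∃ a : κ⟦X⟧, eps κ ^ n * MvPowerSeries.coeff m f = ph κ a

/-- The element `u` of the Laurent field has order at most `n` (a power series multiple of `u` is
`ε ^ n`). -/
def Ou {κ : Type} [Field κ] (n : ℕ) (u : LaurentSeries κ) : Prop :=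
  ∃ b : κ⟦X⟧, ph κ b * u = eps κ ^ n

/-- The `i`-th point on the line of the variable `v0`. -/
noncomputable def tp {κ : Type} [Field κ] (a0 : κ⟦X⟧) (z : κ) (θ : ℕ) : LaurentSeries κ :=
  ph κ a0 + kc κ z * eps κ ^ θ

end Pool.Agent.Work.MP_499dc6_lc.MU
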