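import Pool.Agent.Work.MP_499dc6_lc.MU.DefsB

/-!
# Multiples of the permanent in bounded depth: definitions, part C (the point)
-/

namespace Pool.Agent.Work.MP_499dc6_lc.MU

open MvPolynomial Finset
open Pool.Agent.Work.MP_499dc6_lc.CD (dY dZ IsBi BB mat)
open Pool.Agent.Work.MP_499dc6_lc.D3
open Pool.Agent.Work.MP_499dc6_lc.Fib

open scoped PowerSeries

/-- A polynomial over the power series as a power series over the Laurent field. -/
noncomputable def cs (κ V : Type) [Field κ] :
    MvPolynomial V κ⟦X⟧ →+* MvPowerSeries V (LaurentSeries κ) :=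
  (MvPolynomial.coeToMvPowerSeries.ringHom).comp (MvPolynomial.map (ph κ))

/-- The restriction to the variables in `A`. -/
noncomputable def rA (κ : Type) [Field κ] {V : Type} [DecidableEq V] (A : Finset V) :
    MvPolynomial V κ →ₐ[κ] MvPolynomial V κ :=
  aeval fun w => if w ∈ A then X w else 0

/-- The base point: the projection `θ` restricted to `A`, moved by `ε c`. -/
noncomputable def bp {κ σ V : Type} [Field κ] [DecidableEq V] (θ : σ → MvPolynomial V κ)
    (A : Finset V) (c : σ → κ) (v : σ) : MvPolynomial V κ⟦X⟧ :=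
  MvPolynomial.map PowerSeries.C (rA κ A (θ v)) + C (PowerSeries.X * PowerSeries.C (c v))

/-- Evaluation at the base point. -/
noncomputable def bh {κ σ V : Type} [Field κ] [DecidableEq V] (θ : σ → MvPolynomial V κ)
    (A : Finset V) (c : σ → κ) : MvPolynomial σ κ →+* MvPolynomial V κ⟦X⟧ :=
  eval₂Hom (C.comp PowerSeries.C) (bp θ A c)

/-- The base point with the coordinate `v0` replaced by `t`. -/
noncomputable def et {κ σ V : Type} [Field κ] [DecidableEq σ] [DecidableEq V]
    (θ : σ → MvPolynomial V κ) (A : Finset V) (c : σ → κ) (v0 : σ) (t : LaurentSeries κ) (v : σ) :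
    MvPolynomial V (LaurentSeries κ) :=
  if v = v0 then C t else MvPolynomial.map (ph κ) (bp θ A c v)

end Pool.Agent.Work.MP_499dc6_lc.MU
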