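import Pool.Agent.Work.MP_499dc6_lc.MU.StmtsB

/-!
# Item CZ of the block MU: choice of the different points
-/

set_option autoImplicit false

namespace Pool.Agent.Work.MP_499dc6_lc.MU

open MvPolynomial Finset

open scoped PowerSeries

theorem pr_CZ : S_CZ := by
  intro κ _ _ m M T0 ρ G hρ hG
  have hinjf : Function.Injective (fun x : κ => T0 + kc κ x * ρ) := by
    intro x y hxy
    have h1 : kc κ x * ρ = kc κ y * ρ := add_left_cancel hxy
    exact (kc κ).injective (mul_right_cancel₀ hρ h1)
  have hfin : ∀ j : Fin M, {x : κ | (G j).eval (T0 + kc κ x * ρ) = 0}.Finite := by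
    intro j
    have h1 : {y : LaurentSeries κ | (G j).IsRoot y}.Finite := Polynomial.finite_setOf_isRoot (hG j)
    exact h1.preimage hinjf.injOn
  have hB : ({0} ∪ ⋃ j : Fin M, {x : κ | (G j).eval (T0 + kc κ x * ρ) = 0}).Finite :=
    (Set.finite_singleton 0).union (Set.finite_iUnion hfin)
  have hinf : Infinite κ := Infinite.of_injective (Nat.cast : ℕ → κ) Nat.cast_injective
  have hc := hB.infinite_compl
  let e := hc.natEmbedding
  have he : ∀ n : ℕ, (e n : κ) ≠ 0 ∧
      ∀ j, (G j).eval (T0 + kc κ (e n : κ) * ρ) ≠ 0 := by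
    intro n
    have h1 := (e n).2
    rw [Set.mem_compl_iff, Set.mem_union, not_or] at h1
    refine ⟨fun h => h1.1 h, fun j h => h1.2 (Set.mem_iUnion.mpr ⟨j, h⟩)⟩
  refine ⟨fun i => (e i.val : κ), ?_, fun i => (he i.val).1, fun i j => (he i.val).2 j⟩
  intro i i' h
  have h1 : e i.val = e i'.val := Subtype.ext h
  exact Fin.ext (e.injective h1)

end Pool.Agent.Work.MP_499dc6_lc.MU
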