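import Pool.Agent.Work.MP_499dc6_lc.MU.StmtsC

/-!
# Multiples of the permanent in bounded depth, item FJ
-/

namespace Pool.Agent.Work.MP_499dc6_lc.MU

open MvPolynomial Finset
open Pool.Agent.Work.MP_499dc6_lc.CD (dY dZ IsBi BB mat)
open Pool.Agent.Work.MP_499dc6_lc.D3
open Pool.Agent.Work.MP_499dc6_lc.Fib

open scoped PowerSeries

theorem FJ_fib (h : ℕ) : 1 ≤ Nat.fib (h + 4) - 1 := by
  have h1 : Nat.fib 4 ≤ Nat.fib (h + 4) := Nat.fib_mono (by omega)
  have h2 : Nat.fib 4 = 3 := by decide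
  omega

theorem FJ_small (N s r e : ℕ) (E : ℕ) (hE : 1 ≤ E) (hN : 2 ≤ N) (hs : 1 ≤ s) (h5 : N ≤ 5) :
    (N : ℝ) ≤ (220000 * (Real.log s + (r + 1) * Real.log N + e)) ^ E := by
  have hN' : (2 : ℝ) ≤ N := by exact_mod_cast hN
  have hs' : (1 : ℝ) ≤ s := by exact_mod_cast hs
  have h1 : 0 ≤ Real.log s := Real.log_nonneg hs'
  have h2 : Real.log 2 ≤ Real.log N := Real.log_le_log (by norm_num) hN'
  have h3 : (0.6931471803 : ℝ) < Real.log 2 := Real.log_two_gt_d9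
  have hr : (0 : ℝ) ≤ r := Nat.cast_nonneg r
  have he : (0 : ℝ) ≤ e := Nat.cast_nonneg e
  have h4 : Real.log N ≤ (r + 1) * Real.log N := by nlinarith
  have h6 : (5 : ℝ) ≤ 220000 * (Real.log s + (r + 1) * Real.log N + e) := by nlinarith
  have h7 : (N : ℝ) ≤ 5 := by exact_mod_cast h5
  calc (N : ℝ) ≤ 5 := h7
    _ ≤ 220000 * (Real.log s + (r + 1) * Real.log N + e) := h6
    _ ≤ (220000 * (Real.log s + (r + 1) * Real.log N + e)) ^ E :=
      le_self_pow₀ (by linarith) (by omega)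

theorem FJ_large (N N1 s r e : ℕ) (E : ℕ) (hE : 1 ≤ E) (hN : 2 ≤ N) (hs : 1 ≤ s) (h1 : 2 ≤ N1)
    (h3 : 3 * N1 ≤ N) (h4 : N ≤ 5 * N1)
    (hb : (N1 : ℝ) ≤ (11000 * (Real.log (((s + 1) * N1 : ℕ) : ℝ) +
      (((r + 1 : ℕ) : ℝ) + 1) * Real.log N1 + e)) ^ E) :
    (N : ℝ) ≤ (220000 * (Real.log s + (r + 1) * Real.log N + e)) ^ E := by
  have hN' : (2 : ℝ) ≤ N := by exact_mod_cast hN
  have hs' : (1 : ℝ) ≤ s := by exact_mod_cast hs
  have hN1 : (2 : ℝ) ≤ N1 := by exact_mod_cast h1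
  have hN1N : (N1 : ℝ) ≤ N := by exact_mod_cast (by omega : N1 ≤ N)
  have hr : (0 : ℝ) ≤ r := Nat.cast_nonneg r
  have he : (0 : ℝ) ≤ e := Nat.cast_nonneg e
  have l1 : 0 ≤ Real.log s := Real.log_nonneg hs'
  have l2 : Real.log 2 ≤ Real.log N := Real.log_le_log (by norm_num) hN'
  have l3 : (0.6931471803 : ℝ) < Real.log 2 := Real.log_two_gt_d9
  have l4 : Real.log N1 ≤ Real.log N := Real.log_le_log (by linarith) hN1N
  have l5 : 0 ≤ Real.log N1 := Real.log_nonneg (by linarith)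
  have l6 : Real.log (((s + 1) * N1 : ℕ) : ℝ) ≤ Real.log 2 + Real.log s + Real.log N := by
    rw [← Real.log_mul (by norm_num) (by linarith), ← Real.log_mul (by nlinarith) (by linarith)]
    apply Real.log_le_log
    · push_cast
      nlinarith
    · push_cast
      nlinarith
  have l7 : 0 ≤ Real.log (((s + 1) * N1 : ℕ) : ℝ) := by
    apply Real.log_nonneg
    push_cast
    nlinarith
  have l8 : (((r + 1 : ℕ) : ℝ) + 1) * Real.log N1 ≤ (r + 2) * Real.log N := by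
    push_cast
    nlinarith
  have l9 : 0 ≤ (((r + 1 : ℕ) : ℝ) + 1) * Real.log N1 := by positivity
  have hB : Real.log (((s + 1) * N1 : ℕ) : ℝ) + (((r + 1 : ℕ) : ℝ) + 1) * Real.log N1 + e ≤
      4 * (Real.log s + (r + 1) * Real.log N + e) := by nlinarith
  have h5 : (5 : ℝ) ≤ 5 ^ E := le_self_pow₀ (by norm_num) (by omega)
  have hN5 : (N : ℝ) ≤ 5 * N1 := by exact_mod_cast h4
  have hB0 : 0 ≤ Real.log (((s + 1) * N1 : ℕ) : ℝ) + (((r + 1 : ℕ) : ℝ) + 1) * Real.log N1 + e := by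
    linarith
  calc (N : ℝ) ≤ 5 * N1 := hN5
    _ ≤ 5 ^ E * (11000 * (Real.log (((s + 1) * N1 : ℕ) : ℝ) +
      (((r + 1 : ℕ) : ℝ) + 1) * Real.log N1 + e)) ^ E :=
        mul_le_mul h5 hb (by linarith) (by positivity)
    _ = (55000 * (Real.log (((s + 1) * N1 : ℕ) : ℝ) +
      (((r + 1 : ℕ) : ℝ) + 1) * Real.log N1 + e)) ^ E := by
        rw [← mul_pow]
        congr 1
        ring
    _ ≤ (220000 * (Real.log s + (r + 1) * Real.log N + e)) ^ E := by
        apply pow_le_pow_left₀ (by linarith)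
        linarith

theorem pr_FJ (hEX : S_EX) (hFI : S_FI) : S_FJ := by
  intro k _ _ N s h r e F d l0 U0 c H R hN hs hC hd hl0 hU0 hH heq
  have hE := FJ_fib h
  rcases Nat.lt_or_ge (N / 3) 2 with hlt | hge
  · exact FJ_small N s r e _ hE hN hs (by omega)
  · have hC' := hEX (LaurentSeries k) N s h r e F d l0 U0 c hC hd hl0 hU0
    have hd' : ∀ i, (Fin.snoc d (h + 1) : Fin (s + 1) → ℕ) i ≤ h + 1 := by
      intro i
      refine Fin.lastCases ?_ (fun i => ?_) i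
      · rw [Fin.snoc_last]
      · rw [Fin.snoc_castSucc]
        exact (hd i).trans (Nat.le_succ h)
    have hb := hFI k N (N / 3) (s + 1) (h + 1) (r + 1) e _ _ (Fin.last s) H R hC' hd' hH
      (by rw [Fin.snoc_last]; exact heq) (by omega) hge (by omega)
    exact FJ_large N (N / 3) s r e _ hE hN hs hge (by omega) (by omega) hb

end Pool.Agent.Work.MP_499dc6_lc.MU
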