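import Pool.Agent.Work.MP_499dc6_lc.MU.StmtsA

/-! Item [499dc6 MU GX] (helper51): expansion of the gadget rows. -/

namespace Pool.Agent.Work.MP_499dc6_lc.MU

open MvPolynomial Finset
open Pool.Agent.Work.MP_499dc6_lc.D3
open Pool.Agent.Work.MP_499dc6_lc.Fib

open scoped PowerSeries

/-- the indicator of the columns `(r, b)` -/
def GX_ind (R : Type) [CommRing R] {α β : Type} (b : Bool) : β ⊕ (α × Bool) → R
  | .inl _ => 0
  | .inr p => if p.2 = b then 1 else 0

theorem GX_row {R α β : Type} [CommRing R] [DecidableEq α] [DecidableEq β] (G : α → β → R)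
    (s : α ≃ β) (τ ζ : α → R) (g : α) (c : β ⊕ (α × Bool)) :
    BM G s τ ζ (Sum.inr (Sum.inr g)) c = ζ g * GX_ind R true c + GX_ind R false c := by
  rcases c with c | ⟨c, b⟩
  · simp [BM, GX_ind]
  · cases b <;> simp [BM, GX_ind]

theorem GX_rowS {R α β : Type} [CommRing R] [DecidableEq α] [DecidableEq β] (G : α → β → R)
    (s : α ≃ β) (τ : α → R) (S : Finset α) (g : α) (c : β ⊕ (α × Bool)) :
    BS G s τ S (Sum.inr (Sum.inr g)) c = if g ∈ S then GX_ind R true c else GX_ind R false c := by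
  rcases c with c | ⟨c, b⟩
  · simp [BS, GX_ind]
  · by_cases h : g ∈ S <;> simp [BS, GX_ind, h]

theorem GX_prod {R α β : Type} [CommRing R] [Fintype α] [DecidableEq α] [DecidableEq β]
    (G : α → β → R) (s : α ≃ β) (τ ζ : α → R) (c : α → β ⊕ (α × Bool)) :
    ∏ g, BM G s τ ζ (Sum.inr (Sum.inr g)) (c g) =
      ∑ S : Finset α, (∏ i ∈ S, ζ i) * ∏ g, BS G s τ S (Sum.inr (Sum.inr g)) (c g) := by
  have h1 : ∏ g, BM G s τ ζ (Sum.inr (Sum.inr g)) (c g) =
      ∏ g, (ζ g * GX_ind R true (c g) + GX_ind R false (c g)) :=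
    Finset.prod_congr rfl fun g _ => GX_row G s τ ζ g (c g)
  rw [h1, Finset.prod_add, Finset.powerset_univ]
  refine Finset.sum_congr rfl fun S _ => ?_
  have h2 : ∏ g, BS G s τ S (Sum.inr (Sum.inr g)) (c g) =
      (∏ g ∈ Finset.univ \ S, GX_ind R false (c g)) * ∏ g ∈ S, GX_ind R true (c g) := by
    rw [← Finset.prod_sdiff (Finset.subset_univ S)]
    congr 1
    · refine Finset.prod_congr rfl fun g hg => ?_
      rw [GX_rowS, if_neg (Finset.mem_sdiff.1 hg).2]
    · refine Finset.prod_congr rfl fun g hg => ?_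
      rw [GX_rowS, if_pos hg]
  rw [h2, Finset.prod_mul_distrib]
  ring

theorem pr_GX : S_GX := by
  intro R α β _ _ _ _ _ G s τ ζ
  have h1 : ∀ e : (α ⊕ (α ⊕ α)) ≃ (β ⊕ (α × Bool)),
      ∏ r, BM G s τ ζ r (e r) = ∑ S : Finset α, (∏ i ∈ S, ζ i) * ∏ r, BS G s τ S r (e r) := by
    intro e
    rw [Fintype.prod_sum_type, Fintype.prod_sum_type, GX_prod G s τ ζ
      (fun g => e (Sum.inr (Sum.inr g))), Finset.mul_sum, Finset.mul_sum]
    refine Finset.sum_congr rfl fun S _ => ?_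
    rw [Fintype.prod_sum_type (fun r => BS G s τ S r (e r)),
      Fintype.prod_sum_type (fun r => BS G s τ S (Sum.inr r) (e (Sum.inr r)))]
    have h2 : ∏ r, BM G s τ ζ (Sum.inl r) (e (Sum.inl r)) =
        ∏ r, BS G s τ S (Sum.inl r) (e (Sum.inl r)) := by
      refine Finset.prod_congr rfl fun r _ => ?_
      rcases e (Sum.inl r) with c | p <;> rfl
    have h3 : ∏ r, BM G s τ ζ (Sum.inr (Sum.inl r)) (e (Sum.inr (Sum.inl r))) =
        ∏ r, BS G s τ S (Sum.inr (Sum.inl r)) (e (Sum.inr (Sum.inl r))) := by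
      refine Finset.prod_congr rfl fun r _ => ?_
      rcases e (Sum.inr (Sum.inl r)) with c | p <;> rfl
    rw [h2, h3]
    ring
  unfold gp
  rw [Finset.sum_congr rfl fun e _ => h1 e, Finset.sum_comm]
  refine Finset.sum_congr rfl fun S _ => ?_
  rw [Finset.mul_sum]

end Pool.Agent.Work.MP_499dc6_lc.MU
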