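import Pool.Agent.Work.MP_499dc6_lc.MU.StmtsC

/-!
# Multiples of the permanent in bounded depth: item IQ, the main inequality
-/

namespace Pool.Agent.Work.MP_499dc6_lc.MU

open MvPolynomial Finset
open Pool.Agent.Work.MP_499dc6_lc.CD
open Pool.Agent.Work.MP_499dc6_lc.D3
open Pool.Agent.Work.MP_499dc6_lc.Fib

open scoped PowerSeries

/-- Item IQ: the main inequality for given parameters. -/
theorem pr_IQ (hUP : S_UP) : S_IQ := by
  intro k _ _ N s h r e F d i0 H R n kk P ρ t hC hd hH hF hk hn hN hPars hP2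
  classical
  have hal : 0 < Real.log (3 / 2 : ℝ) := Real.log_pos (by norm_num)
  have hn1 : 3 ≤ n := by omega
  obtain ⟨m, hm⟩ : ∃ m, m = n + kk := ⟨_, rfl⟩
  have hm1 : 4 ≤ m := by omega
  obtain ⟨L, hL⟩ : ∃ L, L + 2 * m = 2 * ((2 * m) ^ 2 - 1) := by
    refine ⟨2 * ((2 * m) ^ 2 - 1) - 2 * m, Nat.sub_add_cancel ?_⟩
    have : 2 * m + 1 ≤ (2 * m) ^ 2 := by nlinarith
    omega
  obtain ⟨be, hbe⟩ : ∃ be : ℝ, be = Real.log (3 / 2) * (n + kk) / n := ⟨_, rfl⟩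
  have hnR : (0 : ℝ) < n := by exact_mod_cast (by omega : 0 < n)
  have hbe0 : 0 < be := by rw [hbe]; positivity
  obtain ⟨q, hq1, hq2⟩ := ell ((2 * n) ^ 2) be (by nlinarith) hbe0
  rw [hbe] at hq1 hq2
  obtain ⟨A, -, hlow⟩ := Ineq_set mainRankA n kk L q 0 0 (fun i => i.elim0) hn hk
    (by rw [← hm]; exact hL) (by push_cast at hq1 ⊢; exact hq1) (by norm_num)
  obtain ⟨R', hBB⟩ := hUP k N s h r e F d i0 H R n kk P ρ t hC hd hH hF hk hn hN hPars hP2 A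
  have : CharZero (AlgebraicClosure k) := charZero_of_injective_algebraMap
    (algebraMap k (AlgebraicClosure k)).injective
  have hlow2 := @D3.pr_RankK D3.pr_Minor (CY n kk × CY n kk) (CZ n × CZ n) _ _ _ _
    (AlgebraicClosure k) _ _ (PA ℤ n kk A) R' (L + 2 * (n + kk)) q L (q + 2 * n)
  rw [(pr_PA n kk A).2.2, (pr_PA n kk A).2.2] at hlow2
  have : Nonempty (CY n kk × CY n kk) :=
    ⟨(Sum.inl (true, ⟨0, by omega⟩), Sum.inl (true, ⟨0, by omega⟩))⟩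
  have : Nonempty (CZ n × CZ n) :=
    ⟨((true, ⟨0, by omega⟩), (true, ⟨0, by omega⟩))⟩
  have hcY : Fintype.card (CY n kk × CY n kk) = (2 * (n + kk)) ^ 2 := by
    rw [Fintype.card_prod, card_CY, sq]
  have hcZ : Fintype.card (CZ n × CZ n) = (2 * n) ^ 2 := by
    rw [Fintype.card_prod, card_CZ, sq]
  obtain ⟨E, hE⟩ : ∃ E : ℝ, E = Real.exp (-(ρ h * ((2 * (n + kk) + 2 * n : ℕ) : ℝ))) := ⟨_, rfl⟩
  rw [← hE] at hBB
  have hupp := mainBBrank _ _ (LaurentSeries (AlgebraicClosure k)) _ _ _ _ L q (2 * (n + kk))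
    (2 * n) (by omega)
    (by
      rw [hcY, ← hm, Real.exp_log (by norm_num)]
      have h5 : ((L : ℝ) + ((2 * m : ℕ) : ℝ)) = 2 * (((2 * m : ℕ) : ℝ) ^ 2 - 1) := by
        have h6 : ((L + 2 * m : ℕ) : ℝ) = ((2 * ((2 * m) ^ 2 - 1) : ℕ) : ℝ) := by rw [hL]
        rw [Nat.cast_add, Nat.cast_mul 2 ((2 * m) ^ 2 - 1), Nat.cast_sub (Nat.one_le_pow _ _
          (by omega)), Nat.cast_pow] at h6
        push_cast at h6 ⊢
        exact h6
      rw [h5]
      have h7 : (8 : ℝ) ≤ ((2 * m : ℕ) : ℝ) := by exact_mod_cast (by omega : 8 ≤ 2 * m)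
      have h8 : (1 : ℝ) < ((2 * m : ℕ) : ℝ) ^ 2 := by nlinarith
      rw [le_div_iff₀ (by linarith)]
      push_cast
      linarith)
    (by rw [hcZ]; exact hq2) hBB
  rw [hcY, hcZ] at hupp
  have hexp0 : Real.exp (-(((2 * (n + kk) : ℕ) : ℝ) * Real.log (3 / 2) -
      ((2 * n : ℕ) : ℝ) * (Real.log (3 / 2) * (n + kk) / n)) / 2) = 1 := by
    rw [Real.exp_eq_one_iff]
    have hw0 : (n : ℝ) ≠ 0 := hnR.ne'
    push_cast
    field_simp
    ring
  rw [hexp0, mul_one] at hupp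
  obtain ⟨W, hW⟩ : ∃ W : ℝ, W = (TT ((2 * (n + kk)) ^ 2) (L + 2 * (n + kk)) : ℝ) *
    TT ((2 * n) ^ 2) q := ⟨_, rfl⟩
  have hWpos : 0 < W := by
    rw [hW]
    apply mul_pos
    · exact_mod_cast D3.TT_pos (Nat.one_le_pow _ _ (by omega))
    · exact_mod_cast D3.TT_pos (Nat.one_le_pow _ _ (by omega))
  obtain ⟨X, hX⟩ : ∃ X : ℝ, X = 1000 * ((2 * (n + kk) + 1 : ℕ) : ℝ) ^ 8 := ⟨_, rfl⟩
  have hXpos : 0 < X := by rw [hX]; positivity
  rw [← hW, ← hX] at hlow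
  rw [← hW] at hupp
  have hEpos : 0 < E := by rw [hE]; exact Real.exp_pos _
  have hPpos : 0 < P := lt_of_lt_of_le (by positivity) hP2
  obtain ⟨σ, hσ⟩ : ∃ σ : ℝ, σ = ((2 * (n + kk) + 2 * n + 1 : ℕ) : ℝ) := ⟨_, rfl⟩
  have hσpos : 0 < σ := by rw [hσ]; positivity
  rw [← hσ] at hupp
  have h9 : W ≤ W * (σ * P * E) * X := by
    refine hlow.trans ?_
    apply mul_le_mul_of_nonneg_right _ hXpos.le
    exact (Nat.cast_le.mpr hlow2).trans hupp
  have h10 : 1 ≤ (σ * P * E) * X := by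
    rw [mul_assoc] at h9
    exact le_of_mul_le_mul_left (by linarith) hWpos
  have h11 := Real.log_le_log one_pos h10
  rw [Real.log_one, Real.log_mul (by positivity) (by positivity), Real.log_mul (by positivity)
    (by positivity), Real.log_mul (by positivity) (by positivity), hE,
    Real.log_exp, hX, hσ] at h11
  linarith

end Pool.Agent.Work.MP_499dc6_lc.MU
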