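import Pool.Agent.Work.MP_499dc6_lc.MU.StmtsC

/-!
# Multiples of the permanent in bounded depth: item PL (the permanent is affine in every entry)
-/

namespace Pool.Agent.Work.MP_499dc6_lc.MU

open MvPolynomial Finset
open Pool.Agent.Work.MP_499dc6_lc.CD (dY dZ IsBi BB mat)
open Pool.Agent.Work.MP_499dc6_lc.D3
open Pool.Agent.Work.MP_499dc6_lc.Fib

open scoped PowerSeries

theorem PL_X {K σ : Type} [CommRing K] [DecidableEq σ] (v0 v : σ) :
    Th v0 (X v : MvPolynomial σ K) =
      if v = v0 then Polynomial.X else Polynomial.C (X v) := by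
  rw [Th, eval₂Hom_X']

theorem PL_deg {K σ : Type} [CommRing K] [DecidableEq σ] (v0 v : σ) :
    (Th v0 (X v : MvPolynomial σ K)).natDegree ≤ if v = v0 then 1 else 0 := by
  rw [PL_X]
  split_ifs
  · exact Polynomial.natDegree_X_le
  · rw [Polynomial.natDegree_C]

theorem PL_le (κ : Type) [Field κ] (N : ℕ) (v0 : Fin N × Fin N) :
    (Th v0 (gperm κ N)).natDegree ≤ 1 := by
  rw [gperm, Matrix.permanent, map_sum]
  refine Polynomial.natDegree_sum_le_of_forall_le _ _ fun σ _ => ?_
  rw [map_prod]
  refine (Polynomial.natDegree_prod_le _ _).trans ?_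
  calc ∑ i, (Th v0 (Matrix.of (fun i j => (X (i, j) : MvPolynomial (Fin N × Fin N) κ))
        (σ i) i)).natDegree ≤ ∑ i : Fin N, if i = v0.2 then 1 else 0 := by
        refine Finset.sum_le_sum fun i _ => ?_
        rw [Matrix.of_apply]
        refine (PL_deg v0 (σ i, i)).trans ?_
        by_cases h : (σ i, i) = v0
        · rw [if_pos h, if_pos (congrArg Prod.snd h)]
        · rw [if_neg h]
          exact Nat.zero_le _
    _ ≤ 1 := by
        rw [Finset.sum_ite_eq' Finset.univ v0.2, if_pos (Finset.mem_univ _)]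

theorem pr_PL : S_PL := by
  intro κ _ N v0
  exact Polynomial.eq_X_add_C_of_natDegree_le_one (PL_le κ N v0)

end Pool.Agent.Work.MP_499dc6_lc.MU
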