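import Pool.Agent.Work.MP_499dc6_lc.MU.DefsA

/-!
# Multiples of the permanent in bounded depth: statements, part A (the gadget)

THEOREM (block MU, captain helper75): FibonacciDepth for all nonzero multiples `H * perm_N`, with
`fib (D + 2)` in place of `fib (D + 1)`.

Part A: for every `g × g` matrix `G` and every `t` there is a `3g × 3g` matrix with permanent
`g! (perm G - t)` whose entries are those of `G`, one entry `t` and constants.

Every docstring is a complete proof. Items: prove `theorem pr_X : S_X` in `MU/I_X.lean`; theorems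
`S_Y` used by an item are hypotheses `(hY : S_Y)` of `pr_X` (given in the docstring), nobody waits.
-/

namespace Pool.Agent.Work.MP_499dc6_lc.MU

open MvPolynomial Finset
open Pool.Agent.Work.MP_499dc6_lc.D3
open Pool.Agent.Work.MP_499dc6_lc.Fib

open scoped PowerSeries

/-- [GX] EASY-MEDIUM. Expansion of the gadget rows. For every `e` split the product over the rows
(`Fintype.prod_sum_type` twice). The rows `inl r` and `inr (inl r)` are the same in `BM` and `BS`. For
a gadget row `BM (inr (inr g)) (e _) = A g + ζ g * B g` where `A g = 1` if `e (inr (inr g))` is `inr (_, false)`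
and `0` otherwise, `B g = 1` if it is `inr (_, true)` and `0` otherwise; `∏ g, (ζ g * B g + A g) =
∑ S, (∏ g ∈ S, ζ g * B g) * ∏ g ∈ univ \ S, A g` (`Finset.prod_add`), and the last product is
`(∏ g ∈ S, ζ g) * ∏ g, BS .. S (inr (inr g)) (e _)`. Exchange the sums. -/
def S_GX : Prop :=
  ∀ (R α β : Type) [CommRing R] [Fintype α] [DecidableEq α] [Fintype β] [DecidableEq β]
    (G : α → β → R) (s : α ≃ β) (τ ζ : α → R),
    gp (BM G s τ ζ) = ∑ S : Finset α, (∏ i ∈ S, ζ i) * gp (BS G s τ S)

/-- [GS] EASY-MEDIUM. If `card S = card S'` there is `π : Equiv.Perm α` with `S' = S.map π` (for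
instance extend a bijection `S ≃ S'`: `Equiv.extendSubtype`, or `Finset.exists_equiv...`). Let `Π` be the
permutation of the rows which is `π` on the gadget rows and the identity elsewhere
(`Equiv.sumCongr`). Then `BS .. S' (Π r) c = BS .. S r c` for all `r, c`; reindex the sum over `e` by
`e ↦ Π.trans e`-type maps (`Fintype.sum_equiv (Equiv.equivCongr ..)`) and the products by `Π`
(`Fintype.prod_equiv`). -/
def S_GS : Prop :=
  ∀ (R α β : Type) [CommRing R] [Fintype α] [DecidableEq α] [Fintype β] [DecidableEq β]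
    (G : α → β → R) (s : α ≃ β) (τ : α → R) (S S' : Finset α), S.card = S'.card →
    gp (BS G s τ S) = gp (BS G s τ S')

/-- [GC] MEDIUM. `S = ∅`. A summand `e` is nonzero only if every gadget row goes to a column
`(r, false)`; there are as many gadget rows as such columns, so these columns are exactly the
images of the gadget rows. Hence the rows `inl r` go to columns `inl c`, so that (counting) the
columns `inl c` are exactly the images of the rows `inl r`, and `inr (inl r)` must go to `(r, true)`.
So the nonzero summands are given by pairs `(e' : α ≃ β, σ : Equiv.Perm α)`, `e (inl r) = inl (e' r)`,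
`e (inr (inl r)) = inr (r, true)`, `e (inr (inr g)) = inr (σ g, false)`, with product `∏ r, G r (e' r)`.
Compare `Proj_block` in `D3/I_Proj.lean` (`Fintype.sum_of_injective` for the map
`(e', σ) ↦ e`); the number of `σ` is `(card α)!` (`Fintype.card_perm`). -/
def S_GC : Prop :=
  ∀ (R α β : Type) [CommRing R] [Fintype α] [DecidableEq α] [Fintype β] [DecidableEq β]
    (G : α → β → R) (s : α ≃ β) (τ : α → R),
    gp (BS G s τ ∅) = ((Fintype.card α).factorial : R) * gp G

/-- [GD] MEDIUM. `S = univ`. A summand `e` is nonzero only if every gadget row goes to a column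
`(r, true)`; counting, these are exactly the images of the gadget rows. So `inr (inl r)` must go to
`inl (s r)`, all columns `inl c` are used by these rows, and `inl r` must go to `(r, false)`. The
nonzero summands are given by the permutations `σ` with `e (inr (inr g)) = inr (σ g, true)`, with
product `∏ r, τ r`. Compare `Proj_block` in `D3/I_Proj.lean`. -/
def S_GD : Prop :=
  ∀ (R α β : Type) [CommRing R] [Fintype α] [DecidableEq α] [Fintype β] [DecidableEq β]
    (G : α → β → R) (s : α ≃ β) (τ : α → R),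
    gp (BS G s τ univ) = ((Fintype.card α).factorial : R) * ∏ r, τ r

/-- [GA] EASY-MEDIUM (hGX : S_GX) (hGS : S_GS) (hGC : S_GC) (hGD : S_GD). By GX the permanent is
`∑ S, (∏ i ∈ S, ζ i) * gp (BS .. S)`; group the subsets by their number of elements `j`
(`Finset.sum_powerset_apply_card`-like, or `Finset.sum_fiberwise`/`Finset.powersetCard_disjiUnion`);
`gp (BS .. S)` depends only on `j` (GS), so for `0 < j < card α` the inner sum is
`(const) * ∑ S ∈ powersetCard j univ, ∏ i ∈ S, ζ i = 0`. Only `S = ∅` and `S = univ` remain, which are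
different because `1 ≤ card α`. -/
def S_GA : Prop :=
  ∀ (R α β : Type) [CommRing R] [Fintype α] [DecidableEq α] [Fintype β] [DecidableEq β]
    (G : α → β → R) (s : α ≃ β) (τ ζ : α → R), 1 ≤ Fintype.card α →
    (∀ j : ℕ, 0 < j → j < Fintype.card α → ∑ S ∈ powersetCard j univ, ∏ i ∈ S, ζ i = 0) →
    gp (BM G s τ ζ) = ((Fintype.card α).factorial : R) * (gp G + (∏ i, ζ i) * ∏ r, τ r)

/-- [ZE] EASY-MEDIUM. `X ^ g - 1`, `g = card α ≥ 1`, is monic and splits:
`X ^ g - 1 = ∏ i, (X - C (ω i))` for a family `ω : α → κ` (the multiset of roots has `g` elements; choose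
an enumeration). By Vieta (`Multiset.prod_X_sub_X_eq_sum_esymm`, `Finset.prod_X_add_C_coeff`,
`Polynomial.coeff_eq_esymm_roots_of_card`) the coefficient of `X ^ (g - j)` is
`(-1)^j ∑_{card S = j} ∏_{i ∈ S} ω i`, and it is `0` for `0 < j < g` and `-1` for `j = g`. Take `ζ = ω`:
`∏ ω i = ± 1 ≠ 0`. -/
def S_ZE : Prop :=
  ∀ (κ α : Type) [Field κ] [IsAlgClosed κ] [Fintype α] [DecidableEq α],
    1 ≤ Fintype.card α → ∃ ζ : α → κ, (∏ i, ζ i) ≠ 0 ∧
      ∀ j : ℕ, 0 < j → j < Fintype.card α → ∑ S ∈ powersetCard j univ, ∏ i ∈ S, ζ i = 0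

/-- [SC] MEDIUM (hGA : S_GA) (hZE : S_ZE). Adapt `Rc_scal` (end of `Fib/RcB.lean`). Rows `GR n kk`, columns
`GC n kk`, both of cardinality `4 (2 n + kk)` (see `Rc_scal`), `s` any equivalence between them,
`r₀` any row (`1 ≤ n`), `ζ` from ZE. Let `θM : rows ⊕ (rows ⊕ rows) → cols ⊕ (rows × Bool) → MvPolynomial ..`
be the matrix `BM` with `G = GM (X (inl ..)) (X (inr ..))`, constants `C (ζ g)` and `τ r = 1` for `r ≠ r₀`,
`τ r₀ = 0`; `v0` is the position of the entry `(inl r₀, inr (r₀, false))`; add an identity block of size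
`N - 12 (2 n + kk)` (`Proj_M`), enumerate rows and columns by `Fin N` as in `Rc_scal`. For a ring
homomorphism `ψ` and `t` in `S` the matrix in question is `Proj_M _ (BM G' s τ' ζ')` with
`G' = GM (ψ (X (inl ..))) (ψ (X (inr ..)))`, `τ' r₀ = t`, `τ' r = 1` otherwise, `ζ' = ψ (C (ζ g))` (check entry by
entry), so by `Proj_perm`, `Proj_block`, GA, `D3.pr_GadCancel`, `D3.pr_GadBij` its permanent is
`g! ((-1)^n 4^n ∑_c .. + (∏ ζ') t)` with `∑_c .. = ψ (PC κ n kk)` (`PC_prod`). The hypothesis on the
elementary symmetric polynomials passes through the ring homomorphism `ψ ∘ C`. So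
`c₀ = g! (-1)^n 4^n`, `c₁ = g! ∏ ζ`, `g = 4 (2 n + kk)`. Kinds: rows and columns of `GM` have one kind
(`Rc_GM`); all other entries are constants (`Rc_kind_C`), so the rows `inl r` get the kind of the
row `r` of `GM`, the columns `inl c` that of the column `c`, all others any kind. -/
def S_SC : Prop :=
  ∀ (κ : Type) [Field κ] [CharZero κ] [IsAlgClosed κ] (N n kk : ℕ), 1 ≤ n →
    12 * (2 * n + kk) ≤ N →
    ∃ (v0 : Fin N × Fin N) (θ : Fin N × Fin N → MvPolynomial (VV n kk) κ) (κr κc : Fin N → Bool)
      (c₀ c₁ : κ), c₀ ≠ 0 ∧ c₁ ≠ 0 ∧ (∀ v, (∃ a, θ v = C a) ∨ ∃ w, θ v = X w) ∧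
      (∀ v, Rc_kind (κr v.1) (θ v)) ∧ (∀ v, Rc_kind (κc v.2) (θ v)) ∧
      ∀ (S : Type) [CommRing S] (ψ : MvPolynomial (VV n kk) κ →+* S) (t : S),
        (Matrix.of fun i j => if (i, j) = v0 then t else ψ (θ (i, j))).permanent =
          ψ (C c₀ * PC κ n kk) + ψ (C c₁) * t

end Pool.Agent.Work.MP_499dc6_lc.MU
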