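import Pool.Agent.Work.MP_499dc6_lc.MU.DefsB

/-!
# Multiples of the permanent in bounded depth: statements, part B (multiplicity, choices, series)

Every docstring is a complete proof. Items: prove `theorem pr_X : S_X` in `MU/I_X.lean`.
-/

namespace Pool.Agent.Work.MP_499dc6_lc.MU

open MvPolynomial Finset

open scoped PowerSeries

/-- [TH] EASY. Both sides are ring homomorphisms in `f` (`Polynomial.eval₂RingHom`,
`Polynomial.evalRingHom`), equal on constants and variables: `MvPolynomial.induction_on` or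
`MvPolynomial.ringHom_ext`. (c): both sides are the ring homomorphisms. -/
def S_TH : Prop :=
  ∀ (K σ : Type) [CommRing K] [DecidableEq σ] (v0 : σ) (f : MvPolynomial σ K),
    (Th v0 f).eval (X v0) = f ∧
    ∀ (S : Type) [CommRing S] (b : MvPolynomial σ K →+* S) (τ : S),
      (Th v0 f).eval₂ b τ = eval₂ (b.comp C) (fun v => if v = v0 then τ else b (X v)) f

/-- [RM] MEDIUM. Put `P = C P1 * X + C P0`.
(1) Pseudo division: for every `F` there are `m`, `W`, `Q2` with `C (P1 ^ m) * F = C W + P * Q2`. (By induction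
on `F`: constants `m = 0`; `X ^ (n+1)`: if `P1^m X^n = W + P Q2` then `P1^(m+1) X^(n+1) = (P - P0)(..)`-type
computation; sums: multiply by further powers of `P1`.)
(2) For every `F ≠ 0` there are `μ, m, D, W, Q, Q2` as in the claim, but `μ ≥ 0`: strong induction on
`natDegree F`. Take (1). If `W ≠ 0`: `μ = 0`, `D = 1`, `Q = F`. If `W = 0`: `C (P1^m) * F = P * Q2` with
`Q2 ≠ 0` and `natDegree Q2 = natDegree F - 1 < natDegree F` (domain, `P1 ≠ 0`, so `natDegree P = 1`; note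
`natDegree F ≥ 1` here); the induction hypothesis for `Q2` gives `C D' * Q2 = P^μ' Q'`, so
`C (D' * P1^m) * F = P ^ (μ' + 1) * Q'`, with the same `W', m', Q2'`.
(3) `μ ≥ 1` if `F = H * P`: otherwise `C D * H * P = Q` and `C (P1^m) * Q = C W + P * Q2` give `P ∣ C W`,
`W ≠ 0`, impossible by degrees (`natDegree P = 1`). -/
def S_RM : Prop :=
  ∀ (R : Type) [CommRing R] [IsDomain R] (P0 P1 : R) (H F : Polynomial R), P1 ≠ 0 → F ≠ 0 →
    F = H * (Polynomial.C P1 * Polynomial.X + Polynomial.C P0) →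
    ∃ (μ m : ℕ) (D W : R) (Q Q2 : Polynomial R), 1 ≤ μ ∧ D ≠ 0 ∧ W ≠ 0 ∧
      Polynomial.C D * F = (Polynomial.C P1 * Polynomial.X + Polynomial.C P0) ^ μ * Q ∧
      Polynomial.C (P1 ^ m) * Q =
        Polynomial.C W + (Polynomial.C P1 * Polynomial.X + Polynomial.C P0) * Q2

/-- [CH] MEDIUM. Choice of the point. Let `W' = aeval (fun v => C (C (a v)) + C X * X v) (map C W)` in
`MvPolynomial σ κ⟦X⟧`. It is not zero (over the Laurent field the substitution
`X v ↦ C ε⁻¹ * (X v - C a v)` gives back the image of `W`, and `map` of an injective ring homomorphism is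
injective). Let `n` be the least number such that some coefficient of `W'` has a nonzero coefficient
at `ε ^ n`, and `W_n = ∑_m (coeff n (coeff m W')) X^m ≠ 0` (a polynomial over `κ`). Then
`W' = C (X ^ n) * W''` and the constant coefficients (in `ε`) of `W''` are `W_n`. For the `G j` let
`G' j = aeval (fun v => C (kc (a v)) + C eps * X v) (G j)`, nonzero if `G j ≠ 0`. Apply `CD.pr_Transl` to the
`M + 1` polynomials `G' j` and `map kc W_n`: there is `c` with `W_n (c) ≠ 0` and `G' j (c) ≠ 0` (the constant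
coefficient of the translate is the value at `kc ∘ c`). The value of `W` at `a + ε c` is
`ε ^ n * W''(c)`, and `W''(c)` is a power series with constant coefficient `W_n (c) ≠ 0`, so a unit;
`b` is its inverse. The value of `G j` at `a + ε c` is `G' j (c) ≠ 0`. -/
def S_CH : Prop :=
  ∀ (σ κ : Type) [Fintype σ] [Field κ] [CharZero κ] (a : σ → κ) (W : MvPolynomial σ κ), W ≠ 0 →
    ∃ n : ℕ, ∀ (M : ℕ) (G : Fin M → MvPolynomial σ (LaurentSeries κ)), ∃ c : σ → κ,
      Ou n (eval₂ (kc κ) (fun v => kc κ (a v) + eps κ * kc κ (c v)) W) ∧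
      ∀ j, G j ≠ 0 → eval (fun v => kc κ (a v) + eps κ * kc κ (c v)) (G j) ≠ 0

/-- [CZ] EASY. The set of the `x : κ` with `(G j).eval (T0 + kc x * ρ) = 0` for some `j` is finite: it is the
union of the preimages of the root sets under the injective map `x ↦ T0 + kc x * ρ`. Add `0`. The
complement is infinite (`κ` has characteristic zero), choose `m` different elements
(`Set.Infinite.natEmbedding` or `Infinite.exists_subset_card_eq`). -/
def S_CZ : Prop :=
  ∀ (κ : Type) [Field κ] [CharZero κ] (m M : ℕ) (T0 ρ : LaurentSeries κ)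
    (G : Fin M → Polynomial (LaurentSeries κ)), ρ ≠ 0 → (∀ j, G j ≠ 0) →
    ∃ z : Fin m → κ, Function.Injective z ∧ (∀ i, z i ≠ 0) ∧
      ∀ i j, (G j).eval (T0 + kc κ (z i) * ρ) ≠ 0

/-- [VD] EASY. The Vandermonde matrix of the different numbers `(z i)⁻¹` is invertible
(`Matrix.det_vandermonde_ne_zero_iff`), so the linear system has a solution. -/
def S_VD : Prop :=
  ∀ (κ : Type) [Field κ] (d : ℕ) (z : Fin (d + 1) → κ), Function.Injective z →
    (∀ i, z i ≠ 0) → ∃ ω : Fin (d + 1) → κ, ∀ j : ℕ, j ≤ d →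
      ∑ i, ω i * (z i)⁻¹ ^ j = if j = 1 then 1 else 0

/-- [EU] EASY. Compare coefficients; `MvPowerSeries.coeff_mul` and `degree (m + m') = degree m + degree m'`. -/
def S_EU : Prop :=
  ∀ (K V : Type) [CommRing K] (f g : MvPowerSeries V K) (a : K),
    Eu (f * g) = f * Eu g + g * Eu f ∧ Eu (f + g) = Eu f + Eu g ∧
    Eu (MvPowerSeries.C a * f) = MvPowerSeries.C a * Eu f ∧
    Eu (MvPowerSeries.C a : MvPowerSeries V K) = 0

/-- [LG] EASY (hEU : S_EU). `f * f⁻¹ = 1` for nonzero constant coefficient (`MvPowerSeries.mul_inv_cancel`),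
`MvPowerSeries.mul_inv_rev`; the last claim: multiply by `f⁻¹`; power: induction. -/
def S_LG : Prop :=
  ∀ (K V : Type) [Field K] (f g L : MvPowerSeries V K) (n : ℕ),
    MvPowerSeries.constantCoeff f ≠ 0 → MvPowerSeries.constantCoeff g ≠ 0 →
    Lm (f * g) = Lm f + Lm g ∧ Lm (f ^ n) = n * Lm f ∧ (L * f = Eu f → L = Lm f)

/-- [BD] EASY-MEDIUM. The rules for `Bdd`: multiply by powers of `ε`; products: every summand of
`MvPowerSeries.coeff_mul` has indices of degree at most `d`; `Eu` multiplies the coefficients by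
natural numbers; power: induction from the product rule. -/
def S_BD : Prop :=
  ∀ (κ V : Type) [Field κ] (n n' d : ℕ) (f g : MvPowerSeries V (LaurentSeries κ)) (a : κ⟦X⟧),
    (n ≤ n' → Bdd n d f → Bdd n' d f) ∧ (Bdd n d f → Bdd n d g → Bdd n d (f + g)) ∧
    (Bdd n d f → Bdd n d (-f)) ∧ (Bdd n d f → Bdd n' d g → Bdd (n + n') d (f * g)) ∧
    Bdd 0 d (MvPowerSeries.C (ph κ a) : MvPowerSeries V (LaurentSeries κ)) ∧
    (Bdd n d f → Bdd (n' * n) d (f ^ n')) ∧ (Bdd n d f → Bdd n d (Eu f)) ∧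
    (Bdd n d f → n ≤ n' → Bdd 0 d (MvPowerSeries.C (eps κ ^ n') * f)) ∧
    (Bdd 0 d f → ∀ m : V →₀ ℕ, m.degree ≤ d → ∃ b : κ⟦X⟧, MvPowerSeries.coeff m f = ph κ b)

/-- [BI] MEDIUM. Inverse. Let `f` be integral up to degree `d` with constant coefficient `u`,
`ph b * u = ε ^ n` (so `u ≠ 0`). Show by induction on `degree m ≤ d` that
`ε ^ (n * (degree m + 1)) * coeff m f⁻¹` is in the range of `ph`: from `f * f⁻¹ = 1`
(`MvPowerSeries.mul_inv_cancel`) `u * coeff m f⁻¹ = [m = 0] - ∑_{(m1, m2), m1 + m2 = m, m1 ≠ 0} coeff m1 f * coeff m2 f⁻¹`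
(`MvPowerSeries.coeff_mul`, split off the term `m1 = 0`); multiply by `ph b * ε ^ (n * degree m)`: the
left side is `ε ^ (n * (degree m + 1)) * coeff m f⁻¹`; in the sum `degree m2 < degree m`, so
`n * (degree m2 + 1) ≤ n * degree m`. Finally `n * (degree m + 1) ≤ n * (d + 1)`. -/
def S_BI : Prop :=
  ∀ (κ V : Type) [Field κ] (n d : ℕ) (f : MvPowerSeries V (LaurentSeries κ)), Bdd 0 d f →
    Ou n (MvPowerSeries.constantCoeff f) → Bdd (n * (d + 1)) d f⁻¹

/-- [OU] EASY. Orders: (i) `Ou n u → u ≠ 0` (`ε ^ n ≠ 0`). (ii) the product rule. (iii) `1 + ε * a` is a unit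
of the ring of power series (constant coefficient `1`), so `Ou n u → Ou n (u * ph (1 + X * a))`.
(iv) `Ou n (kc z * ε ^ n)` for `z ≠ 0`. (v) if `u * u'` has order at most `n` and `u'` is integral then
`u` has order at most `n`. -/
def S_OU : Prop :=
  ∀ (κ : Type) [Field κ] (n n' : ℕ) (u u' : LaurentSeries κ) (a : κ⟦X⟧) (z : κ),
    (Ou n u → u ≠ 0) ∧ (Ou n u → Ou n' u' → Ou (n + n') (u * u')) ∧
    (Ou n u → Ou n (u * ph κ (1 + PowerSeries.X * a))) ∧ (z ≠ 0 → Ou n (kc κ z * eps κ ^ n)) ∧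
    (Ou n (u * ph κ a) → Ou n u)

/-- [CT] MEDIUM (hEU : S_EU). The main term. Put `U = T - C T0` with `T0` the constant coefficient of `T`, `u i = z i * ρ ≠ 0`
and `f i = C (T0 + z i * ρ) - T = C (u i) - U`. `Eu (f i) = - Eu U`, and
`(f i)⁻¹ = ∑_{j < d} C (u i)⁻¹^(j+1) * U^j + C (u i)⁻¹^d * U^d * (f i)⁻¹` (multiply by `f i`; geometric sum,
`f i` has nonzero constant coefficient). So `Lm (f i) = - ∑_{j<d} C (u i)⁻¹^(j+1) * (U^j * Eu U) - C (..) * (U^d * Eu U) * (f i)⁻¹`.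
`U` and `Eu U` have constant coefficient `0`, so the coefficients of degree `≤ d` of `U^d * Eu U * (..)`
vanish (order `≥ d + 1`: `MvPowerSeries.order` or direct). Hence
`∑ i, ω i * ρ * coeff m (Lm (f i)) = - ∑_{j<d} ρ^(-j) (∑ i, ω i (z i)⁻¹^(j+1)) coeff m (U^j * Eu U) =
- coeff m (Eu U) = - degree m * coeff m T` (only `j = 0` remains; `coeff m U = coeff m T` for `m ≠ 0`, and for
`m = 0` the factor `degree m` is `0`). -/
def S_CT : Prop :=
  ∀ (K V : Type) [Field K] (d : ℕ) (T : MvPowerSeries V K) (ρ : K) (z ω : Fin (d + 1) → K),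
    1 ≤ d → ρ ≠ 0 → (∀ i, z i ≠ 0) →
    (∀ j : ℕ, j ≤ d → ∑ i, ω i * (z i)⁻¹ ^ j = if j = 1 then 1 else 0) →
    ∀ m : V →₀ ℕ, m.degree ≤ d →
      ∑ i, ω i * ρ * MvPowerSeries.coeff m
        (Lm (MvPowerSeries.C (MvPowerSeries.constantCoeff T + z i * ρ) - T)) =
      -((m.degree : K) * MvPowerSeries.coeff m T)

/-- [CY] EASY-MEDIUM (hEU : S_EU) (hBD : S_BD) (hBI : S_BI) (hOU : S_OU). `f = 1 + ε^N' Y` with `Y` of
pole order `≤ n < N'`. The series `ε^N' Y = ε * (ε^(N'-1) Y)` is integral up to degree `d` (BD), its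
constant coefficient is `ph (X * a)`, so `constantCoeff f = ph (1 + X * a)` has `Ou 0`, `f⁻¹` is integral (BI with `n = 0`),
`Eu f = ε^N' * Eu Y` is integral, so is `Lm f = Eu f * f⁻¹`. -/
def S_CY : Prop :=
  ∀ (κ V : Type) [Field κ] (n d N' : ℕ) (Y : MvPowerSeries V (LaurentSeries κ)), Bdd n d Y →
    n + 1 ≤ N' →
    (∃ a : κ⟦X⟧, MvPowerSeries.constantCoeff (1 + MvPowerSeries.C (eps κ ^ N') * Y) =
      ph κ (1 + PowerSeries.X * a)) ∧
    Bdd 0 d (Lm (1 + MvPowerSeries.C (eps κ ^ N') * Y))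

/-- [CQ] MEDIUM (hLG : S_LG) (hBD : S_BD) (hBI : S_BI) (hOU : S_OU) (hCY : S_CY). Put `t = tp a0 z θ`,
`q0 = q.eval (C (ph a0))`, `q1 = q.eval (C t)`. Both are integral up to degree `d` (induction over the sum
`Polynomial.eval_eq_sum_range`, BD). `q1 - q0 = C (ε^θ) * g` with `g` integral: termwise,
`(x + y)^j - x^j` is a multiple of `y` (`y = C (kc z * ε^θ)`; `Polynomial.evalSubFactor` or
`sub_dvd_pow_sub_pow`; `x, y` integral constants). `q0⁻¹` has pole order `≤ n (d + 1)` (BI), so `Y = g * q0⁻¹` as well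
(BD), and `q1 = q0 * (1 + C (ε^θ) * Y)` with `θ ≥ n (d + 1) + 1`. Apply CY and LG: `Lm q1 = Lm q0 + Lm (1 + ..)`. The order
of the constant coefficient: OU (iii). -/
def S_CQ : Prop :=
  ∀ (κ V : Type) [Field κ] (n d θ : ℕ) (q : Polynomial (MvPowerSeries V (LaurentSeries κ)))
    (a0 : κ⟦X⟧) (z : κ), (∀ j, Bdd 0 d (q.coeff j)) →
    Ou n (MvPowerSeries.constantCoeff (q.eval (MvPowerSeries.C (ph κ a0)))) →
    n * (d + 1) + 1 ≤ θ →
    Bdd 0 d (q.eval (MvPowerSeries.C (tp a0 z θ))) ∧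
    Ou n (MvPowerSeries.constantCoeff (q.eval (MvPowerSeries.C (tp a0 z θ)))) ∧
    ∃ Y, Bdd 0 d Y ∧ Lm (q.eval (MvPowerSeries.C (tp a0 z θ))) =
      Lm (q.eval (MvPowerSeries.C (ph κ a0))) + Y

/-- [MC] MEDIUM-HARD (hLG : S_LG) (hBD : S_BD) (hBI : S_BI) (hOU : S_OU) (hCT : S_CT) (hCY : S_CY) (hCQ : S_CQ).
Put `t i = tp a0 (z i) θ`, `f i = C (t i) - T`, `Q i = q.eval (C (t i))`, `Π i = (P * f i)^μ * Q i`. Constant coefficients: that of
`P` has `Ou 0`; that of `f i` is `kc (z i) * ε^θ`, `Ou θ`; that of `Q i` has `Ou n` (CQ). All of `P, f i, Q i` are integral up to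
degree `d` (BD, CQ), so by BI `P⁻¹` is integral, `(f i)⁻¹` has pole order `≤ θ (d+1)`, `(Q i)⁻¹` has `≤ n (d+1)`. Let
`Y i = D * Rr i * (P⁻¹ * (f i)⁻¹)^μ * (Q i)⁻¹`, pole order `≤ μ (θ (d+1)) + n (d+1) < N'`. Then
`D * Φ i = Π i * (1 + C (ε^N') * Y i)`. Constant coefficient of `1 + C (ε^N') * Y i`: CY, not zero; so that of `Φ i` is not zero. By LG
`Lm D + Lm (Φ i) = μ * (Lm P + Lm (f i)) + Lm (Q i) + Lm (1 + ..)` and `Lm (Q i) = Lm (q.eval (C (ph a0))) + Y' i`
(CQ); `Lm (1 + ..)` is integral (CY). So `Lm (Φ i) = B + μ * Lm (f i) + Z i` with `B` independent of `i` and `Z i` integral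
up to degree `d`. Now `∑ i, kc (ω i) * ε^θ * coeff m (Lm (Φ i))`: the `B` part is `0` (`∑ ω i = 0`, the case `j = 0`), the second
is `- μ d coeff m T` (CT with `ρ = ε^θ`, `z i ↦ kc (z i)`, `ω i ↦ kc (ω i)`; `degree m = d`), the third is `ε^θ ph (..) = ε ph (..)`
because `1 ≤ θ`. -/
def S_MC : Prop :=
  ∀ (κ V : Type) [Field κ] [CharZero κ] (d μ n θ N' : ℕ) (T P D : MvPowerSeries V (LaurentSeries κ))
    (q : Polynomial (MvPowerSeries V (LaurentSeries κ))) (a0 : κ⟦X⟧) (z ω : Fin (d + 1) → κ)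
    (Rr Φ : Fin (d + 1) → MvPowerSeries V (LaurentSeries κ)), 1 ≤ d →
    n * (d + 1) + 1 ≤ θ → μ * (θ * (d + 1)) + n * (d + 1) + 1 ≤ N' →
    Bdd 0 d T → MvPowerSeries.constantCoeff T = ph κ a0 →
    Bdd 0 d P → Ou 0 (MvPowerSeries.constantCoeff P) →
    Bdd 0 d D → MvPowerSeries.constantCoeff D ≠ 0 →
    (∀ j, Bdd 0 d (q.coeff j)) →
    Ou n (MvPowerSeries.constantCoeff (q.eval (MvPowerSeries.C (ph κ a0)))) →
    (∀ i, z i ≠ 0) → (∀ j : ℕ, j ≤ d → ∑ i, ω i * (z i)⁻¹ ^ j = if j = 1 then 1 else 0) →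
    (∀ i, Bdd 0 d (Rr i)) →
    (∀ i, D * Φ i = (P * (MvPowerSeries.C (tp a0 (z i) θ) - T)) ^ μ *
      q.eval (MvPowerSeries.C (tp a0 (z i) θ)) + MvPowerSeries.C (eps κ ^ N') * (D * Rr i)) →
    (∀ i, MvPowerSeries.constantCoeff (Φ i) ≠ 0) ∧
    ∀ m : V →₀ ℕ, m.degree = d → ∃ a : κ⟦X⟧,
      ∑ i, kc κ (ω i) * eps κ ^ θ * MvPowerSeries.coeff m (Lm (Φ i)) +
        μ * d * MvPowerSeries.coeff m T = eps κ * ph κ a

end Pool.Agent.Work.MP_499dc6_lc.MU
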