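import Pool.Agent.Work.MP_499dc6_lc.MU.DefsC
import Pool.Agent.Work.MP_499dc6_lc.MU.StmtsA
import Pool.Agent.Work.MP_499dc6_lc.MU.StmtsB

/-!
# Multiples of the permanent in bounded depth: statements, part C (the point, circuits, numbers)

Every docstring is a complete proof. Items: prove `theorem pr_X : S_X` in `MU/I_X.lean`.
-/

namespace Pool.Agent.Work.MP_499dc6_lc.MU

open MvPolynomial Finset
open Pool.Agent.Work.MP_499dc6_lc.CD (dY dZ IsBi BB mat)
open Pool.Agent.Work.MP_499dc6_lc.D3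
open Pool.Agent.Work.MP_499dc6_lc.Fib

open scoped PowerSeries

/-- [PL] EASY. The permanent is affine in every entry: `gperm = ∑_σ ∏_i X (σ i, i)` (or transposed); the image
of every product under `Th v0` is a product of `N` factors, at most one of which is `Polynomial.X`, the
others are constants `Polynomial.C _`; so the degree of the sum is at most `1`
(`Polynomial.eq_X_add_C_of_natDegree_le_one`). -/
def S_PL : Prop :=
  ∀ (κ : Type) [Field κ] (N : ℕ) (v0 : Fin N × Fin N),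
    Th v0 (gperm κ N) =
      Polynomial.C ((Th v0 (gperm κ N)).coeff 1) * Polynomial.X +
        Polynomial.C ((Th v0 (gperm κ N)).coeff 0)

/-- [BP] MEDIUM (hTH : S_TH) (hPL : S_PL). Let `π = map constantCoeff : MvPolynomial V κ⟦X⟧ →+* MvPolynomial V κ`;
`π (bp θ A c v) = rA κ A (θ v)`. For `τ` apply TH with `b = bh θ A c`: `(Th v0 gperm).eval₂ b τ` is on the one hand
`b P1 * τ + b P0` (PL), on the other hand the permanent of the matrix with entries `τ` at `v0`, `bp (i, j)`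
elsewhere (`gperm` is a permanent, ring homomorphisms commute with permanents, see
`map_permanent'` used in `Rc_scal`). Apply `π`: the matrix with entries `π τ` and `rA κ A (θ (i, j))`, so the
hypothesis with `ψ = rA κ A` gives `π (b P1) * π τ + π (b P0) = rA (C c₀ * PC) + C c₁ * π τ`, and
`rA κ A (PC κ n kk) = PA κ n kk A` (`(pr_PA n kk A).1`). `τ = 0`: `π (b P0) = C c₀ * PA`; `τ = 1`: `π (b P1) = C c₁`. A polynomial `f` over
`κ⟦X⟧` with `π f = g` is `map PowerSeries.C g + C X * R` (coefficient by coefficient), and `map PowerSeries.C (PA κ ..) = PA κ⟦X⟧ ..`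
(`(pr_PA n kk A).2.2` or directly). -/
def S_BP : Prop :=
  ∀ (κ : Type) [Field κ] [CharZero κ] (N n kk : ℕ) (v0 : Fin N × Fin N)
    (θ : Fin N × Fin N → MvPolynomial (VV n kk) κ) (c₀ c₁ : κ) (A : Finset (VV n kk))
    (c : Fin N × Fin N → κ),
    (∀ (S : Type) [CommRing S] (ψ : MvPolynomial (VV n kk) κ →+* S) (t : S),
      (Matrix.of fun i j => if (i, j) = v0 then t else ψ (θ (i, j))).permanent =
        ψ (C c₀ * PC κ n kk) + ψ (C c₁) * t) →
    ∃ R0 R1 : MvPolynomial (VV n kk) κ⟦X⟧,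
      bh θ A c ((Th v0 (gperm κ N)).coeff 0) =
        C (PowerSeries.C c₀) * PA κ⟦X⟧ n kk A + C PowerSeries.X * R0 ∧
      bh θ A c ((Th v0 (gperm κ N)).coeff 1) = C (PowerSeries.C c₁) + C PowerSeries.X * R1

/-- [TT] EASY-MEDIUM (hBD : S_BD) (hBI : S_BI). `B0 = C c₀ * G + X R0`, `B1 = C c₁ + X R1`. The constant coefficient of
`cs B1` is `ph (C c₁ + X r)`, the image of a unit, so it has `Ou 0`. `cs f` is integral for every `f` (its coefficients are in the
range of `ph`). Put `T = - cs B0 * (cs B1)⁻¹` (BI with `n = 0`, BD); the constant coefficient of `T` is in the range of `ph` (last rule of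
BD with `d = 0`). From `cs B1 * T = - cs B0`: `c₁ T = - c₀ cs G - ε (cs R0 + cs R1 * T)`; compare coefficients, `cs R1 * T` is
integral. -/
def S_TT : Prop :=
  ∀ (κ V : Type) [Field κ] (G R0 R1 : MvPolynomial V κ⟦X⟧) (c₀ c₁ : κ), c₁ ≠ 0 →
    ∃ T : MvPowerSeries V (LaurentSeries κ),
      cs κ V (C (PowerSeries.C c₁) + C PowerSeries.X * R1) * T =
        -cs κ V (C (PowerSeries.C c₀) * G + C PowerSeries.X * R0) ∧
      Ou 0 (MvPowerSeries.constantCoeff (cs κ V (C (PowerSeries.C c₁) + C PowerSeries.X * R1))) ∧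
      (∃ a0 : κ⟦X⟧, MvPowerSeries.constantCoeff T = ph κ a0) ∧ (∀ d, Bdd 0 d T) ∧
      ∀ m : V →₀ ℕ, ∃ a : κ⟦X⟧, MvPowerSeries.coeff m T =
        ph κ (PowerSeries.C (-(c₀ / c₁)) * coeff m G + PowerSeries.X * a)

/-- [ET] EASY-MEDIUM (hTH : S_TH). Facts on the points. (i) `θ v` is a constant or a variable, so `bp` is a constant plus a
variable or a constant. (ii) kinds: `Rc_kind_C`, `Rc_kind_tr`-like, `Rc_kind_map` (`Fib/RcC.lean`; `rA` of a variable is the
variable or `0`). (iii) the constant coefficient is a ring homomorphism; both sides are the value of `G` at the point with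
coordinates `t` at `v0` and `kc (a v) + eps * kc (c v)` elsewhere, `a v = constantCoeff (rA κ A (θ v))` (TH (b) with `b = eval ..`,
`Polynomial.eval_map`). (iv) the coefficient of the specialised polynomial at `natDegree (Th v0 G)` is the value of the leading
coefficient. (v) the constant coefficient of `cs (bh f)` is the value of `f`. -/
def S_ET : Prop :=
  ∀ (κ : Type) [Field κ] (N n kk : ℕ) (v0 : Fin N × Fin N)
    (θ : Fin N × Fin N → MvPolynomial (VV n kk) κ) (κr κc : Fin N → Bool)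
    (A : Finset (VV n kk)) (c : Fin N × Fin N → κ) (t : LaurentSeries κ),
    (∀ v, (∃ a, θ v = C a) ∨ ∃ w, θ v = X w) → (∀ v, Rc_kind (κr v.1) (θ v)) →
    (∀ v, Rc_kind (κc v.2) (θ v)) →
    (∀ v, (et θ A c v0 t v).totalDegree ≤ 1) ∧ (∀ v, Rc_kind (κr v.1) (et θ A c v0 t v)) ∧
    (∀ v, Rc_kind (κc v.2) (et θ A c v0 t v)) ∧
    (∀ G : MvPolynomial (Fin N × Fin N) (LaurentSeries κ),
      constantCoeff (aeval (et θ A c v0 t) G) = ((Th v0 G).map (eval fun v =>
        kc κ (constantCoeff (rA κ A (θ v))) + eps κ * kc κ (c v))).eval t) ∧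
    ∀ f : MvPolynomial (Fin N × Fin N) κ,
      MvPowerSeries.constantCoeff (cs κ (VV n kk) (bh θ A c f)) = eval₂ (kc κ) (fun v =>
        kc κ (constantCoeff (rA κ A (θ v))) + eps κ * kc κ (c v)) f

/-- [NV] EASY-MEDIUM (hTH : S_TH) (hCH : S_CH) (hCZ : S_CZ) (hET : S_ET). Choice of the point and of the numbers `z i`. Apply CH with
`a v = constantCoeff (rA κ A (θ v))` and `W`, which gives `n`; given the gates `G j` apply it to the leading coefficients of
`Th v0 (G j)` (nonzero if `G j ≠ 0`, because `Th v0` is injective by TH (a)), which gives `c`. Then for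
`G j ≠ 0` the specialised polynomial `(Th v0 (G j)).map (eval ..)` is not zero (its coefficient at
`natDegree (Th v0 (G j))` is the value of the leading coefficient). Apply CZ to these polynomials (to `1` if `G j = 0`) and ET (the fourth claim). -/
def S_NV : Prop :=
  ∀ (κ : Type) [Field κ] [CharZero κ] (N n kk : ℕ) (v0 : Fin N × Fin N)
    (θ : Fin N × Fin N → MvPolynomial (VV n kk) κ) (κr κc : Fin N → Bool)
    (A : Finset (VV n kk)) (W : MvPolynomial (Fin N × Fin N) κ),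
    (∀ v, (∃ a, θ v = C a) ∨ ∃ w, θ v = X w) → (∀ v, Rc_kind (κr v.1) (θ v)) →
    (∀ v, Rc_kind (κc v.2) (θ v)) → W ≠ 0 →
    ∃ nW : ℕ, ∀ (M : ℕ) (G : Fin M → MvPolynomial (Fin N × Fin N) (LaurentSeries κ)),
      ∃ c : Fin N × Fin N → κ,
        Ou nW (MvPowerSeries.constantCoeff (cs κ (VV n kk) (bh θ A c W))) ∧
        ∀ (m' : ℕ) (T0 ρ : LaurentSeries κ), ρ ≠ 0 → ∃ z : Fin m' → κ, Function.Injective z ∧
          (∀ i, z i ≠ 0) ∧ ∀ i j, G j ≠ 0 →
            constantCoeff (aeval (et θ A c v0 (T0 + kc κ (z i) * ρ)) (G j)) ≠ 0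

/-- [UA] HARD (assembly; hTH, hRM, hNV, hVD, hBD, hOU, hMC, hSC, hPL, hBP, hTT, hET). `V = VV n kk`, `d = 2 (n + kk) + 2 n`.
(1) SC gives `v0, θ, κr, κc, c₀, c₁`. `P0, P1` the coefficients `0, 1` of `Th v0 (gperm κ N)`; `P1 ≠ 0` (else BP with `A = ∅`, `c = 0` gives
`C c₁ + C X * R1 = 0`, look at the constant coefficients). `F0 = H * gperm κ N`; `Th v0 F0 = Th v0 H * (C P1 X + C P0)` (PL), nonzero
(`Th v0 H ≠ 0` by TH (a)). RM for `R = MvPolynomial σ κ` gives `μ ≥ 1, m, D, W, Q, Q2`. NV for `D * W` gives `nW`. Put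
`θ' = nW * (d + 1) + 1`, `N' = μ * (θ' * (d + 1)) + nW * (d + 1) + 1`.
(2) Given the gates `G`: NV gives `c`; `B0 = bh P0`, `B1 = bh P1` (BP); TT gives `T, a0`; NV with `m' = d + 1`, `T0 = ph a0`, `ρ = eps ^ θ'`
gives `z`; VD gives `ω`. `e0 = μ d c₀ / c₁ ≠ 0` in `κ`. `η i = et θ A c v0 (tp a0 (z i) θ')`, `lam i = kc (ω i / e0) * eps ^ θ'`. Degree and kinds: ET.
(3) Given `R`: `Φ i = aeval (η i) (map (ph κ) (map C F0 + C (X ^ N') * R))`. Let `b = (cs κ V).comp (bh θ A c)`, `q = Q.map b`, `t i = tp a0 (z i) θ'`.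
The power series of `Φ i` is `(Th v0 F0).eval₂ b (C (t i)) + C (eps ^ N') * Rr i` (TH (b); both sides are `eval₂` of `F0` at the same
point), `Rr i` the power series of `aeval (η i) (map (ph κ) R)`, which is `cs` of a polynomial over `κ⟦X⟧`
(`t i = ph (a0 + C z X^θ')`), so integral. Apply `eval₂ b (C (t i))` to `C D * Th v0 F0 = P ^ μ * Q`:
`b D * (..) = (b P1 * C (t i) + b P0) ^ μ * q.eval (C (t i))` and `b P1 * C (t i) + b P0 = b P1 * (C (t i) - T)` (TT).
(4) Orders: apply `eval₂ b T` to `C (P1 ^ m) * Q = C W + P * Q2`: `(b P1)^m * q.eval T = b W`. The constant coefficient of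
`q.eval T` is that of `q.eval (C (ph a0))` (ring homomorphism, `Polynomial.eval_map`-type), call it `w`: `(..)^m * w = constantCoeff (b W)`. Since
`Ou nW (constantCoeff (b D) * constantCoeff (b W))` and the other factors are in the range of `ph`, OU (v) gives `Ou nW w`, and
`constantCoeff (b D) ≠ 0` (OU (i)).
(5) MC with `P = b P1`, `D = b D`, `T`, `q`, ... gives the claim on the constant coefficients and for every `m` of degree `d`
`∑ i, kc (ω i) * ε^θ' * coeff m (Lm (Φ i)) = - μ d coeff m T + ε ph a = ph (C e0 * coeff m (PA κ⟦X⟧ ..) + X a')` (TT). Divide by `kc e0`.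
`R' = ∑ m with degree m = d, monomial m (C e0⁻¹ * a')` (a finite sum, `Finset.finsuppAntidiag univ d`). -/
def S_UA : Prop :=
  ∀ (κ : Type) [Field κ] [CharZero κ] [IsAlgClosed κ] (N n kk : ℕ)
    (H : MvPolynomial (Fin N × Fin N) κ) (A : Finset (VV n kk)), 1 ≤ n → 12 * (2 * n + kk) ≤ N →
    H ≠ 0 → ∃ (κr κc : Fin N → Bool) (N' : ℕ), 1 ≤ N' ∧
      ∀ (M : ℕ) (G : Fin M → MvPolynomial (Fin N × Fin N) (LaurentSeries κ)),
      ∃ (η : Fin (2 * (n + kk) + 2 * n + 1) → Fin N × Fin N →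
          MvPolynomial (VV n kk) (LaurentSeries κ))
        (lam : Fin (2 * (n + kk) + 2 * n + 1) → LaurentSeries κ),
        (∀ i v, (η i v).totalDegree ≤ 1) ∧ (∀ i v, Rc_kind (κr v.1) (η i v)) ∧
        (∀ i v, Rc_kind (κc v.2) (η i v)) ∧
        (∀ i j, G j ≠ 0 → constantCoeff (aeval (η i) (G j)) ≠ 0) ∧
        ∀ R : MvPolynomial (Fin N × Fin N) κ⟦X⟧,
          (∀ i, constantCoeff (aeval (η i) (MvPolynomial.map (ph κ)
            (MvPolynomial.map PowerSeries.C (H * gperm κ N) +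
              C (PowerSeries.X ^ N') * R))) ≠ 0) ∧
          ∃ R' : MvPolynomial (VV n kk) κ⟦X⟧, ∀ m : VV n kk →₀ ℕ,
            m.degree = 2 * (n + kk) + 2 * n →
            coeff m (MvPolynomial.map (ph κ) (PA κ⟦X⟧ n kk A + C PowerSeries.X * R')) =
              ∑ i, lam i * MvPowerSeries.coeff m
                (Lm ((aeval (η i) (MvPolynomial.map (ph κ)
                  (MvPolynomial.map PowerSeries.C (H * gperm κ N) +
                    C (PowerSeries.X ^ N') * R)) : MvPolynomial (VV n kk) (LaurentSeries κ)) :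
                  MvPowerSeries (VV n kk) (LaurentSeries κ)))

/-- [LU] MEDIUM. Uniqueness of the logarithmic derivative. Let `W` be the power series with coefficients
`coeff m (w (dY m) (dZ m))`. Let `dY m + dZ m ≤ dd` and compare the coefficients at `m` in the relation of `LD` for `(u, v) = (dY m, dZ m)`:
`coeff m (bc u v V) = coeff m V`; `coeff m (w p1 q1 * bc p2 q2 V) = ∑_{m1 + m2 = m} coeff m1 (w p1 q1) * coeff m2 (bc p2 q2 V)`, where the term
is zero unless `(dY m1, dZ m1) = (p1, q1)` (then automatically `(dY m2, dZ m2) = (p2, q2)`). Summing over `p, q`: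
`degree m * coeff m V = coeff m (W * V)`. So `W * V` and `Lm V * V = Eu V` have the same coefficients of degree `≤ dd`
(`degree m = dY m + dZ m`), and by induction on the degree so have `W` and `Lm V` (`V` has nonzero constant coefficient). -/
def S_LU : Prop :=
  ∀ (Y Z K : Type) [Fintype Y] [Fintype Z] [Field K] [CharZero K] (dd : ℕ)
    (V : MvPolynomial (Y ⊕ Z) K) (w : ℕ → ℕ → MvPolynomial (Y ⊕ Z) K), LD dd V w →
    constantCoeff V ≠ 0 → ∀ m : Y ⊕ Z →₀ ℕ, dY m + dZ m ≤ dd →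
      coeff m (w (dY m) (dZ m)) =
        MvPowerSeries.coeff m (Lm (V : MvPowerSeries (Y ⊕ Z) K))

/-- [XI] EASY-MEDIUM. `χ0 = (PowerSeries.expand N' _).toRingHom.comp (PowerSeries.map j)` (see `FM/I_S2.lean`), injective; `χ` is
its extension to the fraction fields (`IsFractionRing.lift`, instance `IsFractionRing κ⟦X⟧ (LaurentSeries κ)`). -/
def S_XI : Prop :=
  ∀ (k κ : Type) [Field k] [Field κ] (j : k →+* κ) (N' : ℕ), 1 ≤ N' →
    ∃ (χ0 : k⟦X⟧ →+* κ⟦X⟧) (χ : LaurentSeries k →+* LaurentSeries κ),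
      (∀ a, χ (ph k a) = ph κ (χ0 a)) ∧ (∀ a, χ0 (PowerSeries.C a) = PowerSeries.C (j a)) ∧
      χ0 PowerSeries.X = PowerSeries.X ^ N'

/-- [MP] EASY-MEDIUM. Take the images of all data under `χ`: `map χ` commutes with `rename`, sums, products, `aeval` (with `Q`
replaced by `map χ Q`), and does not raise the degree. Coefficients `χ (c j)`, the same exponents and levels. -/
def S_MP : Prop :=
  ∀ (K K' : Type) [Field K] [Field K'] (χ : K →+* K') (N s r e : ℕ)
    (F : Fin s → MvPolynomial (Fin N × Fin N) K) (d : Fin s → ℕ), CktR r e F d →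
    CktR r e (fun i => MvPolynomial.map χ (F i)) d

/-- [EX] EASY-MEDIUM. The sum is one more gate, with level `h + 1`. For `i = castSucc i'`: the data of gate `i'`, one more `B (last) = 0` (a sum
with `l = U = c = 0`, `IsRCsum 0` and `BasicR`), `Q` renamed by `Fin.castSucc`; coefficients and exponents of the new gate are `0`
(`Fin.snoc`); `Low` of the extended circuit contains the images. Case `IsRCsum/IsRCprod`: the same. For `i = last`: `U = 1`
(`IsRCprod 1`), `B 0 = l0 + U0 + ∑ c i F i`, the other `B a = 0`, `Q = X 0`, level `h + 1 ≥ 1`, all earlier gates have level `≤ h < h + 1`. -/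
def S_EX : Prop :=
  ∀ (K : Type) [Field K] (N s h r e : ℕ) (F : Fin s → MvPolynomial (Fin N × Fin N) K)
    (d : Fin s → ℕ) (l0 U0 : MvPolynomial (Fin N × Fin N) K) (c : Fin s → K), CktR r e F d →
    (∀ i, d i ≤ h) → l0.totalDegree ≤ e → IsRCsum U0 →
    CktR (r + 1) e (Fin.snoc F (l0 + U0 + ∑ i, C (c i) * F i) :
      Fin (s + 1) → MvPolynomial (Fin N × Fin N) K) (Fin.snoc d (h + 1) : Fin (s + 1) → ℕ)

/-- [UP] MEDIUM-HARD (hUA : S_UA) (hLU : S_LU) (hXI : S_XI) (hMP : S_MP). The upper bound (compare `Rc_upper` in `Fib/RcC.lean`). `κ = AlgebraicClosure k`,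
`a = 2 (n + kk)`, `b = 2 n`. UA for `map (algebraMap k κ) H` gives `κr, κc, N'`; XI gives `χ0, χ`; `F' i = map χ (F i)`, a circuit (MP), and
`F' i0 = map (ph κ) (map C (H' * gperm κ N) + C (X ^ N') * map χ0 R)` (`gperm` maps to `gperm`). `Rc_sub` for `F'` gives `L`. UA for the
family of all `F' i` and `L i a` (`Fin s ⊕ (Fin s × Fin r)` enumerated, see `Rc_upper`) gives `η, lam`. For every `i : Fin (a + b + 1)` the family
`aeval (η i) (F' j)` is a `CktB`-circuit, all its members are zero or have nonzero constant coefficient; `Rc_ind` gives for the gate `i0`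
some `w i` with `LD (a + b) (Φ i) (w i)` and `BB .. (w i u v) (P exp (- ρ (d i0) (u + v)))`, `ρ h ≤ ρ (d i0)` (`Up_rho`). By LU
`coeff m (w i a b) = coeff m (Lm (Φ i))` for `dY m = a`, `dZ m = b`. So `∑ i, C (lam i) * w i a b` and
`map (ph κ) (PA + C X * bc a b R')` have the same coefficients (both are bihomogeneous of bidegree `(a, b)`; `PA` is, `(pr_PA ..).2.1`). `BB_fin_sum`,
`CD.pr_BBsmul`. -/
def S_UP : Prop :=
  ∀ (k : Type) [Field k] [CharZero k] (N s h r e : ℕ)
    (F : Fin s → MvPolynomial (Fin N × Fin N) (LaurentSeries k)) (d : Fin s → ℕ) (i0 : Fin s)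
    (H : MvPolynomial (Fin N × Fin N) k) (R : MvPolynomial (Fin N × Fin N) k⟦X⟧)
    (n kk : ℕ) (P : ℝ) (ρ : ℕ → ℝ) (t : ℕ → ℕ), CktR r e F d → (∀ i, d i ≤ h) → H ≠ 0 →
    F i0 = MvPolynomial.map (algebraMap k⟦X⟧ (LaurentSeries k))
      (MvPolynomial.map PowerSeries.C H * gperm k⟦X⟧ N + C PowerSeries.X * R) →
    1 ≤ kk → 3 * kk ≤ n → 12 * (2 * n + kk) ≤ N →
    Pars (Real.log (3 / 2)) (Real.log (3 / 2) * (n + kk) / n) (s + 1) e
      (2 * (n + kk) + 2 * n) h P ρ t →
    3 * (((2 * (n + kk) + 2 * n : ℕ) : ℝ) + 1) ^ 2 *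
      (((2 * (n + kk) + 2 * n : ℕ) : ℝ) + 1) ^ (6 * r + 10) ≤ P →
    ∀ A : Finset (VV n kk), ∃ R' : MvPolynomial (VV n kk) (AlgebraicClosure k)⟦X⟧,
      BB (Real.log (3 / 2)) (Real.log (3 / 2) * (n + kk) / n)
        (MvPolynomial.map (algebraMap (AlgebraicClosure k)⟦X⟧
          (LaurentSeries (AlgebraicClosure k)))
          (PA (AlgebraicClosure k)⟦X⟧ n kk A + C PowerSeries.X * R'))
        (((2 * (n + kk) + 2 * n + 1 : ℕ) : ℝ) * P *
          Real.exp (-(ρ h * ((2 * (n + kk) + 2 * n : ℕ) : ℝ))))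

/-- [IQ] EASY-MEDIUM (hUP : S_UP). Copy of `Rc_ineq` (`Fib/RcD.lean`) with `UP` in place of `Rc_upper` (and the field `AlgebraicClosure k` in
`D3.pr_RankK` and `mainBBrank`); the factor `s` of the bound is replaced by `2 (n + kk) + 2 n + 1`. -/
def S_IQ : Prop :=
  ∀ (k : Type) [Field k] [CharZero k] (N s h r e : ℕ)
    (F : Fin s → MvPolynomial (Fin N × Fin N) (LaurentSeries k)) (d : Fin s → ℕ) (i0 : Fin s)
    (H : MvPolynomial (Fin N × Fin N) k) (R : MvPolynomial (Fin N × Fin N) k⟦X⟧)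
    (n kk : ℕ) (P : ℝ) (ρ : ℕ → ℝ) (t : ℕ → ℕ), CktR r e F d → (∀ i, d i ≤ h) → H ≠ 0 →
    F i0 = MvPolynomial.map (algebraMap k⟦X⟧ (LaurentSeries k))
      (MvPolynomial.map PowerSeries.C H * gperm k⟦X⟧ N + C PowerSeries.X * R) →
    1 ≤ kk → 3 * kk ≤ n → 12 * (2 * n + kk) ≤ N →
    Pars (Real.log (3 / 2)) (Real.log (3 / 2) * (n + kk) / n) (s + 1) e
      (2 * (n + kk) + 2 * n) h P ρ t →
    3 * (((2 * (n + kk) + 2 * n : ℕ) : ℝ) + 1) ^ 2 *
      (((2 * (n + kk) + 2 * n : ℕ) : ℝ) + 1) ^ (6 * r + 10) ≤ P →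
    ρ h * ((2 * (n + kk) + 2 * n : ℕ) : ℝ) ≤
      Real.log (1000 * ((2 * (n + kk) + 1 : ℕ) : ℝ) ^ 8) +
        Real.log ((2 * (n + kk) + 2 * n + 1 : ℕ) : ℝ) + Real.log P

/-- [FI] MEDIUM (hIQ : S_IQ). Copy of `Rc_fin` (`Fib/RcD.lean`), case `h ≥ 1` only. Put `S = s * N1` and
`lam = 32 * (log S + (r + 1) * log N1 + e)`. `N` in `Rc_fin` is now `N1`: `key` is needed for `10 * g * qs Λ (h + 1) ≤ N1`, and then
`12 * (2 * n + kk) ≤ 3 * N1 ≤ N` since `4 * (2 * n + kk) ≤ N1`. Use `Rc_lam S r e N1 dd ..` (its hypotheses `1 ≤ S`, `dd + 1 ≤ N1`, `m + 1 ≤ N1`); its third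
conclusion gives `(s + 1) * P ≤ exp lam` because `s ≤ S`, its fifth with `log (dd + 1) ≤ log N1 ≤ log S`. There is no free top input `l0` any more, so the
case distinction on its degree is not needed. `mainPar` with `s + 1` as there, `IQ` instead of `Rc_ineq`, `pr_Num` at the end. -/
def S_FI : Prop :=
  ∀ (k : Type) [Field k] [CharZero k] (N N1 s h r e : ℕ)
    (F : Fin s → MvPolynomial (Fin N × Fin N) (LaurentSeries k)) (d : Fin s → ℕ) (i0 : Fin s)
    (H : MvPolynomial (Fin N × Fin N) k) (R : MvPolynomial (Fin N × Fin N) k⟦X⟧),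
    CktR r e F d → (∀ i, d i ≤ h) → H ≠ 0 →
    F i0 = MvPolynomial.map (algebraMap k⟦X⟧ (LaurentSeries k))
      (MvPolynomial.map PowerSeries.C H * gperm k⟦X⟧ N + C PowerSeries.X * R) →
    1 ≤ h → 2 ≤ N1 → 3 * N1 ≤ N →
    (N1 : ℝ) ≤ (11000 * (Real.log ((s * N1 : ℕ) : ℝ) + (r + 1) * Real.log N1 + e)) ^
      (Nat.fib (h + 3) - 1)

/-- [FJ] EASY-MEDIUM (hEX : S_EX) (hFI : S_FI). `h + 2` is the depth, `D = h + 2`, exponent `fib (h + 4) - 1 = E ≥ 1`. EX makes the sum the top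
gate of a circuit with `s + 1` gates, parameters `r + 1`, `e`, levels `≤ h + 1`. Put `N1 = N / 3`. If `N1 ≥ 2` then FI (with `h + 1`) gives
`N1 ≤ (11000 (log ((s+1) N1) + (r + 2) log N1 + e))^E`; `N ≤ 3 N1 + 2 ≤ 5 N1`, `5 ≤ 5 ^ E`, and `log ((s + 1) N1) + (r + 2) log N1 + e ≤
log s + log 2 + (r + 3) log N + e ≤ 4 (log s + (r + 1) log N + e)`. If `N1 ≤ 1` then `N ≤ 5` and the right side is at least
`220000 * log 2 ≥ 5` (base at least `1`). -/
def S_FJ : Prop :=
  ∀ (k : Type) [Field k] [CharZero k] (N s h r e : ℕ)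
    (F : Fin s → MvPolynomial (Fin N × Fin N) (LaurentSeries k)) (d : Fin s → ℕ)
    (l0 U0 : MvPolynomial (Fin N × Fin N) (LaurentSeries k)) (c : Fin s → LaurentSeries k)
    (H : MvPolynomial (Fin N × Fin N) k) (R : MvPolynomial (Fin N × Fin N) k⟦X⟧), 2 ≤ N → 1 ≤ s →
    CktR r e F d → (∀ i, d i ≤ h) → l0.totalDegree ≤ e → IsRCsum U0 → H ≠ 0 →
    l0 + U0 + ∑ i, C (c i) * F i = MvPolynomial.map (algebraMap k⟦X⟧ (LaurentSeries k))
      (MvPolynomial.map PowerSeries.C H * gperm k⟦X⟧ N + C PowerSeries.X * R) →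
    (N : ℝ) ≤ (220000 * (Real.log s + (r + 1) * Real.log N + e)) ^ (Nat.fib (h + 4) - 1)

end Pool.Agent.Work.MP_499dc6_lc.MU
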