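import Pool.Agent.Work.MP_499dc6_lc.MU.StmtsC

/-!
# Multiples of the permanent in bounded depth: the refined numbers

The number of the top summands in `S_IQ` is only `dd + 1`, so the last inequality is
`ρ_h dd ≤ C (r + 2) log N1`, and the exponent is `fib (h + 3) - 2` instead of `fib (h + 3) - 1`.
-/

namespace Pool.Agent.Work.MP_499dc6_lc.MU

open MvPolynomial Finset
open Pool.Agent.Work.MP_499dc6_lc.CD (dY dZ IsBi BB mat)
open Pool.Agent.Work.MP_499dc6_lc.D3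
open Pool.Agent.Work.MP_499dc6_lc.Fib

open scoped PowerSeries

/-- [NU] As `Fib.S_Num`, with `lamT` in place of `lam` on the right side of the hypothesis:
`g = N / (10 q_(h+1))`; if `g = 0` then `N < 10 q_(h+1)`; else `g ≤ 10 lamT q_h`,
`N < 10 q_(h+1) (g+1) ≤ 110 lamT q_h q_(h+1)` and `q_h q_(h+1) ≤ (332 lam)^(fib(h+3) - 2)`. -/
def S_NU : Prop :=
  ∀ (lam lamT : ℝ) (h N Λ : ℕ), 1 ≤ lam → 1 ≤ lamT → 1 ≤ h → Λ = ⌈330 * lam⌉₊ →
    (∀ g : ℕ, 1 ≤ g → 10 * g * qs Λ (h + 1) ≤ N →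
      Real.log (3 / 2) / (16 * qs Λ h * qs Λ (h + 1)) * (4 * g * qs Λ (h + 1)) ≤ lamT) →
    (N : ℝ) ≤ (332 * lam) ^ (Nat.fib (h + 3) - 2) * (332 * lamT)

/-- [FK] (hIQ : S_IQ) (hNU : S_NU). Copy of `Rc_fin` (`Fib/RcD.lean`), case `h ≥ 1` only, as in `S_FI`, with
`lam = 32 * (log s + (r + 1) * log N1 + e)` (no `S = s * N1` is needed) and
`lamT = 32 * (log N1 + (r + 1) * log N1 + (0 : ℕ))`. For `g ≥ 1` with `10 * g * qs Λ (h + 1) ≤ N1` let `n = g * qs Λ (h + 1)`,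
`n + kk = g * ps Λ (h + 1)`, `dd = 2 (n + kk) + 2 n`. `Rc_lam s r e N1 dd (2 (n + kk)) lam P` gives the hypotheses of `mainPar` (with `s + 1`), and
`Rc_lam N1 r 0 N1 dd (2 (n + kk)) lamT P` gives, last claim, `log (1000 ..) + log N1 + log P ≤ lamT`; `log (dd + 1) ≤ log N1`.
So `IQ` gives `ρ h * dd ≤ lamT`, the hypothesis of `NU`. `332 * 32 ≤ 11000`, `lamT = 32 (r + 2) log N1`. `s ≥ 1` because of `i0`. -/
def S_FK : Prop :=
  ∀ (k : Type) [Field k] [CharZero k] (N N1 s h r e : ℕ)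
    (F : Fin s → MvPolynomial (Fin N × Fin N) (LaurentSeries k)) (d : Fin s → ℕ) (i0 : Fin s)
    (H : MvPolynomial (Fin N × Fin N) k) (R : MvPolynomial (Fin N × Fin N) k⟦X⟧),
    CktR r e F d → (∀ i, d i ≤ h) → H ≠ 0 →
    F i0 = MvPolynomial.map (algebraMap k⟦X⟧ (LaurentSeries k))
      (MvPolynomial.map PowerSeries.C H * gperm k⟦X⟧ N + C PowerSeries.X * R) →
    1 ≤ h → 2 ≤ N1 → 3 * N1 ≤ N →
    (N1 : ℝ) ≤ (11000 * (Real.log s + (r + 1) * Real.log N1 + e)) ^ (Nat.fib (h + 3) - 2) *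
      (11000 * ((r + 2) * Real.log N1))

/-- [FL] (hEX : S_EX) (hFK : S_FK). As `S_FJ`. `h + 2` is the depth `D`, the exponent is `E = fib (D + 2) - 2 ≥ 1`: `1, 3, 6, 11` for
`D = 2, 3, 4, 5`. EX makes the sum the top gate of a circuit with `s + 1` gates, parameters `r + 1`, `e`, levels `≤ h + 1`. Put
`N1 = N / 3`. If `N1 ≥ 2` then FK (with `h + 1`) gives `N1 ≤ (11000 (log (s+1) + (r + 2) log N1 + e))^E * (11000 (r + 3) log N1)`;
`log (s+1) ≤ log s + log 2`, so the base is at most `33000 (log s + (r + 1) log N + e)`; `r + 3 ≤ 3 (r + 1)`, `N ≤ 3 N1 + 2 ≤ 4 N1`. If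
`N1 ≤ 1` then `N ≤ 5` and the right side is at least `33000 * log 2 * (132000 * log 2) ≥ 5` (base at least `1`, `E ≥ 1`). -/
def S_FL : Prop :=
  ∀ (k : Type) [Field k] [CharZero k] (N s h r e : ℕ)
    (F : Fin s → MvPolynomial (Fin N × Fin N) (LaurentSeries k)) (d : Fin s → ℕ)
    (l0 U0 : MvPolynomial (Fin N × Fin N) (LaurentSeries k)) (c : Fin s → LaurentSeries k)
    (H : MvPolynomial (Fin N × Fin N) k) (R : MvPolynomial (Fin N × Fin N) k⟦X⟧), 2 ≤ N → 1 ≤ s →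
    CktR r e F d → (∀ i, d i ≤ h) → l0.totalDegree ≤ e → IsRCsum U0 → H ≠ 0 →
    l0 + U0 + ∑ i, C (c i) * F i = MvPolynomial.map (algebraMap k⟦X⟧ (LaurentSeries k))
      (MvPolynomial.map PowerSeries.C H * gperm k⟦X⟧ N + C PowerSeries.X * R) →
    (N : ℝ) ≤ (33000 * (Real.log s + (r + 1) * Real.log N + e)) ^ (Nat.fib (h + 4) - 2) *
      (132000 * ((r + 1) * Real.log N))

end Pool.Agent.Work.MP_499dc6_lc.MU
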